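import Pool.Agent.Lib.MP_7b9603_al.Unf
import Pool.Agent.Lib.MP_2f4918_al.Root

/-!
# A1: inclusions of Coxeter matrices, pure Artin groups
-/

set_option autoImplicit false

namespace Pool.Agent.Lib.MP_7b9603_alCF

universe u

variable {S' S S'' : Type u}

private theorem a1_alt_even {G : Type*} [Monoid G] (a b : G) (k : ℕ) :
    SPH.altProd a b (2 * k) = (a * b) ^ k := by
  induction k with
  | zero => rw [mul_zero, pow_zero]; rfl
  | succ k ih =>
    have h : 2 * (k + 1) = 2 * k + 1 + 1 := by ring
    rw [h]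
    change a * (b * SPH.altProd a b (2 * k)) = _
    rw [ih, pow_succ', mul_assoc]

private theorem a1_braid {G : Type*} [Group G] (a b : G) (ha : a * a = 1) (hb : b * b = 1)
    (m : ℕ) (h : (a * b) ^ m = 1) : SPH.altProd a b m = SPH.altProd b a m := by
  have hinv : b * a = (a * b)⁻¹ := by
    rw [mul_inv_rev, inv_eq_of_mul_eq_one_left ha, inv_eq_of_mul_eq_one_left hb]
  rcases Nat.even_or_odd' m with ⟨k, hk | hk⟩
  · subst hk
    rw [a1_alt_even, a1_alt_even, hinv, inv_pow]
    apply eq_inv_of_mul_eq_one_left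
    rw [← pow_add, ← two_mul]
    exact h
  · subst hk
    change a * SPH.altProd b a (2 * k) = b * SPH.altProd a b (2 * k)
    rw [a1_alt_even, a1_alt_even, hinv, inv_pow]
    rw [mul_inv_eq_iff_eq_mul, mul_assoc, ← pow_add, ← two_mul]
    have h1 : (a * b) ^ (2 * k) = b * a := by
      rw [hinv]
      apply eq_inv_of_mul_eq_one_left
      rw [← pow_succ]
      exact h
    rw [h1, ← mul_assoc, hb, one_mul]

/-- The homomorphism of Artin groups defined by an inclusion of Coxeter matrices. -/
def incA (M' : CoxeterMatrix S') (M : CoxeterMatrix S) (j : S' → S)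
    (hM : ∀ a b, M (j a) (j b) = M' a b) : SPH.ArtinGroup M' →* SPH.ArtinGroup M :=
  SPH.ArtinGroup.lift M' (fun a => SPH.agen M (j a)) (fun a b h => by
    rw [← hM]
    exact SPH.agen_rel M _ _ (by rw [hM]; exact h))

theorem incA_agen (M' : CoxeterMatrix S') (M : CoxeterMatrix S) (j : S' → S)
    (hM : ∀ a b, M (j a) (j b) = M' a b) (a : S') :
    incA M' M j hM (SPH.agen M' a) = SPH.agen M (j a) :=
  SPH.ArtinGroup.lift_agen _ _ _ _

/-- Homomorphisms from an Artin group agreeing on the generators are equal. -/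
theorem artin_hom_ext {M : CoxeterMatrix S} {G : Type*} [Monoid G] {f g : SPH.ArtinGroup M →* G}
    (h : ∀ s, f (SPH.agen M s) = g (SPH.agen M s)) : f = g := by
  have h1 : f.toHomUnits = g.toHomUnits := by
    apply PresentedGroup.ext
    intro s
    apply Units.ext
    rw [MonoidHom.coe_toHomUnits, MonoidHom.coe_toHomUnits]
    exact h s
  ext x
  rw [← MonoidHom.coe_toHomUnits f, ← MonoidHom.coe_toHomUnits g, h1]

theorem incA_incA (M'' : CoxeterMatrix S'') (M' : CoxeterMatrix S') (M : CoxeterMatrix S)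
    (j' : S'' → S') (hM' : ∀ a b, M' (j' a) (j' b) = M'' a b) (j : S' → S)
    (hM : ∀ a b, M (j a) (j b) = M' a b) (hM'' : ∀ a b, M ((j ∘ j') a) ((j ∘ j') b) = M'' a b) :
    (incA M' M j hM).comp (incA M'' M' j' hM') = incA M'' M (j ∘ j') hM'' := by
  apply artin_hom_ext
  intro s
  rw [MonoidHom.comp_apply, incA_agen, incA_agen, incA_agen]
  rfl

theorem simple_braid (M : CoxeterMatrix S) (s t : S) (h : M s t ≠ 0) :
    SPH.altProd (M.simple s) (M.simple t) (M s t) =
      SPH.altProd (M.simple t) (M.simple s) (M s t) := by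
  have h1 := M.toCoxeterSystem.simple_mul_simple_self s
  have h2 := M.toCoxeterSystem.simple_mul_simple_self t
  have h3 := M.toCoxeterSystem.simple_mul_simple_pow s t
  rw [M.toCoxeterSystem_simple] at h1 h2 h3
  exact a1_braid _ _ h1 h2 _ h3

/-- The homomorphism from the Artin group to the Coxeter group. -/
def coxA (M : CoxeterMatrix S) : SPH.ArtinGroup M →* M.Group :=
  SPH.ArtinGroup.lift M M.simple (simple_braid M)

theorem coxA_agen (M : CoxeterMatrix S) (s : S) : coxA M (SPH.agen M s) = M.simple s :=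
  SPH.ArtinGroup.lift_agen _ _ _ _

/-- The homomorphism of Coxeter groups defined by an inclusion of Coxeter matrices. -/
def incW (M' : CoxeterMatrix S') (M : CoxeterMatrix S) (j : S' → S)
    (hM : ∀ a b, M (j a) (j b) = M' a b) : M'.Group →* M.Group :=
  M'.toCoxeterSystem.lift ⟨fun a => M.simple (j a), by
    intro a b
    have h3 := M.toCoxeterSystem.simple_mul_simple_pow (j a) (j b)
    rw [M.toCoxeterSystem_simple, hM] at h3
    exact h3⟩

theorem incW_simple (M' : CoxeterMatrix S') (M : CoxeterMatrix S) (j : S' → S)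
    (hM : ∀ a b, M (j a) (j b) = M' a b) (a : S') :
    incW M' M j hM (M'.simple a) = M.simple (j a) := by
  have h : M'.IsLiftable (fun a => M.simple (j a)) := by
    intro a b
    have h3 := M.toCoxeterSystem.simple_mul_simple_pow (j a) (j b)
    rw [M.toCoxeterSystem_simple, hM] at h3
    exact h3
  have h2 := M'.toCoxeterSystem.lift_apply_simple h a
  rw [M'.toCoxeterSystem_simple] at h2
  exact h2

theorem coxA_incA (M' : CoxeterMatrix S') (M : CoxeterMatrix S) (j : S' → S)
    (hM : ∀ a b, M (j a) (j b) = M' a b) (g : SPH.ArtinGroup M') :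
    coxA M (incA M' M j hM g) = incW M' M j hM (coxA M' g) := by
  have h : (coxA M).comp (incA M' M j hM) = (incW M' M j hM).comp (coxA M') := by
    apply artin_hom_ext
    intro s
    rw [MonoidHom.comp_apply, MonoidHom.comp_apply, incA_agen, coxA_agen, coxA_agen, incW_simple]
  exact DFunLike.congr_fun h g

/-- The pure Artin group. -/
def PA (M : CoxeterMatrix S) : Subgroup (SPH.ArtinGroup M) := (coxA M).ker

instance (M : CoxeterMatrix S) : (PA M).Normal := inferInstanceAs ((coxA M).ker).Normal

theorem mem_PA {M : CoxeterMatrix S} {g : SPH.ArtinGroup M} : g ∈ PA M ↔ coxA M g = 1 := Iff.rfl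

open MP_2f4918_al in
private theorem a1_ee (j : S' → S) (a : S') :
    Finsupp.lmapDomain ℝ ℝ j (ee a) = ee (j a) := by
  unfold ee
  rw [Finsupp.lmapDomain_apply, Finsupp.mapDomain_single]

open MP_2f4918_al in
private theorem a1_gform (M' : CoxeterMatrix S') (M : CoxeterMatrix S) (j : S' → S)
    (hM : ∀ a b, M (j a) (j b) = M' a b) (a : S') (v : S' →₀ ℝ) :
    gform M (ee (j a)) (Finsupp.lmapDomain ℝ ℝ j v) = gform M' (ee a) v := by
  have h : (gform M (ee (j a))).comp (Finsupp.lmapDomain ℝ ℝ j) = gform M' (ee a) := by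
    apply Finsupp.lhom_ext'
    intro b
    apply LinearMap.ext_ring
    have h1 : gform M (ee (j a)) (Finsupp.lmapDomain ℝ ℝ j (ee b)) = gform M' (ee a) (ee b) := by
      rw [a1_ee, gform_ee, gform_ee]
      unfold kk
      rw [hM]
    exact h1
  exact DFunLike.congr_fun h v

open MP_2f4918_al in
private theorem a1_gr (M' : CoxeterMatrix S') (M : CoxeterMatrix S) (j : S' → S)
    (hM : ∀ a b, M (j a) (j b) = M' a b) (w : M'.Group) (v : S' →₀ ℝ) :
    Finsupp.lmapDomain ℝ ℝ j (gr M'.toCoxeterSystem w v)
      = gr M.toCoxeterSystem (incW M' M j hM w) (Finsupp.lmapDomain ℝ ℝ j v) := by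
  induction w using M'.toCoxeterSystem.simple_induction_left generalizing v with
  | one => rw [gr_one, map_one (incW M' M j hM), gr_one]
  | mul_simple_left w i ih =>
    have hi : incW M' M j hM (M'.toCoxeterSystem.simple i) = M.toCoxeterSystem.simple (j i) := by
      rw [M'.toCoxeterSystem_simple, M.toCoxeterSystem_simple, incW_simple]
    rw [gr_mul, map_mul (incW M' M j hM), gr_mul, hi, ← ih, gr_simple, gr_simple, sig_apply,
      sig_apply, a1_gform M' M j hM, map_sub, map_smul, a1_ee]

/-- Parabolic subgroups of Coxeter groups are Coxeter groups. -/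
theorem incW_injective (M' : CoxeterMatrix S') (M : CoxeterMatrix S) (j : S' → S)
    (hj : Function.Injective j) (hM : ∀ a b, M (j a) (j b) = M' a b) :
    Function.Injective (incW M' M j hM) := by
  rw [injective_iff_map_eq_one]
  intro w hw
  apply MP_2f4918_al.gr_injective (cs := M'.toCoxeterSystem)
  apply LinearMap.ext
  intro v
  have h := a1_gr M' M j hM w v
  rw [hw, MP_2f4918_al.gr_one] at h
  exact Finsupp.mapDomain_injective hj h

theorem incA_mem_PA_iff (M' : CoxeterMatrix S') (M : CoxeterMatrix S) (j : S' → S)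
    (hj : Function.Injective j) (hM : ∀ a b, M (j a) (j b) = M' a b) (g : SPH.ArtinGroup M') :
    incA M' M j hM g ∈ PA M ↔ g ∈ PA M' := by
  rw [mem_PA, mem_PA, coxA_incA, ← map_one (incW M' M j hM)]
  exact (incW_injective M' M j hj hM).eq_iff

end Pool.Agent.Lib.MP_7b9603_alCF
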