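import Pool.Agent.Lib.MP_7b9603_alCF.A1

/-!
# A10: standard parabolic subgroups, adding one generator
-/

set_option autoImplicit false

namespace Pool.Agent.Lib.MP_7b9603_alCF

open SPH

universe u

variable {S : Type u}

/-- The restriction of a Coxeter matrix to a subset. -/
def sm (M : CoxeterMatrix S) (X : Set S) : CoxeterMatrix X where
  M := fun a b => M a b
  isSymm := by
    ext a b
    exact M.symmetric b a
  diagonal := fun a => M.diagonal a
  off_diagonal := fun a b h => M.off_diagonal a b (fun h' => h (Subtype.ext h'))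

theorem sm_apply (M : CoxeterMatrix S) (X : Set S) (a b : X) : sm M X a b = M a b := rfl

/-- The Artin group of a subset. -/
abbrev AX (M : CoxeterMatrix S) (X : Set S) : Type u := ArtinGroup (sm M X)

/-- The inclusion homomorphism. -/
def incX (M : CoxeterMatrix S) {X Y : Set S} (h : X ⊆ Y) : AX M X →* AX M Y :=
  incA (sm M X) (sm M Y) (Set.inclusion h) (fun _ _ => rfl)

theorem incX_agen (M : CoxeterMatrix S) {X Y : Set S} (h : X ⊆ Y) (a : X) :
    incX M h (agen (sm M X) a) = agen (sm M Y) (Set.inclusion h a) := incA_agen _ _ _ _ _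

theorem incX_incX (M : CoxeterMatrix S) {X Y Z : Set S} (h : X ⊆ Y) (h' : Y ⊆ Z) (g : AX M X) :
    incX M h' (incX M h g) = incX M (h.trans h') g := by
  have H : (incX M h').comp (incX M h) = incX M (h.trans h') := by
    apply artin_hom_ext
    intro a
    rw [MonoidHom.comp_apply, incX_agen, incX_agen, incX_agen]
  exact DFunLike.congr_fun H g

theorem incX_self (M : CoxeterMatrix S) {X : Set S} (h : X ⊆ X) (g : AX M X) :
    incX M h g = g := by
  have H : incX M h = MonoidHom.id _ := by
    apply artin_hom_ext
    intro a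
    rw [incX_agen]
    rfl
  exact DFunLike.congr_fun H g

/-- The neighbours of `s` in `X`. -/
def nb (M : CoxeterMatrix S) (X : Set S) (s : S) : Set S := {t | t ∈ X ∧ M t s ≠ 0}

theorem nb_sub (M : CoxeterMatrix S) (X : Set S) (s : S) : nb M X s ⊆ X := fun _ h => h.1

/-- The Artin group of `X ∪ {s}` is generated by those of `X` and of `nb X s ∪ {s}`. -/
theorem insert_gen (M : CoxeterMatrix S) (X : Set S) (s : S) (P : AX M (insert s X) → Prop)
    (h1 : P 1)
    (hX : ∀ (a : AX M X) g, P g → P (incX M (Set.subset_insert s X) a * g))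
    (hs : ∀ (a : AX M (insert s (nb M X s))) g, P g →
      P (incX M (Set.insert_subset_insert (nb_sub M X s)) a * g)) (g : AX M (insert s X)) : P g := by
  -- every generator comes from one of the two subgroups
  have key : ∀ y : (insert s X : Set S),
      (∃ a : AX M X, incX M (Set.subset_insert s X) a = agen (sm M (insert s X)) y) ∨
      (∃ a : AX M (insert s (nb M X s)), incX M (Set.insert_subset_insert (nb_sub M X s)) a =
        agen (sm M (insert s X)) y) := by
    rintro ⟨y, hy⟩
    rcases hy with hy | hy
    · right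
      exact ⟨agen _ ⟨y, Or.inl hy⟩, incX_agen _ _ _⟩
    · left
      exact ⟨agen _ ⟨y, hy⟩, incX_agen _ _ _⟩
  have hg : g ∈ Subgroup.closure (Set.range (agen (sm M (insert s X)))) := by
    have := PresentedGroup.closure_range_of (artinRelM (sm M (insert s X)))
    change g ∈ Subgroup.closure (Set.range (PresentedGroup.of (rels := artinRelM (sm M (insert s X)))))
    rw [this]
    exact Subgroup.mem_top g
  induction hg using Subgroup.closure_induction_left with
  | one => exact h1
  | mul_left x hx y hy ih =>
    obtain ⟨z, rfl⟩ := hx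
    rcases key z with ⟨a, ha⟩ | ⟨a, ha⟩
    · rw [← ha]; exact hX a y ih
    · rw [← ha]; exact hs a y ih
  | inv_mul_cancel x hx y hy ih =>
    obtain ⟨z, rfl⟩ := hx
    rcases key z with ⟨a, ha⟩ | ⟨a, ha⟩
    · rw [← ha, ← map_inv]; exact hX a⁻¹ y ih
    · rw [← ha, ← map_inv]; exact hs a⁻¹ y ih

/-- The pushout property. -/
theorem insert_lift (M : CoxeterMatrix S) (X : Set S) (s : S) (hsX : s ∉ X) {T : Type u} [Group T]
    (h1 : AX M X →* T) (h2 : AX M (insert s (nb M X s)) →* T)
    (h : ∀ a : AX M (nb M X s), h1 (incX M (nb_sub M X s) a) =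
      h2 (incX M (Set.subset_insert s (nb M X s)) a)) :
    ∃ φ : AX M (insert s X) →* T,
      (∀ a, φ (incX M (Set.subset_insert s X) a) = h1 a) ∧
      (∀ a, φ (incX M (Set.insert_subset_insert (nb_sub M X s)) a) = h2 a) := by
  classical
  -- the generator `s` of the second group
  let sN : (insert s (nb M X s) : Set S) := ⟨s, Set.mem_insert _ _⟩
  let σ : ↥(insert s X : Set S) → T := fun y =>
    if hy : (y : S) ∈ X then h1 (agen (sm M X) ⟨y, hy⟩)
    else h2 (agen (sm M (insert s (nb M X s))) sN)
  have σX : ∀ (y : (insert s X : Set S)) (hy : (y : S) ∈ X), σ y = h1 (agen (sm M X) ⟨y, hy⟩) := by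
    intro y hy
    simp only [σ, dif_pos hy]
  have σs : ∀ (y : (insert s X : Set S)), (y : S) = s →
      σ y = h2 (agen (sm M (insert s (nb M X s))) sN) := by
    intro y hy
    have : (y : S) ∉ X := by rw [hy]; exact hsX
    simp only [σ, dif_neg this]
  -- the two homomorphisms agree on the neighbours
  have σN : ∀ (y : (insert s X : Set S)) (hy : (y : S) ∈ nb M X s),
      σ y = h2 (agen (sm M (insert s (nb M X s))) ⟨y, Set.mem_insert_of_mem _ hy⟩) := by
    intro y hy
    rw [σX y hy.1]
    have := h (agen (sm M (nb M X s)) ⟨y, hy⟩)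
    rw [incX_agen, incX_agen] at this
    exact this
  have tr1 : ∀ a b c : S, c = b → M a c ≠ 0 → M a b ≠ 0 := by
    rintro a b c rfl h'
    exact h'
  have tr2 : ∀ a b c : S, c = b → M c a ≠ 0 → M a b ≠ 0 := by
    rintro a b c rfl h'
    rwa [M.symmetric a c]
  have hrel : ∀ y z : ↥(insert s X : Set S), sm M (insert s X) y z ≠ 0 →
      altProd (σ y) (σ z) (sm M (insert s X) y z) =
        altProd (σ z) (σ y) (sm M (insert s X) y z) := by
    intro y z hyz
    rw [sm_apply] at hyz ⊢
    by_cases hy : (y : S) ∈ X
    · by_cases hz : (z : S) ∈ X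
      · rw [σX y hy, σX z hz, ← altProd_map, ← altProd_map]
        exact congrArg h1 (agen_rel (sm M X) ⟨y, hy⟩ ⟨z, hz⟩ hyz)
      · have hz' : (z : S) = s := by
          rcases z.2 with h' | h'
          · exact h'
          · exact absurd h' hz
        have hys : M (y : S) s ≠ 0 := tr1 _ _ _ hz' hyz
        have hyN : (y : S) ∈ nb M X s := ⟨hy, hys⟩
        have e1 : M (y : S) (z : S) = M (y : S) s := congrArg (fun c => M (y : S) c) hz'
        rw [σN y hyN, σs z hz', ← altProd_map, ← altProd_map, e1]
        exact congrArg h2 (agen_rel (sm M (insert s (nb M X s)))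
          ⟨y, Set.mem_insert_of_mem _ hyN⟩ sN hys)
    · have hy' : (y : S) = s := by
        rcases y.2 with h' | h'
        · exact h'
        · exact absurd h' hy
      by_cases hz : (z : S) ∈ X
      · have hzs : M (z : S) s ≠ 0 := tr2 _ _ _ hy' hyz
        have hsz : M s (z : S) ≠ 0 := by rwa [M.symmetric s z]
        have hzN : (z : S) ∈ nb M X s := ⟨hz, hzs⟩
        have e1 : M (y : S) (z : S) = M s (z : S) := congrArg (fun c => M c (z : S)) hy'
        rw [σN z hzN, σs y hy', ← altProd_map, ← altProd_map, e1]
        exact congrArg h2 (agen_rel (sm M (insert s (nb M X s)))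
          sN ⟨z, Set.mem_insert_of_mem _ hzN⟩ hsz)
      · have hz' : (z : S) = s := by
          rcases z.2 with h' | h'
          · exact h'
          · exact absurd h' hz
        have : y = z := Subtype.ext (hy'.trans hz'.symm)
        rw [this]
  refine ⟨ArtinGroup.lift _ σ hrel, ?_, ?_⟩
  · intro a
    have H : (ArtinGroup.lift _ σ hrel).comp (incX M (Set.subset_insert s X)) = h1 := by
      apply artin_hom_ext
      intro x
      rw [MonoidHom.comp_apply, incX_agen, ArtinGroup.lift_agen]
      exact σX _ x.2
    exact DFunLike.congr_fun H a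
  · intro a
    have H : (ArtinGroup.lift _ σ hrel).comp
        (incX M (Set.insert_subset_insert (nb_sub M X s))) = h2 := by
      apply artin_hom_ext
      rintro ⟨x, hx⟩
      rw [MonoidHom.comp_apply, incX_agen, ArtinGroup.lift_agen]
      rcases hx with hx | hx
      · subst hx
        exact σs _ rfl
      · exact σN _ hx
    exact DFunLike.congr_fun H a

end Pool.Agent.Lib.MP_7b9603_alCF
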