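import Pool.Agent.Lib.MP_7b9603_alCF.A1

/-!
# A3: dihedral subgroups acting on the geometric representation
-/

set_option autoImplicit false

namespace Pool.Agent.Lib.MP_7b9603_alCF

open Pool.Agent.Lib.MP_2f4918_al

universe u

variable {S : Type u} (M : CoxeterMatrix S)

/-- The geometric representation of the Coxeter group of `M`. -/
noncomputable abbrev gg (w : M.Group) : Module.End ℝ (S →₀ ℝ) := gr M.toCoxeterSystem w

/-- Alternating product `s t s ⋯` with `n` factors in the Coxeter group. -/
def dw (s t : S) (n : ℕ) : M.Group := SPH.altProd (M.simple s) (M.simple t) n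

/-- Nonnegative combinations of `e_s` and `e_t`. -/
def Cone2 (s t : S) (v : S →₀ ℝ) : Prop := ∃ a b : ℝ, 0 ≤ a ∧ 0 ≤ b ∧ v = a • ee s + b • ee t

theorem dw_succ_left (s t : S) (n : ℕ) : dw M s t (n + 1) = M.simple s * dw M t s n := rfl

theorem dw_full (s t : S) (h : M s t ≠ 0) : dw M s t (M s t) = dw M t s (M s t) :=
  simple_braid M s t h


private theorem sgg (s : S) (v : S →₀ ℝ) : gg M (M.simple s) v = v - (2 * gform M (ee s) v) • ee s := by
  have e1 := gr_simple M.toCoxeterSystem s
  rw [M.toCoxeterSystem_simple] at e1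
  rw [show gg M (M.simple s) = sig M s from e1, sig_apply]

private theorem sgg_self (s : S) : gg M (M.simple s) (ee s) = - ee s := by
  rw [sgg, gform_ee, kk_self]; module

/-- The next letter after `s t s ⋯` (`n` letters) is `s` for even `n`, `t` for odd `n`. -/
theorem dw_succ_right (s t : S) (n : ℕ) :
    dw M s t (n + 1) = dw M s t n * M.simple (if Even n then s else t) := by
  induction n generalizing s t with
  | zero =>
    rw [if_pos (by simp), dw_succ_left]
    change M.simple s * 1 = 1 * M.simple s
    rw [mul_one, one_mul]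
  | succ n ih =>
    rw [dw_succ_left, ih t s, dw_succ_left M s t n, mul_assoc]
    congr 3
    by_cases h : Even n
    · rw [if_pos h, if_neg (by simp [h, parity_simps])]
    · rw [if_neg h, if_pos (by simp [h, parity_simps])]

private theorem dw_formula (s t : S) (n : ℕ) :
    gg M (dw M s t n) (ee (if Even n then s else t)) =
      qq (Real.cos (Real.pi / M s t)) (n + 1) • ee s + qq (Real.cos (Real.pi / M s t)) n • ee t := by
  induction n generalizing s t with
  | zero =>
    rw [if_pos (by simp), show dw M s t 0 = 1 from rfl, show gg M 1 (ee s) = ee s from gr_one _ _,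
      qq_zero, qq_one]
    module
  | succ n ih =>
    have h1 : (if Even (n + 1) then s else t) = (if Even n then t else s) := by
      by_cases h : Even n
      · rw [if_pos h, if_neg (by simp [h, parity_simps])]
      · rw [if_neg h, if_pos (by simp [h, parity_simps])]
    rw [h1, dw_succ_left]
    rw [show gg M (M.simple s * dw M t s n) (ee (if Even n then t else s)) =
      gg M (M.simple s) (gg M (dw M t s n) (ee (if Even n then t else s))) from gr_mul _ _ _ _]
    rw [ih t s, M.symmetric t s, sgg, map_add, map_smul, map_smul, gform_ee, gform_ee, kk_self,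
      show qq (Real.cos (Real.pi / M s t)) (n + 1 + 1) =
        2 * Real.cos (Real.pi / M s t) * qq (Real.cos (Real.pi / M s t)) (n + 1) -
        qq (Real.cos (Real.pi / M s t)) n from rfl,
      show kk M s t = -Real.cos (Real.pi / M s t) from rfl, smul_eq_mul, smul_eq_mul]
    module

/-- Below the full length the alternating product followed by its next letter is reduced. -/
theorem dw_next (s t : S) (hst : s ≠ t) (n : ℕ) (hn : n < M s t) :
    Cone2 s t (gg M (dw M s t n) (ee (if Even n then s else t))) := by
  have hm1 := M.off_diagonal s t hst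
  exact ⟨_, _, qq_nonneg hm1 (by omega), qq_nonneg hm1 (by omega), dw_formula M s t n⟩

private theorem dw_inv_eq (s t : S) (n : ℕ) :
    (dw M s t n)⁻¹ = if Even n then dw M t s n else dw M s t n := by
  have hinv : ∀ a, (M.simple a)⁻¹ = M.simple a := fun a => by
    have := M.toCoxeterSystem.simple_mul_simple_self a
    rw [M.toCoxeterSystem_simple] at this
    exact inv_eq_of_mul_eq_one_left this
  induction n with
  | zero => rw [if_pos (by simp)]; exact inv_one
  | succ n ih =>
    have e : (dw M s t (n + 1))⁻¹ = M.simple (if Even n then s else t) *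
        (if Even n then dw M t s n else dw M s t n) := by
      rw [dw_succ_right, mul_inv_rev, hinv, ih]
    rw [e]
    by_cases h : Even n
    · rw [if_pos h, if_pos h, if_neg (by simp [h, parity_simps]), dw_succ_left]
    · rw [if_neg h, if_neg h, if_pos (by simp [h, parity_simps]), dw_succ_left]

private theorem cone2_symm (s t : S) (v : S →₀ ℝ) (h : Cone2 s t v) : Cone2 t s v := by
  obtain ⟨a, b, ha, hb, h⟩ := h
  exact ⟨b, a, hb, ha, by rw [h, add_comm]⟩

/-- The mirror statement: `t` followed by `s t s ⋯` (`n` letters, `n < m`) is reduced. -/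
theorem dw_inv (s t : S) (hst : s ≠ t) (n : ℕ) (hn : n < M s t) :
    Cone2 s t (gg M (dw M s t n)⁻¹ (ee t)) := by
  rw [dw_inv_eq]
  by_cases h : Even n
  · rw [if_pos h]
    have := dw_next M t s hst.symm n (by rw [M.symmetric]; exact hn)
    rw [if_pos h] at this
    exact cone2_symm _ _ _ this
  · rw [if_neg h]
    have := dw_next M s t hst n hn
    rw [if_neg h] at this
    exact this

private theorem dw_sign_prev (s t : S) (hst : s ≠ t) (n : ℕ) (hn : n + 1 ≤ M s t) :
    Cone2 s t (-(gg M (dw M s t (n + 1)) (ee (if Even n then s else t)))) := by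
  rw [dw_succ_right, show gg M (dw M s t n * M.simple (if Even n then s else t))
    (ee (if Even n then s else t)) = gg M (dw M s t n) (gg M (M.simple (if Even n then s else t))
      (ee (if Even n then s else t))) from gr_mul _ _ _ _, sgg_self, map_neg, neg_neg]
  exact dw_next M s t hst n (by omega)

/-- All elements `dw s t n`, `dw t s n` map `e_s` and `e_t` to combinations with coefficients of
the same sign. -/
theorem dw_sign (s t : S) (hst : s ≠ t) (n : ℕ) (hn : n ≤ M s t) (a : S) (ha : a = s ∨ a = t) :
    Cone2 s t (gg M (dw M s t n) (ee a)) ∨ Cone2 s t (-(gg M (dw M s t n) (ee a))) := by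
  rcases n with _ | n
  · left
    rw [show dw M s t 0 = 1 from rfl, show gg M 1 (ee a) = ee a from gr_one _ _]
    rcases ha with rfl | rfl
    · exact ⟨1, 0, zero_le_one, le_rfl, by module⟩
    · exact ⟨0, 1, le_rfl, zero_le_one, by module⟩
  · have hm1 := M.off_diagonal s t hst
    have h1 : (if Even (n + 1) then s else t) = (if Even n then t else s) := by
      by_cases h : Even n
      · rw [if_pos h, if_neg (by simp [h, parity_simps])]
      · rw [if_neg h, if_pos (by simp [h, parity_simps])]
    by_cases hc : a = (if Even n then s else t)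
    · right
      rw [hc]
      exact dw_sign_prev M s t hst n hn
    · have hc' : a = (if Even (n + 1) then s else t) := by
        rw [h1]
        split_ifs at hc ⊢ <;> rcases ha with rfl | rfl <;> tauto
      rcases hn.lt_or_eq with hlt | heq
      · left
        rw [hc']
        exact dw_next M s t hst (n + 1) hlt
      · right
        rw [hc', dw_formula, show qq (Real.cos (Real.pi / M s t)) (n + 1 + 1) =
          2 * Real.cos (Real.pi / M s t) * qq (Real.cos (Real.pi / M s t)) (n + 1) -
          qq (Real.cos (Real.pi / M s t)) n from rfl]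
        have h2 := qq_self hm1
        rw [← heq] at h2 ⊢
        have h3 : 0 ≤ qq (Real.cos (Real.pi / M s t)) n := qq_nonneg hm1 (by omega)
        rw [← heq] at h3
        refine ⟨qq (Real.cos (Real.pi / ((n + 1 : ℕ) : ℝ))) n, 0, h3, le_rfl, ?_⟩
        rw [h2]
        module

/-- The last step: `dw s t (m - 1)` maps the root of its next letter to `e_t`. -/
theorem dw_last (s t : S) (hst : s ≠ t) (n : ℕ) (hn : n + 1 = M s t) :
    gg M (dw M s t n) (ee (if Even n then s else t)) = ee t := by
  have hm1 := M.off_diagonal s t hst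
  rw [dw_formula]
  have h2 := qq_self hm1
  have h3 : 0 ≤ qq (Real.cos (Real.pi / M s t)) n := qq_nonneg hm1 (by omega)
  have h4 := qq_invariant (Real.cos (Real.pi / M s t)) n
  rw [← hn] at h2 h3 h4 ⊢
  rw [h2] at h4 ⊢
  have h5 : qq (Real.cos (Real.pi / ((n + 1 : ℕ) : ℝ))) n = 1 := by nlinarith
  rw [h5]
  module

/-- Alternating products of the same length `0 < n < m` are different. -/
theorem dw_ne (s t : S) (hst : s ≠ t) (n : ℕ) (h0 : 0 < n) (hn : n < M s t) :
    dw M s t n ≠ dw M t s n := by
  intro heq
  obtain ⟨k, rfl⟩ : ∃ k, n = k + 1 := ⟨n - 1, by omega⟩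
  have h1 : (if Even (k + 1) then s else t) = (if Even k then t else s) := by
    by_cases h : Even k
    · rw [if_pos h, if_neg (by simp [h, parity_simps])]
    · rw [if_neg h, if_pos (by simp [h, parity_simps])]
  have h2 := dw_next M s t hst (k + 1) hn
  have h3 := cone2_symm _ _ _ (dw_sign_prev M t s hst.symm k (by rw [M.symmetric]; omega))
  rw [h1, heq] at h2
  set v := gg M (dw M t s (k + 1)) (ee (if Even k then t else s)) with hv
  obtain ⟨a, b, ha, hb, hab⟩ := h2
  obtain ⟨a', b', ha', hb', hab'⟩ := h3
  have hroot : v ∈ roots M.toCoxeterSystem := ⟨_, _, rfl⟩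
  have hh := hgt_ne_zero hroot
  have e1 : hgt v = a + b := by
    rw [hab, map_add, map_smul, map_smul, hgt_ee, hgt_ee]; simp
  have e2 : -hgt v = a' + b' := by
    rw [← map_neg, hab', map_add, map_smul, map_smul, hgt_ee, hgt_ee]; simp
  apply hh
  linarith

/-- Two equal roots have equal reflections. -/
theorem simple_conj (x : M.Group) (s t : S) (h : gg M x (ee s) = ee t) :
    x * M.simple s * x⁻¹ = M.simple t := by
  apply gr_inj (cs := M.toCoxeterSystem)
  apply LinearMap.ext
  intro v
  rw [gr_mul, gr_mul]
  have e1 := gr_simple M.toCoxeterSystem s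
  have e2 := gr_simple M.toCoxeterSystem t
  rw [M.toCoxeterSystem_simple] at e1 e2
  rw [e1, e2, sig_apply, sig_apply, map_sub, map_smul, gr_gr_inv, h]
  have h3 : gform M (ee s) (gr M.toCoxeterSystem x⁻¹ v) = gform M (ee t) v := by
    rw [← gform_gr M.toCoxeterSystem x (ee s), gr_gr_inv]
    rw [show gr M.toCoxeterSystem x (ee s) = ee t from h]
  rw [h3]

private theorem extremal_aux (u v : S →₀ ℝ) (hu : u ∈ roots M.toCoxeterSystem)
    (hu' : Nonneg u) (hv' : Nonneg v) (a b : ℝ) (ha : 0 ≤ a)
    (hb : 0 ≤ b) (c : S) (h : a • u + b • v = ee c) : a = 0 ∨ u = ee c := by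
  rcases ha.eq_or_lt with ha0 | ha0
  · exact Or.inl ha0.symm
  right
  have h3 : ∀ d, d ≠ c → u d = 0 := by
    intro d hd
    have h4 := DFunLike.congr_fun h d
    have h5 : (ee c : S →₀ ℝ) d = 0 := by simp [ee, Ne.symm hd]
    rw [Finsupp.add_apply, Finsupp.smul_apply, Finsupp.smul_apply, h5, smul_eq_mul,
      smul_eq_mul] at h4
    have h6 := mul_nonneg ha (hu' d)
    have h7 := mul_nonneg hb (hv' d)
    have h8 : a * u d = 0 := by linarith
    rcases mul_eq_zero.mp h8 with h9 | h9
    · linarith
    · exact h9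
  have h4 : u = u c • ee c := by
    ext b
    by_cases hb : b = c
    · subst hb; simp [ee]
    · rw [h3 b hb]
      simp [ee, Ne.symm hb]
  have h5 := gform_self_root hu
  rw [h4] at h5
  simp only [map_smul, LinearMap.smul_apply, smul_eq_mul, gform_ee, kk_self, mul_one] at h5
  have h6 := hu' c
  have h7 : u c = 1 := by nlinarith
  rw [h4, h7, one_smul]

/-- A simple root which is a nonnegative combination of two positive roots. -/
theorem extremal (u v : S →₀ ℝ) (hu : u ∈ roots M.toCoxeterSystem)
    (hv : v ∈ roots M.toCoxeterSystem) (hu0 : 0 < hgt u) (hv0 : 0 < hgt v) (a b : ℝ) (ha : 0 ≤ a)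
    (hb : 0 ≤ b) (c : S) (h : a • u + b • v = ee c) : (a = 0 ∨ u = ee c) ∧ (b = 0 ∨ v = ee c) := by
  have hu' := nonneg_of_hgt_pos hu hu0
  have hv' := nonneg_of_hgt_pos hv hv0
  exact ⟨extremal_aux M u v hu hu' hv' a b ha hb c h,
    extremal_aux M v u hv hv' hu' b a hb ha c (by rw [add_comm]; exact h)⟩

private theorem exists_min_aux (s t : S) (h0 : M s t ≠ 0) (x w : M.Group) (n : ℕ)
    (hn : n ≤ M s t) (h : x = w * dw M s t n ∨ x = w * dw M t s n) :
    ∃ n', n' ≤ M s t ∧ (x = w * M.simple s * dw M s t n' ∨ x = w * M.simple s * dw M t s n') := by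
  have hs : M.simple s * M.simple s = 1 := by
    have := M.toCoxeterSystem.simple_mul_simple_self s
    rwa [M.toCoxeterSystem_simple] at this
  have key : ∀ k, w * dw M s t (k + 1) = w * M.simple s * dw M t s k := fun k => by
    rw [dw_succ_left, mul_assoc]
  have key2 : ∀ k, w * dw M t s k = w * M.simple s * dw M s t (k + 1) := fun k => by
    rw [dw_succ_left, mul_assoc, ← mul_assoc (M.simple s), hs, one_mul]
  rcases h with h | h
  · rcases n with _ | k
    · exact ⟨1, by omega, Or.inl (by rw [h, ← key2 0]; rfl)⟩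
    · exact ⟨k, by omega, Or.inr (by rw [h, key])⟩
  · rcases hn.lt_or_eq with hlt | heq
    · exact ⟨n + 1, by omega, Or.inl (by rw [h, key2])⟩
    · obtain ⟨k, hk⟩ : ∃ k, M s t = k + 1 := ⟨M s t - 1, by omega⟩
      refine ⟨k, by omega, Or.inr ?_⟩
      rw [h, ← key, heq, ← hk, dw_full M s t h0]

/-- Every element is a minimal representative times an alternating product. -/
theorem exists_min (s t : S) (hst : s ≠ t) (h0 : M s t ≠ 0) (x : M.Group) :
    ∃ (w : M.Group) (n : ℕ), n ≤ M s t ∧ 0 < hgt (gg M w (ee s)) ∧ 0 < hgt (gg M w (ee t)) ∧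
      (x = w * dw M s t n ∨ x = w * dw M t s n) := by
  classical
  have hex : ∃ l, ∃ w n, M.toCoxeterSystem.length w = l ∧ n ≤ M s t ∧
      (x = w * dw M s t n ∨ x = w * dw M t s n) :=
    ⟨_, x, 0, rfl, Nat.zero_le _, Or.inl (by
      rw [show dw M s t 0 = 1 from rfl, mul_one])⟩
  obtain ⟨w, n, hl, hn, hx⟩ := Nat.find_spec hex
  have hpos : ∀ a : S, (∃ n', n' ≤ M s t ∧ (x = w * M.simple a * dw M s t n' ∨
      x = w * M.simple a * dw M t s n')) → 0 < hgt (gg M w (ee a)) := by
    intro a ⟨n', hn', hx'⟩
    have h1 : M.toCoxeterSystem.length w ≤ M.toCoxeterSystem.length (w * M.simple a) := by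
      rw [hl]
      exact Nat.find_min' hex ⟨w * M.simple a, n', rfl, hn', hx'⟩
    have h2 := M.toCoxeterSystem.length_mul_simple_ne w a
    rw [M.toCoxeterSystem_simple] at h2
    have h3 := (nonneg_iff M.toCoxeterSystem w a).1 (by
      rw [M.toCoxeterSystem_simple]; omega)
    have h4 := hgt_nonneg h3
    have h5 : hgt (gr M.toCoxeterSystem w (ee a)) ≠ 0 :=
      hgt_ne_zero (gr_mem_roots (ee_mem_roots a) w)
    exact lt_of_le_of_ne h4 (Ne.symm h5)
  refine ⟨w, n, hn, hpos s (exists_min_aux M s t h0 x w n hn hx), hpos t ?_, hx⟩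
  obtain ⟨n', h1, h2⟩ := exists_min_aux M t s (by rw [M.symmetric]; exact h0) x w n
    (by rw [M.symmetric]; exact hn) hx.symm
  exact ⟨n', by rw [M.symmetric]; exact h1, h2.symm⟩

end Pool.Agent.Lib.MP_7b9603_alCF
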