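import Pool.Agent.Lib.MP_7b9603_alCF.A3

/-!
# A4: the action of Charney and Paris, braid relations
-/

set_option autoImplicit false

namespace Pool.Agent.Lib.MP_7b9603_alCF

open Pool.Agent.Lib.MP_2f4918_al

universe u

variable {S' S : Type u} (M' : CoxeterMatrix S') (M : CoxeterMatrix S) (j : S' → S)

/-- The elements of the Coxeter group without left descents in the image of `j`. -/
def XC : Set M.Group := {x | ∀ c : S', 0 < hgt (gg M x⁻¹ (ee (j c)))}

private lemma a4_one (v : S →₀ ℝ) : gg M 1 v = v := gr_one M.toCoxeterSystem v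

private lemma a4_mul (x y : M.Group) (v : S →₀ ℝ) : gg M (x * y) v = gg M x (gg M y v) :=
  gr_mul M.toCoxeterSystem x y v

private lemma a4_inv_self (x : M.Group) (v : S →₀ ℝ) : gg M x⁻¹ (gg M x v) = v :=
  gr_inv_gr M.toCoxeterSystem x v

private lemma a4_self_inv (x : M.Group) (v : S →₀ ℝ) : gg M x (gg M x⁻¹ v) = v :=
  gr_gr_inv M.toCoxeterSystem x v

private lemma a4_simple_ee (s : S) : gg M (M.simple s) (ee s) = -ee s :=
  gr_simple_ee M.toCoxeterSystem s

private lemma a4_simple_sq (s : S) : M.simple s * M.simple s = 1 :=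
  M.toCoxeterSystem.simple_mul_simple_self s

private lemma a4_simple_inv (s : S) : (M.simple s)⁻¹ = M.simple s :=
  inv_eq_of_mul_eq_one_left (a4_simple_sq M s)

private lemma a4_mul_simple (x : M.Group) (s : S) : x * M.simple s * M.simple s = x := by
  rw [mul_assoc, a4_simple_sq, mul_one]

private lemma a4_root (x : M.Group) (s : S) : gg M x (ee s) ∈ roots M.toCoxeterSystem :=
  ⟨x, s, rfl⟩

private lemma a4_ee_inj {s t : S} (h : (ee s : S →₀ ℝ) = ee t) : s = t := by
  by_contra hst
  have h1 := DFunLike.congr_fun h s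
  simp only [ee, Finsupp.single_eq_same] at h1
  rw [Finsupp.single_eq_of_ne hst] at h1
  norm_num at h1

theorem one_mem_XC : (1 : M.Group) ∈ XC M j := by
  intro c
  rw [inv_one, a4_one, hgt_ee]
  exact one_pos

/-- Deodhar's lemma. -/
theorem XC_mul (x : M.Group) (hx : x ∈ XC M j) (s : S)
    (h : ¬ ∃ c, gg M x (ee s) = ee (j c)) : x * M.simple s ∈ XC M j := by
  intro c
  rw [mul_inv_rev, a4_simple_inv, a4_mul]
  have h1 : gg M x⁻¹ (ee (j c)) ∈ roots M.toCoxeterSystem := a4_root M _ _
  have h2 : gg M (M.simple s) (gg M x⁻¹ (ee (j c))) ∈ roots M.toCoxeterSystem :=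
    gr_mem_roots h1 _
  rcases lt_or_gt_of_ne (hgt_ne_zero h2) with h3 | h3
  · exfalso
    refine h ⟨c, ?_⟩
    have h4 : gg M x⁻¹ (ee (j c)) = ee s := eq_ee_of_neg h1 (hx c) h3
    rw [← h4, a4_self_inv]
  · exact h3

variable {B : Type u} [Group B] (ψ : S' → B)

open Classical in
/-- One step of the action of Charney and Paris. -/
noncomputable def stp (s : S) (p : B × XC M j) : B × XC M j :=
  if h : ∃ c, gg M p.2.1 (ee s) = ee (j c) then (p.1 * ψ h.choose, p.2)
  else (p.1, ⟨p.2.1 * M.simple s, XC_mul M j p.2.1 p.2.2 s h⟩)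

private lemma stp_pos (s : S) (p : B × XC M j) (h : ∃ c, gg M p.2.1 (ee s) = ee (j c)) :
    stp M j ψ s p = (p.1 * ψ h.choose, p.2) := dif_pos h

private lemma stp_neg (s : S) (p : B × XC M j) (h : ¬ ∃ c, gg M p.2.1 (ee s) = ee (j c)) :
    stp M j ψ s p = (p.1, ⟨p.2.1 * M.simple s, XC_mul M j p.2.1 p.2.2 s h⟩) := dif_neg h

theorem stp_wall (hj : Function.Injective j) (s : S) (p : B × XC M j) (c : S')
    (h : gg M p.2.1 (ee s) = ee (j c)) : stp M j ψ s p = (p.1 * ψ c, p.2) := by
  have h0 : ∃ c, gg M p.2.1 (ee s) = ee (j c) := ⟨c, h⟩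
  rw [stp_pos M j ψ s p h0]
  have h1 : h0.choose = c := hj (a4_ee_inj (h0.choose_spec.symm.trans h))
  rw [h1]

/-- After a step over no wall there is no wall. -/
private lemma a4_nonwall (x : M.Group) (hx : x ∈ XC M j) (s : S) :
    ¬ ∃ c, gg M (x * M.simple s) (ee s) = ee (j c) := by
  rintro ⟨c, hc⟩
  rw [a4_mul, a4_simple_ee, map_neg] at hc
  have h1 := hx c
  rw [← hc, map_neg, a4_inv_self, map_neg, hgt_ee] at h1
  norm_num at h1

theorem stp_bijective (s : S) : Function.Bijective (stp M j ψ s : B × XC M j → B × XC M j) := by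
  constructor
  · rintro ⟨b, x, hx⟩ ⟨b', x', hx'⟩ h
    by_cases h1 : ∃ c, gg M x (ee s) = ee (j c)
    · by_cases h2 : ∃ c, gg M x' (ee s) = ee (j c)
      · rw [stp_pos M j ψ s ⟨b, x, hx⟩ h1, stp_pos M j ψ s ⟨b', x', hx'⟩ h2] at h
        have e2 : x = x' := congrArg (fun p : B × XC M j => p.2.1) h
        subst e2
        have e1 : b * ψ h1.choose = b' * ψ h1.choose :=
          congrArg (fun p : B × XC M j => p.1) h
        have e3 : b = b' := mul_right_cancel e1
        rw [e3]
      · rw [stp_pos M j ψ s ⟨b, x, hx⟩ h1, stp_neg M j ψ s ⟨b', x', hx'⟩ h2] at h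
        have e2 : x = x' * M.simple s := congrArg (fun p : B × XC M j => p.2.1) h
        rw [e2] at h1
        exact absurd h1 (a4_nonwall M j x' hx' s)
    · by_cases h2 : ∃ c, gg M x' (ee s) = ee (j c)
      · rw [stp_neg M j ψ s ⟨b, x, hx⟩ h1, stp_pos M j ψ s ⟨b', x', hx'⟩ h2] at h
        have e2 : x * M.simple s = x' := congrArg (fun p : B × XC M j => p.2.1) h
        rw [← e2] at h2
        exact absurd h2 (a4_nonwall M j x hx s)
      · rw [stp_neg M j ψ s ⟨b, x, hx⟩ h1, stp_neg M j ψ s ⟨b', x', hx'⟩ h2] at h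
        have e2 : x * M.simple s = x' * M.simple s := congrArg (fun p : B × XC M j => p.2.1) h
        have e1 : b = b' := congrArg (fun p : B × XC M j => p.1) h
        have e3 : x = x' := mul_right_cancel e2
        subst e1 e3
        rfl
  · rintro ⟨b, x, hx⟩
    by_cases h1 : ∃ c, gg M x (ee s) = ee (j c)
    · refine ⟨(b * (ψ h1.choose)⁻¹, ⟨x, hx⟩), ?_⟩
      rw [stp_pos M j ψ s ⟨b * (ψ h1.choose)⁻¹, x, hx⟩ h1]
      dsimp only
      rw [inv_mul_cancel_right]
    · refine ⟨(b, ⟨x * M.simple s, XC_mul M j x hx s h1⟩), ?_⟩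
      rw [stp_neg M j ψ s ⟨b, x * M.simple s, _⟩ (a4_nonwall M j x hx s)]
      refine Prod.ext rfl (Subtype.ext ?_)
      exact a4_mul_simple M x s

/-- Apply `f`, `g`, `f`, … alternately, `n` times. -/
def alt2 {X : Type*} (f g : X → X) : ℕ → X → X
  | 0, x => x
  | n + 1, x => alt2 g f n (f x)

section path

variable {X : Type*} (f g : X → X)

/-- The step up at position `n`. -/
private def hu (n : ℕ) : X → X := if Even n then g else f

/-- The step down at position `n`. -/
private def kd (n : ℕ) : X → X := if Even n then f else g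

private lemma hu_succ (n : ℕ) : hu f g (n + 1) = kd f g n := by
  unfold hu kd
  by_cases h : Even n
  · rw [if_pos h, if_neg (by simpa [parity_simps] using h)]
  · rw [if_neg h, if_pos (by simpa [parity_simps] using h)]

private lemma kd_succ (n : ℕ) : kd f g (n + 1) = hu f g n := by
  unfold hu kd
  by_cases h : Even n
  · rw [if_pos h, if_neg (by simpa [parity_simps] using h)]
  · rw [if_neg h, if_pos (by simpa [parity_simps] using h)]

variable {f g} {m : ℕ} {F G : ℕ → X}

private lemma path_upG (hU : ∀ n, n + 1 < m → hu f g n (G n) = G (n + 1)) :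
    ∀ l n, n + l < m → alt2 (hu f g n) (kd f g n) l (G n) = G (n + l)
  | 0, n, _ => rfl
  | l + 1, n, h => by
      have h1 : alt2 (hu f g n) (kd f g n) (l + 1) (G n) =
          alt2 (kd f g n) (hu f g n) l (hu f g n (G n)) := rfl
      rw [h1, hU n (by omega), ← hu_succ f g n, ← kd_succ f g n, path_upG hU l (n + 1) (by omega)]
      congr 1
      omega

private lemma path_downG (hD : ∀ n, n + 1 < m → kd f g (n + 1) (G (n + 1)) = G n) :
    ∀ l n, l ≤ n → n < m → alt2 (kd f g n) (hu f g n) l (G n) = G (n - l)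
  | 0, n, _, _ => rfl
  | l + 1, n, h, hn => by
      obtain ⟨n', rfl⟩ : ∃ n', n = n' + 1 := ⟨n - 1, by omega⟩
      have h1 : alt2 (kd f g (n' + 1)) (hu f g (n' + 1)) (l + 1) (G (n' + 1)) =
          alt2 (hu f g (n' + 1)) (kd f g (n' + 1)) l (kd f g (n' + 1) (G (n' + 1))) := rfl
      rw [h1, hD n' (by omega), hu_succ, kd_succ, path_downG hD l n' (by omega) (by omega)]
      congr 1
      omega

private lemma path_upF (hU : ∀ n, n + 1 < m → hu f g n (F n) = F (n + 1))
    (hD : ∀ n, n + 1 < m → kd f g (n + 1) (G (n + 1)) = G n) (m' : ℕ) (hm : m = m' + 1)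
    (hW : hu f g m' (F m') = G m') (r : ℕ) (hr : r ≤ m') :
    ∀ i n, n + i = m' → alt2 (hu f g n) (kd f g n) (i + 1 + r) (F n) = G (m' - r)
  | 0, n, h => by
      obtain rfl : n = m' := by omega
      have h1 : alt2 (hu f g n) (kd f g n) (0 + 1 + r) (F n) =
          alt2 (kd f g n) (hu f g n) r (hu f g n (F n)) := by
        rw [show 0 + 1 + r = r + 1 by omega]
        rfl
      rw [h1, hW]
      exact path_downG hD r n hr (by omega)
  | i + 1, n, h => by
      have h1 : alt2 (hu f g n) (kd f g n) (i + 1 + 1 + r) (F n) =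
          alt2 (kd f g n) (hu f g n) (i + 1 + r) (hu f g n (F n)) := by
        rw [show i + 1 + 1 + r = (i + 1 + r) + 1 by omega]
        rfl
      rw [h1, hU n (by omega), ← hu_succ f g n, ← kd_succ f g n]
      exact path_upF hU hD m' hm hW r hr i (n + 1) (by omega)

private lemma path_downF (hU : ∀ n, n + 1 < m → hu f g n (G n) = G (n + 1))
    (hD : ∀ n, n + 1 < m → kd f g (n + 1) (F (n + 1)) = F n)
    (hW : kd f g 0 (F 0) = G 0) (r : ℕ) (hr : r < m) :
    ∀ n, n < m → alt2 (kd f g n) (hu f g n) (n + 1 + r) (F n) = G r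
  | 0, _ => by
      have h1 : alt2 (kd f g 0) (hu f g 0) (0 + 1 + r) (F 0) =
          alt2 (hu f g 0) (kd f g 0) r (kd f g 0 (F 0)) := by
        rw [show 0 + 1 + r = r + 1 by omega]
        rfl
      rw [h1, hW, path_upG hU r 0 (by omega), zero_add]
  | n + 1, h => by
      have h1 : alt2 (kd f g (n + 1)) (hu f g (n + 1)) (n + 1 + 1 + r) (F (n + 1)) =
          alt2 (hu f g (n + 1)) (kd f g (n + 1)) (n + 1 + r) (kd f g (n + 1) (F (n + 1))) := by
        rw [show n + 1 + 1 + r = (n + 1 + r) + 1 by omega]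
        rfl
      rw [h1, hD n (by omega), hu_succ, kd_succ]
      exact path_downF hU hD hW r hr n (by omega)

/-- The combinatorial lemma. -/
private lemma path_main (m' : ℕ) (hm : m = m' + 1)
    (hUF : ∀ n, n + 1 < m → hu f g n (F n) = F (n + 1))
    (hUG : ∀ n, n + 1 < m → hu f g n (G n) = G (n + 1))
    (hDF : ∀ n, n + 1 < m → kd f g (n + 1) (F (n + 1)) = F n)
    (hDG : ∀ n, n + 1 < m → kd f g (n + 1) (G (n + 1)) = G n)
    (hW0 : kd f g 0 (F 0) = G 0) (hW1 : hu f g m' (F m') = G m') (n : ℕ) (hn : n < m) :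
    alt2 f g m (F n) = alt2 g f m (F n) := by
  have h1 := path_upF hUF hDG m' hm hW1 n (by omega) (m' - n) n (by omega)
  have h2 := path_downF hUG hDF hW0 (m' - n) (by omega) n hn
  rw [show m' - n + 1 + n = m by omega] at h1
  rw [show n + 1 + (m' - n) = m by omega] at h2
  by_cases he : Even n
  · have e1 : hu f g n = g := if_pos he
    have e2 : kd f g n = f := if_pos he
    rw [e1, e2] at h1 h2
    rw [h1, h2]
  · have e1 : hu f g n = f := if_neg he
    have e2 : kd f g n = g := if_neg he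
    rw [e1, e2] at h1 h2
    rw [h1, h2]

end path

/-- The elements of the dihedral subgroup. -/
private def DS (s t : S) (d : M.Group) : Prop :=
  ∃ n, n ≤ M s t ∧ (d = dw M s t n ∨ d = dw M t s n)

private lemma DS_symm {s t : S} {d : M.Group} (h : DS M s t d) : DS M t s d := by
  obtain ⟨n, hn, h1⟩ := h
  exact ⟨n, by rw [M.symmetric]; exact hn, h1.symm⟩

private lemma DS_mul_aux (s t : S) (h0 : M s t ≠ 0) (n : ℕ) (hn : n ≤ M s t)
    (a : S) (ha : a = s ∨ a = t) : DS M s t (dw M s t n * M.simple a) := by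
  by_cases h1 : a = (if Even n then s else t)
  · rcases Nat.lt_or_ge n (M s t) with h2 | h2
    · refine ⟨n + 1, h2, Or.inl ?_⟩
      rw [dw_succ_right, ← h1]
    · obtain rfl : n = M s t := le_antisymm hn h2
      obtain ⟨m', hm'⟩ : ∃ m', M s t = m' + 1 := ⟨M s t - 1, by omega⟩
      refine ⟨m', by omega, Or.inr ?_⟩
      rw [dw_full M s t h0, hm', dw_succ_right]
      have h3 : (if Even m' then t else s) = a := by
        rw [h1, hm']
        by_cases he : Even m'
        · rw [if_pos he, if_neg (by simpa [parity_simps] using he)]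
        · rw [if_neg he, if_pos (by simpa [parity_simps] using he)]
      rw [h3, a4_mul_simple]
  · cases n with
    | zero =>
      rw [if_pos (by decide : Even 0)] at h1
      have h2 : a = t := ha.resolve_left h1
      refine ⟨1, by omega, Or.inr ?_⟩
      rw [h2]
      simp [dw, SPH.altProd]
    | succ n =>
      refine ⟨n, by omega, Or.inl ?_⟩
      have h3 : (if Even n then s else t) = a := by
        by_cases he : Even n
        · rw [if_neg (by simpa [parity_simps] using he)] at h1
          rw [if_pos he]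
          exact (ha.resolve_right h1).symm
        · rw [if_pos (by simpa [parity_simps] using he)] at h1
          rw [if_neg he]
          exact (ha.resolve_left h1).symm
      rw [dw_succ_right, h3, a4_mul_simple]

private lemma DS_mul (s t : S) (h0 : M s t ≠ 0) (d : M.Group) (hd : DS M s t d)
    (a : S) (ha : a = s ∨ a = t) : DS M s t (d * M.simple a) := by
  obtain ⟨n, hn, rfl | rfl⟩ := hd
  · exact DS_mul_aux M s t h0 n hn a ha
  · refine DS_symm M (DS_mul_aux M t s (by rwa [M.symmetric]) n (by rwa [M.symmetric]) a ha.symm)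

private lemma DS_sign (s t : S) (hst : s ≠ t) (d : M.Group) (hd : DS M s t d) (a : S)
    (ha : a = s ∨ a = t) :
    Cone2 s t (gg M d (ee a)) ∨ Cone2 s t (-(gg M d (ee a))) := by
  obtain ⟨n, hn, rfl | rfl⟩ := hd
  · exact dw_sign M s t hst n hn a ha
  · have h1 := dw_sign M t s hst.symm n (by rwa [M.symmetric]) a ha.symm
    have h2 : ∀ v : S →₀ ℝ, Cone2 t s v → Cone2 s t v := by
      rintro v ⟨x, y, hx, hy, h⟩
      exact ⟨y, x, hy, hx, by rw [h, add_comm]⟩
    exact h1.imp (h2 _) (h2 _)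

/-- The elements of the dihedral subgroup change two coordinates only. -/
private lemma dw_coord : ∀ (n : ℕ) (s t : S) (v : S →₀ ℝ) (b : S), b ≠ s → b ≠ t →
    (gg M (dw M s t n) v) b = v b
  | 0, s, t, v, b, _, _ => by
      have h1 : dw M s t 0 = 1 := rfl
      rw [h1, a4_one]
  | n + 1, s, t, v, b, hs, ht => by
      rw [dw_succ_left, a4_mul]
      have h1 : gg M (M.simple s) (gg M (dw M t s n) v) = sig M s (gg M (dw M t s n) v) := by
        have h2 : gg M (M.simple s) = sig M s := gr_simple M.toCoxeterSystem s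
        rw [h2]
      rw [h1, sig_apply, Finsupp.sub_apply, Finsupp.smul_apply]
      have h3 : (ee s : S →₀ ℝ) b = 0 := Finsupp.single_eq_of_ne hs
      rw [h3, smul_zero, sub_zero]
      exact dw_coord n t s v b ht hs

private lemma DS_coord (s t : S) (d : M.Group) (hd : DS M s t d) (v : S →₀ ℝ) (b : S)
    (hs : b ≠ s) (ht : b ≠ t) : (gg M d v) b = v b := by
  obtain ⟨n, hn, rfl | rfl⟩ := hd
  · exact dw_coord M n s t v b hs ht
  · exact dw_coord M n t s v b ht hs

/-- The minimal representative. -/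
private lemma min_mem_XC (s t : S) (hst : s ≠ t) (w d : M.Group) (hd : DS M s t d)
    (hws : 0 < hgt (gg M w (ee s))) (hwt : 0 < hgt (gg M w (ee t))) (hx : w * d ∈ XC M j) :
    w ∈ XC M j := by
  intro c
  have h1 := hx c
  rw [mul_inv_rev, a4_mul] at h1
  set β : S →₀ ℝ := gg M w⁻¹ (ee (j c)) with hβ
  have hβr : β ∈ roots M.toCoxeterSystem := a4_root M _ _
  have hdβr : gg M d⁻¹ β ∈ roots M.toCoxeterSystem := gr_mem_roots hβr _
  rcases lt_or_gt_of_ne (hgt_ne_zero hβr) with h2 | h2
  · exfalso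
    have h3 : Nonneg (gg M d⁻¹ β) := nonneg_of_hgt_pos hdβr h1
    have h4 : Nonneg (-β) := by
      obtain ⟨x, i, hxi⟩ := hβr
      rcases nonneg_or M.toCoxeterSystem x i with h5 | h5
      · exfalso
        rw [← hxi] at h5
        have := hgt_nonneg h5
        linarith
      · rwa [← hxi] at h5
    have h5 : ∀ b, b ≠ s → b ≠ t → β b = 0 := by
      intro b hs ht
      have h6 := DS_coord M s t d hd (gg M d⁻¹ β) b hs ht
      rw [a4_self_inv] at h6
      have h7 := h3 b
      have h8 := h4 b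
      rw [Finsupp.neg_apply] at h8
      linarith
    have h6 : β = β s • ee s + β t • ee t := by
      ext b
      rw [Finsupp.add_apply, Finsupp.smul_apply, Finsupp.smul_apply]
      by_cases hs : b = s
      · subst hs
        have h7 : (ee b : S →₀ ℝ) b = 1 := by simp [ee]
        have h8 : (ee t : S →₀ ℝ) b = 0 := Finsupp.single_eq_of_ne hst
        rw [h7, h8]
        simp
      · by_cases ht : b = t
        · subst ht
          have h7 : (ee b : S →₀ ℝ) b = 1 := by simp [ee]
          have h8 : (ee s : S →₀ ℝ) b = 0 := Finsupp.single_eq_of_ne hs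
          rw [h7, h8]
          simp
        · have h7 : (ee s : S →₀ ℝ) b = 0 := Finsupp.single_eq_of_ne hs
          have h8 : (ee t : S →₀ ℝ) b = 0 := Finsupp.single_eq_of_ne ht
          rw [h7, h8, h5 b hs ht]
          simp
    have h7 : gg M w β = ee (j c) := by rw [hβ, a4_self_inv]
    rw [h6, map_add, map_smul, map_smul] at h7
    have h8 := congrArg hgt h7
    rw [map_add, map_smul, map_smul, hgt_ee, smul_eq_mul, smul_eq_mul] at h8
    have h9 := h4 s
    have h10 := h4 t
    rw [Finsupp.neg_apply] at h9 h10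
    nlinarith
  · exact h2

/-- Elements of the form `w d` with `d` in the cone of the first root are not in `XC`. -/
private lemma not_XC_of (s t : S) (hst : s ≠ t) (w : M.Group) (c : S')
    (hc : gg M w (ee s) = ee (j c)) (n : ℕ) (h0 : 0 < n) (hn : n ≤ M s t) :
    w * dw M s t n ∉ XC M j := by
  intro hx
  have h1 := hx c
  obtain ⟨n', rfl⟩ : ∃ n', n = n' + 1 := ⟨n - 1, by omega⟩
  rw [mul_inv_rev, a4_mul, ← hc, a4_inv_self, dw_succ_left, mul_inv_rev, a4_simple_inv, a4_mul,
    a4_simple_ee, map_neg, map_neg] at h1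
  obtain ⟨x, y, hx0, hy0, h2⟩ := dw_inv M t s hst.symm n' (by rw [M.symmetric]; omega)
  rw [h2, map_add, map_smul, map_smul, hgt_ee, hgt_ee, smul_eq_mul, smul_eq_mul] at h1
  linarith

/-- No wall at all. -/
private lemma nonwall0 (s t : S) (hst : s ≠ t) (w : M.Group)
    (hws : 0 < hgt (gg M w (ee s))) (hwt : 0 < hgt (gg M w (ee t)))
    (h1 : ¬ ∃ c, gg M w (ee s) = ee (j c)) (h2 : ¬ ∃ c, gg M w (ee t) = ee (j c))
    (d : M.Group) (hd : DS M s t d) (a : S) (ha : a = s ∨ a = t) :
    ¬ ∃ c, gg M (w * d) (ee a) = ee (j c) := by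
  rintro ⟨c, hc⟩
  rw [a4_mul] at hc
  rcases DS_sign M s t hst d hd a ha with ⟨x, y, hx, hy, h⟩ | ⟨x, y, hx, hy, h⟩
  · rw [h, map_add, map_smul, map_smul] at hc
    obtain ⟨h3, h4⟩ := extremal M _ _ (a4_root M w s) (a4_root M w t) hws hwt x y hx hy (j c) hc
    have h5 : x = 0 := h3.resolve_right fun h => h1 ⟨c, h⟩
    have h6 : y = 0 := h4.resolve_right fun h => h2 ⟨c, h⟩
    rw [h5, h6, zero_smul, zero_smul, add_zero] at hc
    have h7 := congrArg hgt hc
    rw [map_zero, hgt_ee] at h7
    norm_num at h7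
  · have h3 : gg M d (ee a) = -(x • ee s + y • ee t) := by rw [← h, neg_neg]
    rw [h3, map_neg, map_add, map_smul, map_smul] at hc
    have h7 := congrArg hgt hc
    rw [map_neg, map_add, map_smul, map_smul, hgt_ee, smul_eq_mul, smul_eq_mul] at h7
    nlinarith [mul_nonneg hx hws.le, mul_nonneg hy hwt.le]

private lemma alt0 (s t : S) (hst : s ≠ t) (h0 : M s t ≠ 0) (w : M.Group)
    (hws : 0 < hgt (gg M w (ee s))) (hwt : 0 < hgt (gg M w (ee t)))
    (h1 : ¬ ∃ c, gg M w (ee s) = ee (j c)) (h2 : ¬ ∃ c, gg M w (ee t) = ee (j c)) :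
    ∀ (i : ℕ) (a b : S), (a = s ∨ a = t) → (b = s ∨ b = t) → ∀ (p : B × XC M j),
      (∃ d, DS M s t d ∧ p.2.1 = w * d) →
        (alt2 (stp M j ψ a) (stp M j ψ b) i p).1 = p.1 ∧
        (alt2 (stp M j ψ a) (stp M j ψ b) i p).2.1 =
          p.2.1 * SPH.altProd (M.simple a) (M.simple b) i
  | 0, a, b, _, _, p, _ => by
      refine ⟨rfl, ?_⟩
      change p.2.1 = p.2.1 * 1
      rw [mul_one]
  | i + 1, a, b, ha, hb, p, ⟨d, hd, hp⟩ => by
      have h3 : ¬ ∃ c, gg M p.2.1 (ee a) = ee (j c) := by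
        rw [hp]
        exact nonwall0 M j s t hst w hws hwt h1 h2 d hd a ha
      have h4 : alt2 (stp M j ψ a) (stp M j ψ b) (i + 1) p =
          alt2 (stp M j ψ b) (stp M j ψ a) i (stp M j ψ a p) := rfl
      rw [h4, stp_neg M j ψ a p h3]
      obtain ⟨h5, h6⟩ := alt0 s t hst h0 w hws hwt h1 h2 i b a hb ha
        (p.1, ⟨p.2.1 * M.simple a, XC_mul M j p.2.1 p.2.2 a h3⟩)
        ⟨d * M.simple a, DS_mul M s t h0 d hd a ha, by
          change p.2.1 * M.simple a = _
          rw [hp, mul_assoc]⟩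
      refine ⟨h5, ?_⟩
      rw [h6]
      change p.2.1 * M.simple a * _ = p.2.1 * (M.simple a * _)
      rw [mul_assoc]

private lemma alt_walls (w : M.Group) (hw : w ∈ XC M j) :
    ∀ (i : ℕ) (f g : B × XC M j → B × XC M j) (u v : B),
      (∀ b, f (b, ⟨w, hw⟩) = (b * u, ⟨w, hw⟩)) → (∀ b, g (b, ⟨w, hw⟩) = (b * v, ⟨w, hw⟩)) →
      ∀ b, alt2 f g i (b, ⟨w, hw⟩) = (b * SPH.altProd u v i, ⟨w, hw⟩)
  | 0, f, g, u, v, _, _, b => by
      change (b, _) = (b * 1, _)
      rw [mul_one]
  | i + 1, f, g, u, v, hf, hg, b => by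
      have h4 : alt2 f g (i + 1) (b, (⟨w, hw⟩ : XC M j)) = alt2 g f i (f (b, ⟨w, hw⟩)) := rfl
      rw [h4, hf, alt_walls w hw i g f v u hg hf (b * u)]
      change (b * u * _, _) = (b * (u * _), _)
      rw [mul_assoc]

/-- The case of one wall. -/
private lemma case1 (hj : Function.Injective j) (s t : S) (hst : s ≠ t) (h0 : M s t ≠ 0)
    (w : M.Group) (hw : w ∈ XC M j)
    (hws : 0 < hgt (gg M w (ee s))) (hwt : 0 < hgt (gg M w (ee t))) (c : S')
    (hc : gg M w (ee s) = ee (j c)) (h2 : ¬ ∃ c, gg M w (ee t) = ee (j c))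
    (p : B × XC M j) (n : ℕ) (hn : n ≤ M s t)
    (hp : p.2.1 = w * dw M s t n ∨ p.2.1 = w * dw M t s n) :
    alt2 (stp M j ψ s) (stp M j ψ t) (M s t) p = alt2 (stp M j ψ t) (stp M j ψ s) (M s t) p := by
  have hm1 : M s t ≠ 1 := M.off_diagonal s t hst
  obtain ⟨m', hm'⟩ : ∃ m', M s t = m' + 1 := ⟨M s t - 1, by omega⟩
  -- the element is on the path
  have hpath : ∃ n, n < M s t ∧ p.2.1 = w * dw M t s n := by
    rcases hp with hp | hp
    · rcases Nat.eq_zero_or_pos n with hn0 | hn0
      · subst hn0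
        exact ⟨0, by omega, hp⟩
      · exfalso
        have := p.2.2
        rw [hp] at this
        exact not_XC_of M j s t hst w c hc n hn0 hn this
    · rcases Nat.lt_or_ge n (M s t) with h3 | h3
      · exact ⟨n, h3, hp⟩
      · exfalso
        obtain rfl : n = M s t := le_antisymm hn h3
        have := p.2.2
        rw [hp, ← dw_full M s t h0] at this
        exact not_XC_of M j s t hst w c hc _ (by omega) le_rfl this
  -- no wall in the direction up
  have hup : ∀ n, n + 1 < M s t →
      ¬ ∃ c, gg M (w * dw M t s n) (ee (if Even n then t else s)) = ee (j c) := by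
    rintro n hn ⟨c', hc'⟩
    rw [a4_mul] at hc'
    obtain ⟨x, y, hx, hy, h⟩ := dw_next M t s hst.symm n (by rw [M.symmetric]; omega)
    rw [h, map_add, map_smul, map_smul] at hc'
    obtain ⟨h3, h4⟩ := extremal M _ _ (a4_root M w t) (a4_root M w s) hwt hws x y hx hy _ hc'
    have h5 : x = 0 := h3.resolve_right fun h => h2 ⟨c', h⟩
    rw [h5, zero_smul, zero_add, hc] at hc'
    have h6 := congrArg hgt hc'
    rw [map_smul, hgt_ee, hgt_ee, smul_eq_mul, mul_one] at h6
    rw [h5, zero_smul, zero_add, h6, one_smul] at h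
    have h7 := simple_conj M _ _ _ h
    have h8 : dw M t s (n + 1) = dw M s t (n + 1) := by
      rw [dw_succ_left M s t, ← h7, dw_succ_right]
      group
    exact dw_ne M s t hst (n + 1) (by omega) hn h8.symm
  -- the path
  have hmem : ∀ n, n < M s t → w * dw M t s n ∈ XC M j := by
    intro n
    induction n with
    | zero =>
      intro _
      have h3 : dw M t s 0 = 1 := rfl
      rw [h3, mul_one]
      exact hw
    | succ n ih =>
      intro hn
      have h3 := XC_mul M j _ (ih (by omega)) _ (hup n hn)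
      rwa [mul_assoc, ← dw_succ_right] at h3
  obtain ⟨n0, hn0, hp0⟩ := hpath
  set F : ℕ → B × XC M j := fun n =>
    if h : n < M s t then (p.1, ⟨w * dw M t s n, hmem n h⟩) else p with hF
  set G : ℕ → B × XC M j := fun n =>
    if h : n < M s t then (p.1 * ψ c, ⟨w * dw M t s n, hmem n h⟩) else p with hG
  have hFn : ∀ n (h : n < M s t), F n = (p.1, ⟨w * dw M t s n, hmem n h⟩) :=
    fun n h => dif_pos h
  have hGn : ∀ n (h : n < M s t), G n = (p.1 * ψ c, ⟨w * dw M t s n, hmem n h⟩) :=
    fun n h => dif_pos h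
  have hstep : ∀ n, hu (stp M j ψ s) (stp M j ψ t) n =
      stp M j ψ (if Even n then t else s) := by
    intro n
    unfold hu
    split_ifs <;> rfl
  have hstepd : ∀ n, kd (stp M j ψ s) (stp M j ψ t) (n + 1) =
      stp M j ψ (if Even n then t else s) := by
    intro n
    rw [kd_succ, hstep]
  have hU : ∀ (b : B) n (h : n + 1 < M s t), stp M j ψ (if Even n then t else s)
      (b, ⟨w * dw M t s n, hmem n (by omega)⟩) = (b, ⟨w * dw M t s (n + 1), hmem (n + 1) h⟩) := by
    intro b n h
    rw [stp_neg M j ψ _ (b, ⟨w * dw M t s n, hmem n (by omega)⟩) (hup n h)]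
    refine Prod.ext rfl (Subtype.ext ?_)
    change w * dw M t s n * M.simple (if Even n then t else s) = _
    rw [mul_assoc, ← dw_succ_right]
  have hD : ∀ (b : B) n (h : n + 1 < M s t), stp M j ψ (if Even n then t else s)
      (b, ⟨w * dw M t s (n + 1), hmem (n + 1) h⟩) = (b, ⟨w * dw M t s n, hmem n (by omega)⟩) := by
    intro b n h
    have h3 : w * dw M t s (n + 1) = w * dw M t s n * M.simple (if Even n then t else s) := by
      rw [mul_assoc, ← dw_succ_right]
    have h4 : ¬ ∃ c, gg M (w * dw M t s (n + 1)) (ee (if Even n then t else s)) = ee (j c) := by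
      rw [h3]
      exact a4_nonwall M j _ (hmem n (by omega)) _
    rw [stp_neg M j ψ _ (b, ⟨w * dw M t s (n + 1), hmem (n + 1) h⟩) h4]
    refine Prod.ext rfl (Subtype.ext ?_)
    change w * dw M t s (n + 1) * M.simple (if Even n then t else s) = _
    rw [h3, a4_mul_simple]
  have hpF : p = F n0 := by
    rw [hFn n0 hn0]
    exact Prod.ext rfl (Subtype.ext hp0)
  rw [hpF]
  refine path_main (G := G) (F := F) m' hm' ?_ ?_ ?_ ?_ ?_ ?_ n0 hn0
  · intro n h
    rw [hstep, hFn n (by omega), hFn (n + 1) h, hU p.1 n h]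
  · intro n h
    rw [hstep, hGn n (by omega), hGn (n + 1) h, hU (p.1 * ψ c) n h]
  · intro n h
    rw [hstepd, hFn n (by omega), hFn (n + 1) h, hD p.1 n h]
  · intro n h
    rw [hstepd, hGn n (by omega), hGn (n + 1) h, hD (p.1 * ψ c) n h]
  · have h3 : kd (stp M j ψ s) (stp M j ψ t) 0 = stp M j ψ s := if_pos (by decide)
    rw [h3, hFn 0 (by omega), hGn 0 (by omega)]
    refine stp_wall M j ψ hj s _ c ?_
    change gg M (w * dw M t s 0) (ee s) = _
    have h4 : dw M t s 0 = 1 := rfl
    rw [h4, mul_one, hc]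
  · rw [hstep, hFn m' (by omega), hGn m' (by omega)]
    refine stp_wall M j ψ hj _ _ c ?_
    change gg M (w * dw M t s m') (ee _) = _
    rw [a4_mul, dw_last M t s hst.symm m' (by rw [M.symmetric]; omega), hc]

/-- The braid relation for the action of Charney and Paris. -/
theorem stp_braid (hj : Function.Injective j) (hM : ∀ a b, M (j a) (j b) = M' a b)
    (hψ : ∀ a b, M' a b ≠ 0 →
      SPH.altProd (ψ a) (ψ b) (M' a b) = SPH.altProd (ψ b) (ψ a) (M' a b))
    (s t : S) (hst : M s t ≠ 0) (p : B × XC M j) :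
    alt2 (stp M j ψ s) (stp M j ψ t) (M s t) p = alt2 (stp M j ψ t) (stp M j ψ s) (M s t) p := by
  by_cases hst' : s = t
  · subst hst'
    rfl
  obtain ⟨w, n, hn, hws, hwt, hx⟩ := exists_min M s t hst' hst p.2.1
  have hd : ∃ d, DS M s t d ∧ p.2.1 = w * d := by
    rcases hx with hx | hx
    · exact ⟨_, ⟨n, hn, Or.inl rfl⟩, hx⟩
    · exact ⟨_, ⟨n, hn, Or.inr rfl⟩, hx⟩
  have hw : w ∈ XC M j := by
    obtain ⟨d, hd, hpd⟩ := hd
    refine min_mem_XC M j s t hst' w d hd hws hwt ?_
    rw [← hpd]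
    exact p.2.2
  by_cases h1 : ∃ c, gg M w (ee s) = ee (j c)
  · by_cases h2 : ∃ c, gg M w (ee t) = ee (j c)
    · obtain ⟨c, hc⟩ := h1
      obtain ⟨c', hc'⟩ := h2
      have hpw : p.2.1 = w := by
        rcases Nat.eq_zero_or_pos n with hn0 | hn0
        · subst hn0
          rcases hx with hx | hx
          · rw [hx]
            exact mul_one w
          · rw [hx]
            exact mul_one w
        · exfalso
          have h3 := p.2.2
          rcases hx with hx | hx
          · rw [hx] at h3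
            exact not_XC_of M j s t hst' w c hc n hn0 hn h3
          · rw [hx] at h3
            exact not_XC_of M j t s (Ne.symm hst') w c' hc' n hn0 (by rwa [M.symmetric]) h3
      have hmm : M' c c' = M s t := by
        rw [← hM]
        have h3 := simple_conj M w s (j c) hc
        have h4 := simple_conj M w t (j c') hc'
        have h5 : orderOf (M.simple (j c) * M.simple (j c')) = M (j c) (j c') :=
          orderOf_simple_mul (cs := M.toCoxeterSystem) (j c) (j c')
        have h6 : orderOf (M.simple s * M.simple t) = M s t :=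
          orderOf_simple_mul (cs := M.toCoxeterSystem) s t
        rw [← h5, ← h6, ← h3, ← h4]
        have h7 : w * M.simple s * w⁻¹ * (w * M.simple t * w⁻¹) =
            MulAut.conj w (M.simple s * M.simple t) := by
          rw [MulAut.conj_apply]
          group
        rw [h7]
        exact MulEquiv.orderOf_eq (MulAut.conj w) _
      have hp : p = (p.1, ⟨w, hw⟩) := Prod.ext rfl (Subtype.ext hpw)
      have hs : ∀ b : B, stp M j ψ s (b, ⟨w, hw⟩) = (b * ψ c, ⟨w, hw⟩) :=
        fun b => stp_wall M j ψ hj s (b, ⟨w, hw⟩) c hc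
      have ht : ∀ b : B, stp M j ψ t (b, ⟨w, hw⟩) = (b * ψ c', ⟨w, hw⟩) :=
        fun b => stp_wall M j ψ hj t (b, ⟨w, hw⟩) c' hc'
      rw [hp, alt_walls M j w hw _ _ _ (ψ c) (ψ c') hs ht,
        alt_walls M j w hw _ _ _ (ψ c') (ψ c) ht hs]
      have h8 := hψ c c' (by rw [hmm]; exact hst)
      rw [hmm] at h8
      rw [h8]
    · obtain ⟨c, hc⟩ := h1
      exact case1 M j ψ hj s t hst' hst w hw hws hwt c hc h2 p n hn hx
  · by_cases h2 : ∃ c, gg M w (ee t) = ee (j c)
    · obtain ⟨c, hc⟩ := h2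
      have h3 := case1 M j ψ hj t s (Ne.symm hst') (by rwa [M.symmetric]) w hw hwt hws c hc h1 p n
        (by rwa [M.symmetric]) hx.symm
      rw [M.symmetric] at h3
      exact h3.symm
    · obtain ⟨h3, h4⟩ := alt0 M j ψ s t hst' hst w hws hwt h1 h2 (M s t) s t (Or.inl rfl)
        (Or.inr rfl) p hd
      obtain ⟨h5, h6⟩ := alt0 M j ψ s t hst' hst w hws hwt h1 h2 (M s t) t s (Or.inr rfl)
        (Or.inl rfl) p hd
      refine Prod.ext (h3.trans h5.symm) (Subtype.ext ?_)
      rw [h4, h6, simple_braid M s t hst]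

end Pool.Agent.Lib.MP_7b9603_alCF
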