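import Pool.Agent.Lib.MP_7b9603_alCF.A4

/-!
# A5: the retraction of Charney and Paris
-/

set_option autoImplicit false

namespace Pool.Agent.Lib.MP_7b9603_alCF

open Pool.Agent.Lib.MP_2f4918_al

universe u

section aux

variable {S' S : Type u}

private theorem a5_induction {M : CoxeterMatrix S} {P : SPH.ArtinGroup M → Prop} (h1 : P 1)
    (hg : ∀ s, P (SPH.agen M s)) (hm : ∀ a b, P a → P b → P (a * b))
    (hi : ∀ a, P a → P a⁻¹) (g : SPH.ArtinGroup M) : P g := by
  have hgen : g ∈ Subgroup.closure (Set.range (SPH.agen M)) := by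
    have h : Subgroup.closure (Set.range (SPH.agen M)) = ⊤ := PresentedGroup.closure_range_of _
    rw [h]
    trivial
  induction hgen using Subgroup.closure_induction with
  | mem x hx =>
    obtain ⟨s, rfl⟩ := hx
    exact hg s
  | one => exact h1
  | mul a b _ _ ha hb => exact hm a b ha hb
  | inv a _ ha => exact hi a ha

/-- The embedding of the root spaces. -/
private noncomputable def a5_E (j : S' → S) : (S' →₀ ℝ) →ₗ[ℝ] (S →₀ ℝ) := Finsupp.lmapDomain ℝ ℝ j

private theorem a5_E_ee (j : S' → S) (a : S') : a5_E j (ee a) = ee (j a) := by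
  simp [a5_E, ee]

private theorem a5_gform (M' : CoxeterMatrix S') (M : CoxeterMatrix S) (j : S' → S)
    (hM : ∀ a b, M (j a) (j b) = M' a b) (a : S') (v : S' →₀ ℝ) :
    gform M (ee (j a)) (a5_E j v) = gform M' (ee a) v := by
  induction v using Finsupp.induction_linear with
  | zero => simp
  | add u v hu hv => rw [map_add, map_add, map_add, hu, hv]
  | single b r =>
    have h : (Finsupp.single b r : S' →₀ ℝ) = r • ee b := by simp [ee]
    rw [h, map_smul, map_smul, map_smul, a5_E_ee, gform_ee, gform_ee]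
    unfold kk
    rw [hM]

private theorem a5_sig (M' : CoxeterMatrix S') (M : CoxeterMatrix S) (j : S' → S)
    (hM : ∀ a b, M (j a) (j b) = M' a b) (a : S') (v : S' →₀ ℝ) :
    sig M (j a) (a5_E j v) = a5_E j (sig M' a v) := by
  rw [sig_apply, sig_apply, a5_gform M' M j hM, map_sub, map_smul, a5_E_ee]

private theorem a5_gg (M' : CoxeterMatrix S') (M : CoxeterMatrix S) (j : S' → S)
    (hM : ∀ a b, M (j a) (j b) = M' a b) (w : M'.Group) (v : S' →₀ ℝ) :
    gg M (incW M' M j hM w) (a5_E j v) = a5_E j (gg M' w v) := by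
  induction w using M'.toCoxeterSystem.simple_induction_left generalizing v with
  | one =>
    rw [map_one]
    exact (gr_one _ _).trans (congrArg (a5_E j) (gr_one _ _).symm)
  | mul_simple_left w i ih =>
    have h1 : incW M' M j hM (M'.toCoxeterSystem.simple i * w) =
        M.toCoxeterSystem.simple (j i) * incW M' M j hM w := by
      rw [map_mul]
      exact congrArg (· * incW M' M j hM w) (incW_simple M' M j hM i)
    rw [h1]
    show gr M.toCoxeterSystem _ _ = a5_E j (gr M'.toCoxeterSystem _ _)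
    rw [gr_mul, gr_mul, gr_simple, gr_simple, ← a5_sig M' M j hM]
    exact congrArg (sig M (j i)) (ih v)

private theorem a5_hgt (j : S' → S) (v : S' →₀ ℝ) : hgt (a5_E j v) = hgt v := by
  induction v using Finsupp.induction_linear with
  | zero => simp
  | add u v hu hv => rw [map_add, map_add, map_add, hu, hv]
  | single b r =>
    have h : (Finsupp.single b r : S' →₀ ℝ) = r • ee b := by simp [ee]
    rw [h, map_smul, map_smul, map_smul, a5_E_ee, hgt_ee, hgt_ee]

private theorem a5_alt {X : Type*} (f g : Equiv.Perm X) (n : ℕ) (x : X) :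
    (SPH.altProd (MulOpposite.op f) (MulOpposite.op g) n).unop x = alt2 f g n x := by
  induction n generalizing f g x with
  | zero => rfl
  | succ n ih =>
    rw [SPH.altProd, MulOpposite.unop_mul, MulOpposite.unop_op, Equiv.Perm.mul_apply, ih]
    rfl

end aux

section act

variable {S' S : Type u} (M' : CoxeterMatrix S') (M : CoxeterMatrix S) (j : S' → S)
  (hj : Function.Injective j) (hM : ∀ a b, M (j a) (j b) = M' a b)
  {B : Type u} [Group B] (ψ : S' → B)
  (hψ : ∀ a b, M' a b ≠ 0 → SPH.altProd (ψ a) (ψ b) (M' a b) = SPH.altProd (ψ b) (ψ a) (M' a b))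

/-- The right action of the Artin group. -/
private noncomputable def a5_act : SPH.ArtinGroup M →* (Equiv.Perm (B × XC M j))ᵐᵒᵖ :=
  SPH.ArtinGroup.lift M
    (fun s => MulOpposite.op (Equiv.ofBijective _ (stp_bijective M j ψ s))) (fun s t hst => by
      apply MulOpposite.unop_injective
      apply Equiv.ext
      intro p
      rw [a5_alt, a5_alt]
      exact stp_braid M' M j ψ hj hM hψ s t hst p)

private theorem a5_act_gen (s : S) (p : B × XC M j) :
    (a5_act M' M j hj hM ψ hψ (SPH.agen M s)).unop p = stp M j ψ s p := by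
  rw [a5_act, SPH.ArtinGroup.lift_agen]
  rfl

private theorem a5_act_mul (g h : SPH.ArtinGroup M) (p : B × XC M j) :
    (a5_act M' M j hj hM ψ hψ (g * h)).unop p =
      (a5_act M' M j hj hM ψ hψ h).unop ((a5_act M' M j hj hM ψ hψ g).unop p) := by
  rw [map_mul]
  rfl

private theorem a5_act_one (p : B × XC M j) :
    (a5_act M' M j hj hM ψ hψ 1).unop p = p := by
  rw [map_one]
  rfl

private theorem a5_act_inv (g : SPH.ArtinGroup M) (p q : B × XC M j)
    (h : (a5_act M' M j hj hM ψ hψ g).unop p = q) :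
    (a5_act M' M j hj hM ψ hψ g⁻¹).unop q = p := by
  rw [← h, ← a5_act_mul, mul_inv_cancel, a5_act_one]

private theorem a5_act_inv' (g : SPH.ArtinGroup M) (p : B × XC M j) :
    (a5_act M' M j hj hM ψ hψ g).unop ((a5_act M' M j hj hM ψ hψ g⁻¹).unop p) = p := by
  rw [← a5_act_mul, inv_mul_cancel, a5_act_one]

/-- The action commutes with the left multiplications. -/
private theorem a5_left (b : B) (g : SPH.ArtinGroup M) : ∀ p : B × XC M j,
    (a5_act M' M j hj hM ψ hψ g).unop (b * p.1, p.2) =
      (b * ((a5_act M' M j hj hM ψ hψ g).unop p).1,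
        ((a5_act M' M j hj hM ψ hψ g).unop p).2) := by
  refine a5_induction (P := fun g => ∀ p : B × XC M j,
    (a5_act M' M j hj hM ψ hψ g).unop (b * p.1, p.2) =
      (b * ((a5_act M' M j hj hM ψ hψ g).unop p).1,
        ((a5_act M' M j hj hM ψ hψ g).unop p).2)) ?_ ?_ ?_ ?_ g
  · intro p
    rw [a5_act_one, a5_act_one]
  · rintro s ⟨a, x⟩
    rw [a5_act_gen, a5_act_gen]
    by_cases h : ∃ c, gg M x.1 (ee s) = ee (j c)
    · obtain ⟨c, hc⟩ := h
      rw [stp_wall M j ψ hj s (a, x) c hc, stp_wall M j ψ hj s (b * a, x) c hc]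
      simp only [mul_assoc]
    · simp only [stp]
      rw [dif_neg h, dif_neg h]
  · intro g h hg hh p
    rw [a5_act_mul, a5_act_mul, hg p]
    exact hh _
  · intro g hg p
    refine a5_act_inv M' M j hj hM ψ hψ g _ _ ?_
    rw [hg, a5_act_inv']

/-- The equivariant map to the Coxeter group. -/
private theorem a5_equiv (φ : B →* SPH.ArtinGroup M') (hφ : ∀ c, φ (ψ c) = SPH.agen M' c)
    (g : SPH.ArtinGroup M) : ∀ p : B × XC M j,
    incW M' M j hM (coxA M' (φ ((a5_act M' M j hj hM ψ hψ g).unop p).1)) *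
      ((a5_act M' M j hj hM ψ hψ g).unop p).2.1 =
      incW M' M j hM (coxA M' (φ p.1)) * p.2.1 * coxA M g := by
  refine a5_induction (P := fun g => ∀ p : B × XC M j,
    incW M' M j hM (coxA M' (φ ((a5_act M' M j hj hM ψ hψ g).unop p).1)) *
      ((a5_act M' M j hj hM ψ hψ g).unop p).2.1 =
      incW M' M j hM (coxA M' (φ p.1)) * p.2.1 * coxA M g) ?_ ?_ ?_ ?_ g
  · intro p
    rw [a5_act_one, map_one, mul_one]
  · rintro s ⟨a, x⟩
    rw [a5_act_gen, coxA_agen]
    by_cases h : ∃ c, gg M x.1 (ee s) = ee (j c)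
    · obtain ⟨c, hc⟩ := h
      rw [stp_wall M j ψ hj s (a, x) c hc]
      show incW M' M j hM (coxA M' (φ (a * ψ c))) * x.1 =
        incW M' M j hM (coxA M' (φ a)) * x.1 * M.simple s
      rw [map_mul, hφ, map_mul, coxA_agen, map_mul, incW_simple, ← simple_conj M x.1 s (j c) hc]
      group
    · simp only [stp]
      rw [dif_neg h]
      show incW M' M j hM (coxA M' (φ a)) * (x.1 * M.simple s) =
        incW M' M j hM (coxA M' (φ a)) * x.1 * M.simple s
      rw [mul_assoc]
  · intro g h hg hh p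
    rw [a5_act_mul, hh, hg, map_mul, mul_assoc]
  · intro g hg p
    have h1 := hg ((a5_act M' M j hj hM ψ hψ g⁻¹).unop p)
    rw [a5_act_inv'] at h1
    rw [h1, map_inv (coxA M), mul_inv_cancel_right]

end act

section main

variable {S' S : Type u} (M' : CoxeterMatrix S') (M : CoxeterMatrix S) (j : S' → S)

/-- An element of the parabolic subgroup which is a minimal representative is trivial. -/
private theorem a5_min (hM : ∀ a b, M (j a) (j b) = M' a b) (y : M'.Group)
    (h : incW M' M j hM y ∈ XC M j) : y = 1 := by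
  by_contra hy
  have hy' : y⁻¹ ≠ 1 := fun h => hy (inv_eq_one.1 h)
  obtain ⟨c, hc⟩ := M'.toCoxeterSystem.exists_rightDescent_of_ne_one hy'
  have h1 := (nonneg_iff M'.toCoxeterSystem y⁻¹ c).2 hc
  have h2 := hgt_nonneg h1
  rw [map_neg] at h2
  have h3 := h c
  rw [← map_inv, ← a5_E_ee, a5_gg M' M j hM, a5_hgt] at h3
  have h4 : 0 ≤ -hgt (gg M' y⁻¹ (ee c)) := h2
  linarith

variable (hj : Function.Injective j) (hM : ∀ a b, M (j a) (j b) = M' a b)

/-- The action for the parabolic Artin group itself. -/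
private noncomputable def a5_ac (g : SPH.ArtinGroup M) (p : SPH.ArtinGroup M' × XC M j) :
    SPH.ArtinGroup M' × XC M j :=
  (a5_act M' M j hj hM (SPH.agen M') (SPH.agen_rel M') g).unop p

/-- The base point. -/
private def a5_pt : XC M j := ⟨1, one_mem_XC M j⟩

private theorem a5_inc (g : SPH.ArtinGroup M') : ∀ b : SPH.ArtinGroup M',
    a5_ac M' M j hj hM (incA M' M j hM g) (b, a5_pt M j) = (b * g, a5_pt M j) := by
  refine a5_induction (P := fun g => ∀ b : SPH.ArtinGroup M',
    a5_ac M' M j hj hM (incA M' M j hM g) (b, a5_pt M j) = (b * g, a5_pt M j)) ?_ ?_ ?_ ?_ g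
  · intro b
    rw [map_one, mul_one]
    exact a5_act_one M' M j hj hM _ _ _
  · intro c b
    rw [incA_agen]
    refine (a5_act_gen M' M j hj hM _ _ _ _).trans ?_
    exact stp_wall M j (SPH.agen M') hj (j c) (b, a5_pt M j) c (gr_one _ _)
  · intro g h hg hh b
    rw [map_mul]
    refine (a5_act_mul M' M j hj hM _ _ _ _ _).trans ?_
    have h1 := hg b
    have h2 := hh (b * g)
    unfold a5_ac at h1 h2
    rw [h1, h2, mul_assoc]
  · intro g hg b
    rw [map_inv]
    refine a5_act_inv M' M j hj hM _ _ _ _ _ ?_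
    have h1 := hg (b * g⁻¹)
    unfold a5_ac at h1
    rw [h1, inv_mul_cancel_right]

private theorem a5_pure (g : SPH.ArtinGroup M) (hg : g ∈ PA M) :
    ∃ c : SPH.ArtinGroup M', c ∈ PA M' ∧ ∀ b : SPH.ArtinGroup M',
      a5_ac M' M j hj hM g (b, a5_pt M j) = (b * c, a5_pt M j) := by
  set q := a5_ac M' M j hj hM g (1, a5_pt M j) with hq
  have h1 := a5_equiv M' M j hj hM (SPH.agen M') (SPH.agen_rel M') (MonoidHom.id _)
    (fun _ => rfl) g (1, a5_pt M j)
  have h2 : incW M' M j hM (coxA M' q.1) * q.2.1 = 1 := by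
    refine Eq.trans h1 ?_
    rw [mem_PA.1 hg]
    show incW M' M j hM (coxA M' 1) * 1 * 1 = 1
    rw [map_one, map_one, mul_one, mul_one]
  have h3 : q.2.1 = incW M' M j hM (coxA M' q.1)⁻¹ := by
    rw [map_inv]
    exact eq_inv_of_mul_eq_one_right h2
  have h4 : (coxA M' q.1)⁻¹ = 1 := by
    refine a5_min M' M j hM _ ?_
    rw [← h3]
    exact q.2.2
  have h5 : coxA M' q.1 = 1 := inv_eq_one.1 h4
  have h6 : q.2 = a5_pt M j := by
    apply Subtype.ext
    rw [h3, h4, map_one]
    rfl
  refine ⟨q.1, h5, fun b => ?_⟩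
  have h7 := a5_left M' M j hj hM (SPH.agen M') (SPH.agen_rel M') b g (1, a5_pt M j)
  have h8 : a5_ac M' M j hj hM g (b * 1, a5_pt M j) = (b * q.1, q.2) := h7
  rw [mul_one] at h8
  rw [h8, h6]

/-- The pure Artin group retracts onto the pure Artin groups of the standard parabolic
subgroups. -/
theorem exists_retract (hj : Function.Injective j) (hM : ∀ a b, M (j a) (j b) = M' a b) :
    ∃ r : PA M →* PA M', ∀ (g : SPH.ArtinGroup M') (hg : g ∈ PA M')
      (hg' : incA M' M j hM g ∈ PA M), r ⟨incA M' M j hM g, hg'⟩ = ⟨g, hg⟩ := by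
  choose r hr using fun g : PA M => a5_pure M' M j hj hM g.1 g.2
  have huniq : ∀ (g : PA M) (c : SPH.ArtinGroup M'),
      a5_ac M' M j hj hM g.1 (1, a5_pt M j) = (c, a5_pt M j) → r g = c := by
    intro g c hc
    have h := (hr g).2 1
    rw [hc, one_mul] at h
    exact (congrArg Prod.fst h).symm
  refine ⟨{ toFun := fun g => ⟨r g, (hr g).1⟩, map_one' := ?_, map_mul' := ?_ }, ?_⟩
  · apply Subtype.ext
    refine huniq 1 1 ?_
    exact a5_act_one M' M j hj hM _ _ _
  · intro g h
    apply Subtype.ext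
    refine huniq (g * h) (r g * r h) ?_
    refine (a5_act_mul M' M j hj hM _ _ _ _ _).trans ?_
    have h1 := (hr g).2 1
    have h2 := (hr h).2 (r g)
    unfold a5_ac at h1 h2
    rw [h1, one_mul, h2]
  · intro g hg hg'
    apply Subtype.ext
    refine huniq ⟨_, hg'⟩ g ?_
    have h := a5_inc M' M j hj hM g 1
    rw [one_mul] at h
    exact h

/-- The natural homomorphism from a standard parabolic subgroup is injective. -/
theorem incA_injective (hj : Function.Injective j) (hM : ∀ a b, M (j a) (j b) = M' a b) :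
    Function.Injective (incA M' M j hM) := by
  intro g h hgh
  have h1 := a5_inc M' M j hj hM g 1
  have h2 := a5_inc M' M j hj hM h 1
  rw [hgh, h2, one_mul, one_mul] at h1
  exact (congrArg Prod.fst h1).symm

end main

end Pool.Agent.Lib.MP_7b9603_alCF
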