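import Pool.Agent.Lib.MP_7b9603_alCF.A7

/-!
# A6: the h-adic data of a spherical Artin group
-/

set_option autoImplicit false

namespace Pool.Agent.Lib.MP_7b9603_alCF

open SPH

universe u

private theorem a6_of {S : Type u} [Fintype S] [DecidableEq S] {G : SimpleGraph S} (hG : PosDef G)
    [Fintype (PRoot G)] (D : TData G) {A : Type u}
    [Group A] (φ : A →* AGrp G)
    (hφ : Function.Injective ((lkRep hG D xU tU : AGrp G →* _).comp φ)) (N : Subgroup A)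
    (hN : ∀ g, toW G (φ g) = 1 ↔ g ∈ N) :
    ∃ (𝓜 : Type u) (_ : Ring 𝓜) (H : HRing 𝓜) (ρ : A →* 𝓜ˣ) (k0 : ℕ),
      1 ≤ k0 ∧ Function.Injective ρ ∧
      (∀ g ∈ N, ∃ y, ((ρ g : 𝓜ˣ) : 𝓜) = 1 + H.h * y) ∧
      (∀ g, (∃ y, ((ρ g : 𝓜ˣ) : 𝓜) = 1 + H.h * y) → g ∈ N) ∧
      (∀ g, g ∉ N → ∀ p : ℕ, p.Prime → g ^ p ∈ N →
        ¬ ∃ y, ((ρ (g ^ p) : 𝓜ˣ) : 𝓜) = 1 + H.h ^ k0 * y) := by
  have hfin := finite_range_toW hG
  let B : ℕ := Nat.card (toW G).range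
  have hB : 0 < B := Nat.card_pos
  let J : Type := {p : ℕ // p.Prime ∧ p ≤ B + 2}
  have hJfin : Finite J := (Set.finite_le_nat (B + 2)).subset
    (fun p (hp : p.Prime ∧ p ≤ B + 2) => hp.2) |>.to_subtype
  let j2 : J := ⟨2, Nat.prime_two, by omega⟩
  have hJne : Nonempty J := ⟨j2⟩
  have hfact : ∀ p : J, Fact p.1.Prime := fun p => ⟨p.2.1⟩
  have hcf : ∀ p : J, Finite (Conf G (ZMod p.1)) := fun p => m1_finite_conf hG _
  have hcf' : ∀ p : J, Fintype (Conf G (ZMod p.1)) := fun p => Fintype.ofFinite _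
  let M : J → Type u := fun p => Module.End (PowerSeries ℤ)
    (Conf G (ZMod p.1) → ZMod p.1 → PowerSeries ℤ)
  let H0 : HRing (Module.End (PowerSeries ℤ) (PRoot G → PowerSeries ℤ)) :=
    HRing.ofBasis (Pi.basisFun (PowerSeries ℤ) (PRoot G))
  let Hp : ∀ p : J, HRing (M p) := fun p =>
    HRing.ofBasis (Pi.basis fun _ : Conf G (ZMod p.1) => Pi.basisFun (PowerSeries ℤ) (ZMod p.1))
  let H := HRing.prod H0 (HRing.pi M Hp)
  let ρ0 : AGrp G →* (Module.End (PowerSeries ℤ) (PRoot G → PowerSeries ℤ) × ∀ p, M p)ˣ :=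
    (MulEquiv.prodUnits.symm.toMonoidHom).comp
      ((lkRep hG D xU tU).prod (MulEquiv.piUnits.symm.toMonoidHom.comp
        (MonoidHom.pi fun p : J => buRep G hG tU (ZMod p.1))))
  have hρ1 : ∀ g, (ρ0 g).val.1 = (lkRep hG D xU tU g).val := fun g => rfl
  have hρ2 : ∀ g (p : J), (ρ0 g).val.2 p = (buRep G hG tU (ZMod p.1) g).val := fun g p => rfl
  refine ⟨_, _, H, ρ0.comp φ, B + 2, by omega, ?_, ?_, ?_, ?_⟩
  · -- injectivity
    intro a b hab
    apply hφ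
    have h1 : ρ0 (φ a) = ρ0 (φ b) := hab
    apply Units.ext
    change (lkRep hG D xU tU (φ a)).val = (lkRep hG D xU tU (φ b)).val
    rw [← hρ1, ← hρ1, h1]
  · -- pure elements
    intro g hg
    have hg1 : toW G (φ g) = 1 := (hN g).2 hg
    obtain ⟨Y0, hY0⟩ := lkRep_mod hG D (φ g) hg1
    choose Y hY using fun p : J => m1_bu_mod hG (φ g) hg1 (ZMod p.1)
    refine ⟨(Y0, Y), Prod.ext ?_ (funext fun p => ?_)⟩
    · change (ρ0 (φ g)).val.1 = 1 + H0.h * Y0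
      rw [hρ1, hY0, m1_ofBasis_h_mul]
    · change (ρ0 (φ g)).val.2 p = 1 + (Hp p).h * Y p
      rw [hρ2, hY, m1_ofBasis_h_mul]
  · -- detection
    rintro g ⟨y, hy⟩
    rw [← hN]
    have h1 : (ρ0 (φ g)).val.2 j2 = 1 + (Hp j2).h * y.2 j2 :=
      congrFun (congrArg Prod.snd hy) j2
    rw [hρ2, m1_ofBasis_h_mul] at h1
    exact m1_toW_of_bu hG (φ g) _ h1
  · -- no torsion
    rintro g hg p hp hgp ⟨y, hy⟩
    rw [← hN] at hg hgp
    have h1 : toW G (φ g) ≠ 1 := hg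
    have h2 : toW G (φ g) ^ p = 1 := by
      rwa [map_pow, map_pow] at hgp
    have hpB : p ≤ B := by
      have h3 : orderOf (⟨toW G (φ g), ⟨φ g, rfl⟩⟩ : (toW G).range) = p := by
        have := Fact.mk hp
        apply orderOf_eq_prime
        · exact Subtype.ext h2
        · intro h
          exact h1 (congrArg Subtype.val h)
      have h4 := orderOf_dvd_natCard (⟨toW G (φ g), ⟨φ g, rfl⟩⟩ : (toW G).range)
      rw [h3] at h4
      exact Nat.le_of_dvd hB h4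
    let j : J := ⟨p, hp, by omega⟩
    have := Fact.mk hp
    have h5 : (ρ0 (φ (g ^ p))).val.2 j = 1 + (Hp j).h ^ (B + 2) * y.2 j :=
      congrFun (congrArg Prod.snd hy) j
    rw [hρ2, HRing.ofBasis_h_pow, map_pow] at h5
    exact no_torsion G hG p (φ g) h1 h2 (B + 2) (by omega) ⟨_, h5⟩

/-- The h-adic data of a spherical Artin group. -/
theorem exists_hdata {S : Type u} [Fintype S] (M : CoxeterMatrix S) (h : Finite M.Group) :
    ∃ (𝓜 : Type u) (_ : Ring 𝓜) (H : HRing 𝓜) (ρ : ArtinGroup M →* 𝓜ˣ) (k0 : ℕ),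
      1 ≤ k0 ∧ Function.Injective ρ ∧
      (∀ g ∈ PA M, ∃ y, ((ρ g : 𝓜ˣ) : 𝓜) = 1 + H.h * y) ∧
      (∀ g, (∃ y, ((ρ g : 𝓜ˣ) : 𝓜) = 1 + H.h * y) → g ∈ PA M) ∧
      (∀ g, g ∉ PA M → ∀ p : ℕ, p.Prime → g ^ p ∈ PA M →
        ¬ ∃ y, ((ρ (g ^ p) : 𝓜ˣ) : 𝓜) = 1 + H.h ^ k0 * y) := by
  classical
  have hc := cform_pos M h
  have hG := unf_posDef M hc
  have hM := ne_zero_of_cform_pos M hc
  have hfin : Finite (PRoot (unf M)) := by
    have := finite_root hG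
    exact (this.subset fun v (hv : IsPos (unf M) v) => hv.1).to_subtype
  have := Fintype.ofFinite (PRoot (unf M))
  obtain ⟨D⟩ := exists_TData hG
  exact a6_of hG D (unfHom M hG) (lkRep_unfHom_injective M hG D hM) (PA M)
    (toW_unfHom_iff M hM hG)

end Pool.Agent.Lib.MP_7b9603_alCF
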