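import Pool.Agent.Lib.MP_7b9603_al.SphericalUniv
import Pool.Agent.Lib.MP_7b9603_alCF.A1

/-!
# A7: the kernel of the homomorphism to the Weyl group of the unfolding
-/

set_option autoImplicit false

namespace Pool.Agent.Lib.MP_7b9603_alCF

open Pool.Agent.Lib.MP_2f4918_al SPH

open scoped Classical

universe u

private lemma a7_alt {G : Type*} [Group G] {x y : G} (hx : x * x = 1) (hy : y * y = 1) (m : ℕ) :
    altProd x y m * (altProd y x m)⁻¹ = (x * y) ^ m := by
  have hx' : x⁻¹ = x := inv_eq_of_mul_eq_one_left hx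
  have hy' : y⁻¹ = y := inv_eq_of_mul_eq_one_left hy
  induction m with
  | zero => simp [altProd]
  | succ m ih =>
    have h1 : altProd y x m * (altProd x y m)⁻¹ = (y * x) ^ m := by
      have h2 := congrArg (fun z => z⁻¹) ih
      simp only [mul_inv_rev, inv_inv, ← inv_pow, hx', hy'] at h2
      exact h2
    calc altProd x y (m + 1) * (altProd y x (m + 1))⁻¹
        = x * altProd y x m * (y * altProd x y m)⁻¹ := rfl
      _ = x * (altProd y x m * (altProd x y m)⁻¹) * y⁻¹ := by
          rw [mul_inv_rev, ← mul_assoc, mul_assoc x]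
      _ = x * (y * x) ^ m * y := by rw [h1, hy']
      _ = (x * y) ^ (m + 1) := by rw [← mul_pow_mul, mul_assoc, pow_succ]

section

variable {S : Type u} [Fintype S] (M : CoxeterMatrix S)

private lemma a7_lift (hM : ∀ s t, M s t ≠ 0) (hG : PosDef (unf M)) :
    M.IsLiftable (fun s => toW (unf M) (bgen M s)) := by
  intro s t
  have hs : ∀ s, toW (unf M) (bgen M s) * toW (unf M) (bgen M s) = 1 := fun s =>
    inv_eq_iff_mul_eq_one.1 (toW_bgen_inv M s)
  rw [← a7_alt (hs s) (hs t), ← su_map_altProd, ← su_map_altProd,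
    bgen_rel M hG s t (hM s t), mul_inv_cancel]

/-- The action of the Coxeter group on the root lattice of the unfolded diagram. -/
private noncomputable def a7_psi (hM : ∀ s t, M s t ≠ 0) (hG : PosDef (unf M)) :
    M.Group →* ((S × UI M → ℤ) ≃ₗ[ℤ] (S × UI M → ℤ)) :=
  M.toCoxeterSystem.lift ⟨fun s => toW (unf M) (bgen M s), a7_lift M hM hG⟩

private lemma a7_psi_simple (hM : ∀ s t, M s t ≠ 0) (hG : PosDef (unf M)) (s : S) :
    a7_psi M hM hG (M.simple s) = toW (unf M) (bgen M s) := by
  have h := M.toCoxeterSystem.lift_apply_simple (a7_lift M hM hG) s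
  rw [M.toCoxeterSystem_simple] at h
  exact h

private lemma a7_psi_coxA (hM : ∀ s t, M s t ≠ 0) (hG : PosDef (unf M)) (g : ArtinGroup M) :
    a7_psi M hM hG (coxA M g) = toW (unf M) (unfHom M hG g) := by
  have h : (a7_psi M hM hG).comp (coxA M) = (toW (unf M)).comp (unfHom M hG) := by
    refine artin_hom_ext fun s => ?_
    rw [MonoidHom.comp_apply, MonoidHom.comp_apply, coxA_agen, a7_psi_simple, unfHom,
      ArtinGroup.lift_agen]
  exact DFunLike.congr_fun h g

private lemma a7_word (w : M.Group) : ∃ l : List S, w = coxA M (aw M l) := by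
  obtain ⟨l, hl⟩ := M.toCoxeterSystem.wordProd_surjective w
  refine ⟨l, ?_⟩
  rw [← hl]
  clear hl
  induction l with
  | nil => rw [aw_nil, map_one]; rfl
  | cons s l ih =>
    rw [aw_cons, map_mul, coxA_agen, ← ih, CoxeterSystem.wordProd_cons,
      M.toCoxeterSystem_simple]

private lemma a7_step [Fintype (PRoot (unf M))] (hG : PosDef (unf M)) (D : TData (unf M))
    (hM : ∀ s t, M s t ≠ 0) (s : S) (v : List S) (hv : MRed M v) :
    (∃ v' : List S, MRed M v' ∧ aw M v = agen M s * aw M v') ∨ MRed M (s :: v) := by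
  by_cases hcase : ∃ i, IsPos (unf M) (-(toW (unf M) (wd (unf M) (bw M v))⁻¹ (sr (s, i))))
  · obtain ⟨i, hi⟩ := hcase
    obtain ⟨⟨v', h1, _, h3⟩, _⟩ := all_or_none M hG D hM v hv s i hi
    exact Or.inl ⟨v', h1, h3⟩
  · push Not at hcase
    have hpos : ∀ j, IsPos (unf M) (toW (unf M) (wd (unf M) (bw M v))⁻¹ (sr (s, j))) := by
      intro j
      rcases IsRoot.pos_or_neg hG
        (isRoot_toW (unf M) (wd (unf M) (bw M v))⁻¹ (isRoot_sr (unf M) (s, j))) with h | h
      · exact h
      · exact absurd h (hcase j)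
    refine Or.inr ?_
    have := block_reduced M hG s (bw M v) hv hpos
    unfold MRed
    rw [bw_cons]
    exact this

private lemma a7_red [Fintype (PRoot (unf M))] (hG : PosDef (unf M)) (D : TData (unf M))
    (hM : ∀ s t, M s t ≠ 0) (l : List S) :
    ∃ l', MRed M l' ∧ coxA M (aw M l') = coxA M (aw M l) := by
  induction l with
  | nil =>
    refine ⟨[], ?_, rfl⟩
    unfold MRed
    have h0 : (bw M []).length = 0 := by rw [bw_length]; simp
    have := lenN_wd_le hG (bw M [])
    omega
  | cons s l ih =>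
    obtain ⟨v, hv, hvw⟩ := ih
    rcases a7_step M hG D hM s v hv with ⟨v', h1, h3⟩ | h1
    · refine ⟨v', h1, ?_⟩
      rw [aw_cons, map_mul, ← hvw, h3, map_mul, ← mul_assoc, coxA_agen]
      have h4 : M.simple s * M.simple s = 1 := by
        have := M.toCoxeterSystem.simple_mul_simple_self s
        rwa [M.toCoxeterSystem_simple] at this
      rw [h4, one_mul]
    · refine ⟨s :: v, h1, ?_⟩
      rw [aw_cons, aw_cons, map_mul, map_mul, hvw]

end

/-- The Coxeter group of `M` acts faithfully on the roots of the unfolded diagram. -/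
theorem toW_unfHom_iff {S : Type u} [Fintype S] (M : CoxeterMatrix S) (hM : ∀ s t, M s t ≠ 0)
    (hG : PosDef (unf M)) (g : ArtinGroup M) :
    toW (unf M) (unfHom M hG g) = 1 ↔ g ∈ PA M := by
  rw [mem_PA]
  constructor
  · intro hg
    have : Finite (PRoot (unf M)) :=
      ((finite_root hG).subset fun v hv => (hv : IsPos (unf M) v).1).to_subtype
    have : Fintype (PRoot (unf M)) := Fintype.ofFinite _
    obtain ⟨D⟩ := exists_TData hG
    obtain ⟨l, hl⟩ := a7_word M (coxA M g)
    obtain ⟨l', hred, hl'⟩ := a7_red M hG D hM l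
    have h1 : toW (unf M) (wd (unf M) (bw M l')) = 1 := by
      rw [← unfHom_aw M hG, ← a7_psi_coxA M hM hG, hl', ← hl, a7_psi_coxA M hM hG, hg]
    have h2 : lenN (unf M) (wd (unf M) (bw M l')) = 0 := by
      rw [← weyl_lenN_one (G := unf M)]
      unfold lenN
      rw [map_inv, map_inv, h1, map_one]
    have h3 : (bw M l').length = 0 := by rw [← h2]; exact hred.symm
    rw [bw_length] at h3
    have hcard : 0 < Fintype.card (UI M) :=
      Fintype.card_pos_iff.2 ⟨fun _ => ⟨0, by omega⟩⟩
    have h4 : l'.length = 0 := by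
      rcases Nat.mul_eq_zero.1 h3 with h | h
      · exact h
      · omega
    rw [List.length_eq_zero_iff.1 h4, aw_nil, map_one] at hl'
    rw [hl, ← hl']
  · intro hg
    rw [← a7_psi_coxA M hM hG, hg, map_one]

end Pool.Agent.Lib.MP_7b9603_alCF
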