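import Mathlib

/-!
# E2: ultraproducts of division rings
-/

set_option autoImplicit false

namespace Pool.Agent.Lib.MP_7b9603_alCF

universe u

section

variable (D : ℕ → Type u) [∀ k, DivisionRing (D k)]

/-- The ideal of the sequences vanishing on a set of the ultrafilter. -/
def upIdeal : Ideal (∀ k, D k) where
  carrier := {x | ∀ᶠ k in (Filter.hyperfilter ℕ : Filter ℕ), x k = 0}
  add_mem' := by
    intro a b ha hb
    filter_upwards [ha, hb] with k h1 h2
    rw [Pi.add_apply, h1, h2, add_zero]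
  zero_mem' := Filter.Eventually.of_forall fun _ => rfl
  smul_mem' := by
    intro c x hx
    filter_upwards [hx] with k h1
    rw [smul_eq_mul, Pi.mul_apply, h1, mul_zero]

instance : (upIdeal D).IsTwoSided := ⟨by
  intro a b ha
  change ∀ᶠ k in (Filter.hyperfilter ℕ : Filter ℕ), (a * b) k = 0
  have ha' : ∀ᶠ k in (Filter.hyperfilter ℕ : Filter ℕ), a k = 0 := ha
  filter_upwards [ha'] with k h1
  rw [Pi.mul_apply, h1, zero_mul]⟩

/-- The ultraproduct. -/
def UP : Type u := (∀ k, D k) ⧸ upIdeal D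

noncomputable instance : Ring (UP D) := inferInstanceAs (Ring ((∀ k, D k) ⧸ upIdeal D))

/-- The class of a sequence. -/
noncomputable def UP.mk : (∀ k, D k) →+* UP D := Ideal.Quotient.mk (upIdeal D)

theorem UP.mk_surjective : Function.Surjective (UP.mk D) := Ideal.Quotient.mk_surjective

theorem UP.mk_eq_zero_iff (x : ∀ k, D k) :
    UP.mk D x = 0 ↔ ∀ᶠ k in (Filter.hyperfilter ℕ : Filter ℕ), x k = 0 :=
  Ideal.Quotient.eq_zero_iff_mem

instance : Nontrivial (UP D) := by
  refine ⟨⟨UP.mk D 1, 0, ?_⟩⟩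
  intro h
  rw [UP.mk_eq_zero_iff] at h
  have h2 : ∀ᶠ k in (Filter.hyperfilter ℕ : Filter ℕ), False := by
    filter_upwards [h] with k hk
    exact one_ne_zero hk
  obtain ⟨_, h3⟩ := h2.exists
  exact h3

theorem UP.isUnit_or (x : UP D) : IsUnit x ∨ x = 0 := by
  obtain ⟨x, rfl⟩ := UP.mk_surjective D x
  by_cases h : UP.mk D x = 0
  · exact Or.inr h
  left
  have h1 : ∀ᶠ k in (Filter.hyperfilter ℕ : Filter ℕ), x k ≠ 0 := by
    rw [UP.mk_eq_zero_iff] at h
    exact (Ultrafilter.eventually_not (f := Filter.hyperfilter ℕ)).2 h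
  have h2 : ∀ y y' : (∀ k, D k), (∀ᶠ k in (Filter.hyperfilter ℕ : Filter ℕ), y k = y' k) →
      UP.mk D y = UP.mk D y' := by
    intro y y' h
    rw [← sub_eq_zero, ← map_sub, UP.mk_eq_zero_iff]
    filter_upwards [h] with k hk
    rw [Pi.sub_apply, hk, sub_self]
  refine ⟨⟨UP.mk D x, UP.mk D (fun k => (x k)⁻¹), ?_, ?_⟩, rfl⟩
  · rw [← map_mul, ← map_one (UP.mk D)]
    apply h2
    filter_upwards [h1] with k hk
    exact mul_inv_cancel₀ hk
  · rw [← map_mul, ← map_one (UP.mk D)]
    apply h2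
    filter_upwards [h1] with k hk
    exact inv_mul_cancel₀ hk

noncomputable instance : DivisionRing (UP D) := DivisionRing.ofIsUnitOrEqZero (UP.isUnit_or D)

variable {D} {D' : ℕ → Type u} [∀ k, DivisionRing (D' k)] {D'' : ℕ → Type u}
  [∀ k, DivisionRing (D'' k)]

/-- Functoriality. -/
noncomputable def UP.map (f : ∀ k, D k →+* D' k) : UP D →+* UP D' :=
  Ideal.Quotient.lift (upIdeal D) ((UP.mk D').comp (RingHom.pi fun k => (f k).comp
    (Pi.evalRingHom D k))) (by
      intro x hx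
      have hx' : ∀ᶠ k in (Filter.hyperfilter ℕ : Filter ℕ), x k = 0 := hx
      rw [RingHom.comp_apply, UP.mk_eq_zero_iff]
      filter_upwards [hx'] with k hk
      change f k (x k) = 0
      rw [hk, map_zero])

theorem UP.map_mk (f : ∀ k, D k →+* D' k) (x : ∀ k, D k) :
    UP.map f (UP.mk D x) = UP.mk D' (fun k => f k (x k)) := rfl

theorem UP.map_map (f : ∀ k, D k →+* D' k) (g : ∀ k, D' k →+* D'' k) (x : UP D) :
    UP.map g (UP.map f x) = UP.map (fun k => (g k).comp (f k)) x := by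
  obtain ⟨x, rfl⟩ := UP.mk_surjective D x
  rfl

end

end Pool.Agent.Lib.MP_7b9603_alCF
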