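import Pool.Agent.Lib.MP_7b9603_alCF.E1
import Pool.Agent.Lib.MP_7b9603_alCF.E2

/-!
# E3: groups with a filtration by Ore quotients, the division ring `Flt.E`
-/

set_option autoImplicit false

namespace Pool.Agent.Lib.MP_7b9603_alCF

universe u

/-- A descending sequence of quotients `q k : G → Q k` with `K[Q k]` a noetherian domain. -/
structure Flt (K : Type u) [Field K] (G : Type u) [Group G] where
  Q : ℕ → Type u
  grp : ∀ k, Group (Q k)
  q : ∀ k, G →* Q k
  surj : ∀ k, Function.Surjective (q k)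
  anti : ∀ k l, k ≤ l → ∀ g, q l g = 1 → q k g = 1
  dom : ∀ k, NoZeroDivisors (MonoidAlgebra K (Q k))
  noeth : ∀ k, IsNoetherianRing (MonoidAlgebra K (Q k))

attribute [instance] Flt.grp Flt.dom Flt.noeth

namespace Flt

variable {K : Type u} [Field K] {G : Type u} [Group G] {G' : Type u} [Group G']
  {G'' : Type u} [Group G'']

/-- The division ring. -/
def E (F : Flt K G) : Type u := UP (fun k => Fr (MonoidAlgebra K (F.Q k)))

noncomputable instance (F : Flt K G) : DivisionRing F.E :=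
  inferInstanceAs (DivisionRing (UP (fun k => Fr (MonoidAlgebra K (F.Q k)))))

/-- The homomorphism from the group algebra. -/
noncomputable def of (F : Flt K G) : MonoidAlgebra K G →+* F.E :=
  (UP.mk (fun k => Fr (MonoidAlgebra K (F.Q k)))).comp (RingHom.pi fun k =>
    (Fr.of (MonoidAlgebra K (F.Q k))).comp (MonoidAlgebra.mapDomainRingHom K (F.q k)))

theorem exists_qmap (F : Flt K G) (F' : Flt K G') (f : G →* G')
    (hf : ∀ k g, F'.q k (f g) = 1 ↔ F.q k g = 1) (k : ℕ) :
    ∃ φ : F.Q k →* F'.Q k, Function.Injective φ ∧ ∀ g, φ (F.q k g) = F'.q k (f g) := by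
  have hk : (F.q k).ker ≤ ((F'.q k).comp f).ker := fun g hg => by
    rw [MonoidHom.mem_ker] at hg ⊢
    rw [MonoidHom.comp_apply]
    exact (hf k g).2 hg
  let φ : F.Q k →* F'.Q k := (F.q k).liftOfSurjective (F.surj k) ⟨(F'.q k).comp f, hk⟩
  have hφ : ∀ g, φ (F.q k g) = F'.q k (f g) := fun g =>
    MonoidHom.liftOfRightInverse_comp_apply (F.q k) _ (Function.rightInverse_surjInv (F.surj k))
      ⟨(F'.q k).comp f, hk⟩ g
  refine ⟨φ, ?_, hφ⟩
  rw [injective_iff_map_eq_one]
  intro x hx
  obtain ⟨g, rfl⟩ := F.surj k x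
  rw [hφ] at hx
  exact (hf k g).1 hx

theorem mapDomain_injective {A B : Type u} [Group A] [Group B] (φ : A →* B)
    (h : Function.Injective φ) : Function.Injective (MonoidAlgebra.mapDomainRingHom K φ) :=
  MonoidAlgebra.mapDomain_injective h

/-- Functoriality. -/
noncomputable def map (F : Flt K G) (F' : Flt K G') (f : G →* G')
    (hf : ∀ k g, F'.q k (f g) = 1 ↔ F.q k g = 1) : F.E →+* F'.E :=
  UP.map fun k => Fr.map (MonoidAlgebra.mapDomainRingHom K (exists_qmap F F' f hf k).choose)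
    (mapDomain_injective _ (exists_qmap F F' f hf k).choose_spec.1)

theorem map_of (F : Flt K G) (F' : Flt K G') (f : G →* G')
    (hf : ∀ k g, F'.q k (f g) = 1 ↔ F.q k g = 1) (x : MonoidAlgebra K G) :
    map F F' f hf (F.of x) = F'.of (MonoidAlgebra.mapDomainRingHom K f x) := by
  change UP.mk _ _ = UP.mk _ _
  congr 1
  funext k
  change Fr.map _ _ (Fr.of _ (MonoidAlgebra.mapDomainRingHom K (F.q k) x)) =
    Fr.of _ (MonoidAlgebra.mapDomainRingHom K (F'.q k) (MonoidAlgebra.mapDomainRingHom K f x))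
  have h : (MonoidAlgebra.mapDomainRingHom K (exists_qmap F F' f hf k).choose).comp
      (MonoidAlgebra.mapDomainRingHom K (F.q k)) =
      (MonoidAlgebra.mapDomainRingHom K (F'.q k)).comp (MonoidAlgebra.mapDomainRingHom K f) := by
    rw [← MonoidAlgebra.mapDomainRingHom_comp, ← MonoidAlgebra.mapDomainRingHom_comp]
    congr 1
    ext g
    exact (exists_qmap F F' f hf k).choose_spec.2 g
  rw [Fr.map_of]
  exact congrArg (Fr.of (MonoidAlgebra K (F'.Q k))) (RingHom.congr_fun h x)

theorem map_map (F : Flt K G) (F' : Flt K G') (F'' : Flt K G'') (f : G →* G')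
    (hf : ∀ k g, F'.q k (f g) = 1 ↔ F.q k g = 1) (f' : G' →* G'')
    (hf' : ∀ k g, F''.q k (f' g) = 1 ↔ F'.q k g = 1)
    (hf'' : ∀ k g, F''.q k ((f'.comp f) g) = 1 ↔ F.q k g = 1) (x : F.E) :
    map F' F'' f' hf' (map F F' f hf x) = map F F'' (f'.comp f) hf'' x := by
  have h : ∀ k, (Fr.map (MonoidAlgebra.mapDomainRingHom K (exists_qmap F' F'' f' hf' k).choose)
      (mapDomain_injective _ (exists_qmap F' F'' f' hf' k).choose_spec.1)).comp
      (Fr.map (MonoidAlgebra.mapDomainRingHom K (exists_qmap F F' f hf k).choose)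
      (mapDomain_injective _ (exists_qmap F F' f hf k).choose_spec.1)) =
      Fr.map (MonoidAlgebra.mapDomainRingHom K (exists_qmap F F'' (f'.comp f) hf'' k).choose)
      (mapDomain_injective _ (exists_qmap F F'' (f'.comp f) hf'' k).choose_spec.1) := by
    intro k
    refine Fr.hom_ext fun r => ?_
    have h1 : (MonoidAlgebra.mapDomainRingHom K (exists_qmap F' F'' f' hf' k).choose).comp
        (MonoidAlgebra.mapDomainRingHom K (exists_qmap F F' f hf k).choose) =
        MonoidAlgebra.mapDomainRingHom K (exists_qmap F F'' (f'.comp f) hf'' k).choose := by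
      rw [← MonoidAlgebra.mapDomainRingHom_comp]
      congr 1
      ext x
      obtain ⟨g, rfl⟩ := F.surj k x
      rw [MonoidHom.comp_apply, (exists_qmap F F' f hf k).choose_spec.2,
        (exists_qmap F' F'' f' hf' k).choose_spec.2,
        (exists_qmap F F'' (f'.comp f) hf'' k).choose_spec.2, MonoidHom.comp_apply]
    rw [RingHom.comp_apply, Fr.map_of, Fr.map_of, Fr.map_of]
    exact congrArg (Fr.of (MonoidAlgebra K (F''.Q k))) (RingHom.congr_fun h1 r)
  refine (UP.map_map _ _ x).trans ?_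
  exact congrArg (fun m : ∀ k, Fr (MonoidAlgebra K (F.Q k)) →+* Fr (MonoidAlgebra K (F''.Q k)) =>
    UP.map m x) (funext h)

theorem e3_core {A B : Type u} [Group A] [Group B] [NoZeroDivisors (MonoidAlgebra K A)]
    [IsNoetherianRing (MonoidAlgebra K A)] [NoZeroDivisors (MonoidAlgebra K B)]
    [IsNoetherianRing (MonoidAlgebra K B)] (φ : A →* B)
    (hφ : Function.Injective (MonoidAlgebra.mapDomainRingHom K φ)) (hφ' : Function.Injective φ)
    {ι : Type*} (s : Finset ι) (b : ι → B) (hsep : ∀ i ∈ s, ∀ j ∈ s, i ≠ j → ∀ c : A,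
      b i * (b j)⁻¹ ≠ φ c) (x : ι → Fr (MonoidAlgebra K A))
    (h : ∑ i ∈ s, Fr.map (MonoidAlgebra.mapDomainRingHom K φ) hφ (x i) *
      Fr.of (MonoidAlgebra K B) (MonoidAlgebra.single (b i) 1) = 0) : ∀ i ∈ s, x i = 0 := by
  classical
  obtain ⟨d, r, hd, hr⟩ := Fr.exists_denom s x
  have h1 : ∑ i ∈ s, (MonoidAlgebra.mapDomainRingHom K φ (r i)) * MonoidAlgebra.single (b i) 1 =
      0 := by
    apply Fr.of_injective (MonoidAlgebra K B)
    rw [map_sum, map_zero, ← mul_zero (Fr.of (MonoidAlgebra K B)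
      (MonoidAlgebra.mapDomainRingHom K φ d)), ← h, Finset.mul_sum]
    refine Finset.sum_congr rfl fun i hi => ?_
    rw [map_mul, ← Fr.map_of (MonoidAlgebra.mapDomainRingHom K φ) hφ, ← hr i hi, map_mul,
      Fr.map_of, mul_assoc]
  intro i hi
  have h2 : r i = 0 := by
    ext a
    have h3 := congrArg (fun z : MonoidAlgebra K B => z.coeff (φ a * b i)) h1
    simp only [MonoidAlgebra.coeff_sum, MonoidAlgebra.coeff_zero, Finsupp.coe_zero,
      Pi.zero_apply, Finsupp.coe_finsetSum, Finset.sum_apply] at h3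
    rw [Finset.sum_eq_single i] at h3
    · rw [MonoidAlgebra.coeff_mul_single_eq_coeff_mul (φ a) (by
        intro m' _
        exact mul_left_inj (b i))] at h3
      rw [mul_one] at h3
      have h4 : (MonoidAlgebra.mapDomainRingHom K φ (r i)).coeff (φ a) = (r i).coeff a :=
        Finsupp.mapDomain_apply hφ' _ a
      rw [h4] at h3
      rw [h3]
      rfl
    · intro j hj hji
      rw [MonoidAlgebra.coeff_mul_single_eq_coeff_mul (φ a * b i * (b j)⁻¹) (by
        intro m' _
        exact eq_mul_inv_iff_mul_eq.symm)]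
      have h5 : (MonoidAlgebra.mapDomainRingHom K φ (r j)).coeff (φ a * b i * (b j)⁻¹) = 0 := by
        apply Finsupp.mapDomain_of_notMem_range
        rintro ⟨c, hc⟩
        apply hsep i hi j hj (Ne.symm hji) (a⁻¹ * c)
        rw [map_mul, hc, map_inv]
        group
      rw [h5, zero_mul]
    · intro hni
      exact absurd hi hni
  have h6 := hr i hi
  rw [h2, map_zero] at h6
  exact (mul_eq_zero.1 h6).resolve_left (Fr.of_ne_zero hd)

/-- Left independence of right cosets over the division ring of a subgroup. -/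
theorem ind (F : Flt K G) (F' : Flt K G') (f : G →* G')
    (hf : ∀ k g, F'.q k (f g) = 1 ↔ F.q k g = 1)
    (hsep : ∀ g : G', (∀ k, ∃ c, F'.q k g = F'.q k (f c)) → g ∈ f.range)
    (s : Finset G') (e : G' → F.E)
    (hs : ∀ g ∈ s, ∀ g' ∈ s, g ≠ g' → g * g'⁻¹ ∉ f.range)
    (h : ∑ g ∈ s, map F F' f hf (e g) * F'.of (MonoidAlgebra.single g 1) = 0) :
    ∀ g ∈ s, e g = 0 := by
  classical
  choose x hx using fun g => UP.mk_surjective (fun k => Fr (MonoidAlgebra K (F.Q k))) (e g)
  have h1 : UP.mk (fun k => Fr (MonoidAlgebra K (F'.Q k))) (∑ g ∈ s, fun k =>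
      Fr.map (MonoidAlgebra.mapDomainRingHom K (exists_qmap F F' f hf k).choose)
        (mapDomain_injective _ (exists_qmap F F' f hf k).choose_spec.1) (x g k) *
      Fr.of (MonoidAlgebra K (F'.Q k)) (MonoidAlgebra.mapDomainRingHom K (F'.q k)
        (MonoidAlgebra.single g 1))) = 0 := by
    refine Eq.trans ?_ h
    rw [map_sum]
    refine Finset.sum_congr rfl fun g _ => ?_
    rw [← hx g]
    rfl
  rw [UP.mk_eq_zero_iff] at h1
  have h2 : ∀ᶠ k in (Filter.hyperfilter ℕ : Filter ℕ), ∀ g ∈ s, ∀ g' ∈ s, g ≠ g' → ∀ c : F.Q k,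
      F'.q k g * (F'.q k g')⁻¹ ≠ (exists_qmap F F' f hf k).choose c := by
    rw [Filter.eventually_all_finset]
    intro g hg
    rw [Filter.eventually_all_finset]
    intro g' hg'
    by_cases hgg : g = g'
    · exact Filter.Eventually.of_forall fun k hne => absurd hgg hne
    · have h3 : ∃ k, ∀ c, F'.q k (g * g'⁻¹) ≠ F'.q k (f c) := by
        by_contra hcon
        push Not at hcon
        exact hs g hg g' hg' hgg (hsep _ hcon)
      obtain ⟨k₀, hk₀⟩ := h3
      have h4 : ∀ᶠ k in (Filter.hyperfilter ℕ : Filter ℕ), k₀ ≤ k :=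
        Filter.Eventually.filter_mono (Nat.hyperfilter_le_atTop) (Filter.eventually_ge_atTop k₀)
      filter_upwards [h4] with k hk _ c hc
      obtain ⟨c, rfl⟩ := F.surj k c
      rw [(exists_qmap F F' f hf k).choose_spec.2] at hc
      apply hk₀ c
      have h5 : F'.q k (g * g'⁻¹ * (f c)⁻¹) = 1 := by
        rw [map_mul, map_mul, map_inv, map_inv, hc, mul_inv_cancel]
      have h6 := F'.anti k₀ k hk _ h5
      rw [map_mul, map_inv] at h6
      exact mul_inv_eq_one.1 h6
  intro g hg
  refine (hx g).symm.trans ((UP.mk_eq_zero_iff _ _).2 ?_)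
  filter_upwards [h1, h2] with k hk1 hk2
  have hk3 : ∑ g ∈ s, Fr.map (MonoidAlgebra.mapDomainRingHom K (exists_qmap F F' f hf k).choose)
        (mapDomain_injective _ (exists_qmap F F' f hf k).choose_spec.1) (x g k) *
      Fr.of (MonoidAlgebra K (F'.Q k)) (MonoidAlgebra.single (F'.q k g) 1) = 0 := by
    rw [← hk1, Finset.sum_apply]
    refine Finset.sum_congr rfl fun g _ => ?_
    rw [MonoidAlgebra.mapDomainRingHom_apply, MonoidAlgebra.mapDomain_single]
  exact e3_core _ _ (exists_qmap F F' f hf k).choose_spec.1 s (fun g => F'.q k g) hk2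
    (fun g => x g k) hk3 g hg

end Flt

end Pool.Agent.Lib.MP_7b9603_alCF
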