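import Pool.Agent.Lib.MP_7b9603_alCF.E4
import Pool.Agent.Lib.MP_7b9603_al.Assembly

/-!
# E5: the quotients by the rational dimension subgroups are central-poly-Z
-/

set_option autoImplicit false

namespace Pool.Agent.Lib.MP_7b9603_alCF

universe u

private theorem e5_gen {P : Type u} [Group P] (g : P) : MonoidAlgebra.of ℤ P g - 1 ∈ Aug P :=
  Submodule.subset_span ⟨g, rfl⟩

private theorem e5_ring1 {R : Type*} [Ring R] (a b : R) :
    a * b - b * a = (a - 1) * (b - 1) - (b - 1) * (a - 1) := by noncomm_ring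

private theorem e5_ring2 {R : Type*} [Ring R] (a b : R) :
    a * b - 1 - (a - 1 + (b - 1)) = (a - 1) * (b - 1) := by noncomm_ring

/-- The span of the `x - 1`, `x` in `S`. -/
private noncomputable def E5X {P : Type u} [Group P] (S : Set P) :
    Submodule ℤ (MonoidAlgebra ℤ P) :=
  Submodule.span ℤ ((fun g : P => MonoidAlgebra.of ℤ P g - 1) '' S)

private theorem e5_X_le {P : Type u} [Group P] (S : Set P) : E5X S ≤ Aug P := by
  refine Submodule.span_mono ?_
  rintro _ ⟨g, _, rfl⟩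
  exact ⟨g, rfl⟩

private theorem e5_right {P : Type u} [Group P] (S : Set P) (y z : MonoidAlgebra ℤ P)
    (hy : y ∈ E5X S * ⊤) : y * z ∈ E5X S * ⊤ := by
  induction hy using Submodule.mul_induction_on' with
  | mem_mul_mem m hm n _ =>
    rw [mul_assoc]
    exact Submodule.mul_mem_mul hm Submodule.mem_top
  | add a _ b _ ha hb => rw [add_mul]; exact Submodule.add_mem _ ha hb

private theorem e5_word {P : Type u} [Group P] (S : Set P) (hS : Subgroup.closure S = ⊤) (g : P) :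
    MonoidAlgebra.of ℤ P g - 1 ∈ E5X S * ⊤ := by
  have hg : g ∈ Subgroup.closure S := by rw [hS]; exact Subgroup.mem_top g
  induction hg using Subgroup.closure_induction with
  | mem x hx =>
    have h1 : (MonoidAlgebra.of ℤ P x - 1) * 1 ∈ E5X S * ⊤ :=
      Submodule.mul_mem_mul (Submodule.subset_span ⟨x, hx, rfl⟩) Submodule.mem_top
    rwa [mul_one] at h1
  | one => rw [map_one, sub_self]; exact Submodule.zero_mem _
  | mul a b _ _ ha hb =>
    have h1 : MonoidAlgebra.of ℤ P (a * b) - 1 =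
        (MonoidAlgebra.of ℤ P a - 1) * MonoidAlgebra.of ℤ P b + (MonoidAlgebra.of ℤ P b - 1) := by
      rw [map_mul]
      noncomm_ring
    rw [h1]
    exact Submodule.add_mem _ (e5_right S _ _ ha) hb
  | inv a _ ha =>
    have h2 : MonoidAlgebra.of ℤ P a * MonoidAlgebra.of ℤ P a⁻¹ = 1 := by
      rw [← map_mul, mul_inv_cancel, map_one]
    have h1 : MonoidAlgebra.of ℤ P a⁻¹ - 1 =
        -((MonoidAlgebra.of ℤ P a - 1) * MonoidAlgebra.of ℤ P a⁻¹) := by
      rw [sub_mul, h2, one_mul]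
      abel
    rw [h1]
    exact Submodule.neg_mem _ (e5_right S _ _ ha)

private theorem e5_top {P : Type u} [Group P] (W : Submodule ℤ (MonoidAlgebra ℤ P))
    (hW : ∀ g : P, MonoidAlgebra.of ℤ P g - 1 ∈ W) :
    Submodule.span ℤ {(1 : MonoidAlgebra ℤ P)} ⊔ W = ⊤ := by
  rw [eq_top_iff]
  rintro x -
  induction x using MonoidAlgebra.induction_on with
  | of g =>
    have h1 : MonoidAlgebra.of ℤ P g = 1 + (MonoidAlgebra.of ℤ P g - 1) := by abel
    rw [h1]
    exact Submodule.add_mem_sup (Submodule.mem_span_singleton_self _) (hW g)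
  | add a b ha hb => exact Submodule.add_mem _ ha hb
  | smul r a ha => exact Submodule.smul_mem _ r ha

/-- `ℤ[P] / Δ ^ (k + 1)` is finitely generated if `P` is. -/
theorem exists_fg_sup_aug {P : Type u} [Group P] (hP : Group.FG P) (k : ℕ) :
    ∃ V : Submodule ℤ (MonoidAlgebra ℤ P), V.FG ∧ V ⊔ Aug P ^ (k + 1) = ⊤ := by
  obtain ⟨S, hS, hfin⟩ := (Group.fg_iff).1 hP
  induction k with
  | zero =>
    refine ⟨Submodule.span ℤ {1}, Submodule.fg_span_singleton _, ?_⟩
    rw [zero_add, pow_one]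
    exact e5_top _ e5_gen
  | succ k ih =>
    obtain ⟨V, hV, hVt⟩ := ih
    have hX : (E5X S).FG := Submodule.fg_span (hfin.image _)
    refine ⟨Submodule.span ℤ {1} ⊔ E5X S * V,
      (Submodule.fg_span_singleton _).sup (hX.mul hV), ?_⟩
    rw [eq_top_iff, ← e5_top (E5X S * ⊤) (e5_word S hS), ← hVt, Submodule.mul_sup, sup_assoc]
    refine sup_le_sup le_rfl (sup_le_sup le_rfl ?_)
    rw [pow_succ' _ (k + 1)]
    exact Submodule.mul_le.2 fun m hm n hn => Submodule.mul_mem_mul (e5_X_le S hm) hn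

/-- The isolator of `Δ ^ (k + 1)`. -/
private def E5I (P : Type u) [Group P] (k : ℕ) : Submodule ℤ (MonoidAlgebra ℤ P) where
  carrier := {y | ∃ n : ℤ, n ≠ 0 ∧ n • y ∈ Aug P ^ (k + 1)}
  zero_mem' := ⟨1, one_ne_zero, by rw [smul_zero]; exact Submodule.zero_mem _⟩
  add_mem' := by
    rintro x y ⟨n, hn, h1⟩ ⟨m, hm, h2⟩
    refine ⟨n * m, mul_ne_zero hn hm, ?_⟩
    have h3 : (n * m) • (x + y) = m • (n • x) + n • (m • y) := by
      rw [smul_smul, smul_smul, mul_comm m n, smul_add]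
    rw [h3]
    exact Submodule.add_mem _ (Submodule.smul_mem _ m h1) (Submodule.smul_mem _ n h2)
  smul_mem' := by
    rintro c x ⟨n, hn, h1⟩
    refine ⟨n, hn, ?_⟩
    rw [smul_comm]
    exact Submodule.smul_mem _ c h1

private theorem e5_mem {P : Type u} [Group P] (k : ℕ) (y : MonoidAlgebra ℤ P) :
    y ∈ E5I P k ↔ ∃ n : ℤ, n ≠ 0 ∧ n • y ∈ Aug P ^ (k + 1) := Iff.rfl

private theorem e5_sat {P : Type u} [Group P] (k : ℕ) (y : MonoidAlgebra ℤ P) (n : ℤ)
    (hn : n ≠ 0) (h : n • y ∈ E5I P k) : y ∈ E5I P k := by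
  obtain ⟨m, hm, h1⟩ := h
  refine ⟨m * n, mul_ne_zero hm hn, ?_⟩
  rwa [mul_smul]

private theorem e5_le {P : Type u} [Group P] (k : ℕ) : Aug P ^ (k + 1) ≤ E5I P k := by
  intro y hy
  exact ⟨1, one_ne_zero, by rwa [one_smul]⟩

private theorem e5_anti {P : Type u} [Group P] {k l : ℕ} (h : k ≤ l) : E5I P l ≤ E5I P k := by
  rintro y ⟨n, hn, h1⟩
  exact ⟨n, hn, aug_anti k l h h1⟩

private theorem e5_left {P : Type u} [Group P] {k : ℕ} (x : MonoidAlgebra ℤ P)
    {y : MonoidAlgebra ℤ P} (hy : y ∈ E5I P k) : x * y ∈ E5I P k := by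
  obtain ⟨n, hn, h1⟩ := hy
  refine ⟨n, hn, ?_⟩
  rw [← mul_smul_comm]
  exact mul_mem_aug_left k _ _ h1

private theorem e5_mul {P : Type u} [Group P] {k l : ℕ} {x y : MonoidAlgebra ℤ P}
    (hx : x ∈ E5I P k) (hy : y ∈ E5I P l) : x * y ∈ E5I P (k + l + 1) := by
  obtain ⟨n, hn, h1⟩ := hx
  obtain ⟨m, hm, h2⟩ := hy
  refine ⟨n * m, mul_ne_zero hn hm, ?_⟩
  rw [← smul_mul_smul_comm, show k + l + 1 + 1 = (k + 1) + (l + 1) by ring, pow_add]
  exact Submodule.mul_mem_mul h1 h2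

private theorem e5_gen0 {P : Type u} [Group P] (g : P) :
    MonoidAlgebra.of ℤ P g - 1 ∈ E5I P 0 := by
  apply e5_le
  rw [zero_add, pow_one]
  exact e5_gen g

private theorem e5_eq_iff {P : Type u} [Group P] (k : ℕ) (g h : P) :
    (QuotientGroup.mk g : P ⧸ Dm P k) = QuotientGroup.mk h ↔
      MonoidAlgebra.of ℤ P g - MonoidAlgebra.of ℤ P h ∈ E5I P k := by
  rw [QuotientGroup.eq]
  have h0 : g⁻¹ * h ∈ Dm P k ↔ MonoidAlgebra.of ℤ P (g⁻¹ * h) - 1 ∈ E5I P k := Iff.rfl
  rw [h0]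
  have h2 : MonoidAlgebra.of ℤ P g * MonoidAlgebra.of ℤ P g⁻¹ = 1 := by
    rw [← map_mul, mul_inv_cancel, map_one]
  have h3 : MonoidAlgebra.of ℤ P g⁻¹ * MonoidAlgebra.of ℤ P g = 1 := by
    rw [← map_mul, inv_mul_cancel, map_one]
  constructor
  · intro h1
    have h4 : MonoidAlgebra.of ℤ P g - MonoidAlgebra.of ℤ P h =
        (-MonoidAlgebra.of ℤ P g) * (MonoidAlgebra.of ℤ P (g⁻¹ * h) - 1) := by
      rw [map_mul, mul_sub, ← mul_assoc, neg_mul, h2]
      noncomm_ring
    rw [h4]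
    exact e5_left _ h1
  · intro h1
    have h4 : MonoidAlgebra.of ℤ P (g⁻¹ * h) - 1 =
        (-MonoidAlgebra.of ℤ P g⁻¹) * (MonoidAlgebra.of ℤ P g - MonoidAlgebra.of ℤ P h) := by
      rw [map_mul, mul_sub, neg_mul, neg_mul, h3]
      noncomm_ring
    rw [h4]
    exact e5_left _ h1

private theorem e5_finite {P : Type u} [Group P] (hP : Group.FG P) (k : ℕ) :
    Module.Finite ℤ (MonoidAlgebra ℤ P ⧸ E5I P k) := by
  obtain ⟨V, hV, hVt⟩ := exists_fg_sup_aug hP k
  refine ⟨?_⟩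
  have h1 : V.map (E5I P k).mkQ = ⊤ := by
    rw [eq_top_iff]
    rintro q -
    obtain ⟨x, rfl⟩ := Submodule.mkQ_surjective _ q
    have hx : x ∈ V ⊔ Aug P ^ (k + 1) := by rw [hVt]; exact Submodule.mem_top
    obtain ⟨v, hv, w, hw, rfl⟩ := Submodule.mem_sup.1 hx
    refine ⟨v, hv, ?_⟩
    rw [map_add]
    have h2 : (E5I P k).mkQ w = 0 := by
      rw [Submodule.mkQ_apply, Submodule.Quotient.mk_eq_zero]
      exact e5_le k hw
    rw [h2, add_zero]
  rw [← h1]
  exact hV.map _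

private theorem e5_torsion {P : Type u} [Group P] (k : ℕ) :
    Module.IsTorsionFree ℤ (MonoidAlgebra ℤ P ⧸ E5I P k) := by
  refine ⟨fun n hn => ?_⟩
  intro x y hxy
  obtain ⟨x, rfl⟩ := Submodule.mkQ_surjective _ x
  obtain ⟨y, rfl⟩ := Submodule.mkQ_surjective _ y
  have h1 : (E5I P k).mkQ (n • (x - y)) = 0 := by
    rw [map_smul, map_sub, smul_sub, sub_eq_zero]
    exact hxy
  rw [Submodule.mkQ_apply, Submodule.Quotient.mk_eq_zero] at h1
  have h2 := e5_sat k _ n hn.ne_zero h1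
  rw [← sub_eq_zero, ← map_sub, Submodule.mkQ_apply, Submodule.Quotient.mk_eq_zero]
  exact h2

/-- The quotient `P / Dm P k` is central-poly-Z if `P` is finitely generated. -/
theorem cpz_quot {P : Type u} [Group P] (hP : Group.FG P) (k : ℕ) : SPH.CPZ (P ⧸ Dm P k) := by
  induction k with
  | zero =>
    have : Subsingleton (P ⧸ Dm P 0) := by
      rw [Dm_zero]
      exact QuotientGroup.subsingleton_quotient_top
    exact SPH.CPZ.triv _
  | succ k ih =>
    let f : P ⧸ Dm P (k + 1) →* P ⧸ Dm P k :=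
      QuotientGroup.map (Dm P (k + 1)) (Dm P k) (MonoidHom.id P) (Dm_anti k (k + 1) (by omega))
    have hf : ∀ g : P, f (QuotientGroup.mk g) = QuotientGroup.mk g := fun g => rfl
    have hfs : Function.Surjective f := by
      intro q
      obtain ⟨g, rfl⟩ := QuotientGroup.mk_surjective q
      exact ⟨QuotientGroup.mk g, hf g⟩
    have hker : ∀ g : P, (QuotientGroup.mk g : P ⧸ Dm P (k + 1)) ∈ f.ker ↔
        MonoidAlgebra.of ℤ P g - 1 ∈ E5I P k := by
      intro g
      rw [MonoidHom.mem_ker, hf, ← QuotientGroup.mk_one, e5_eq_iff, map_one]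
    have hc : f.ker ≤ Subgroup.center (P ⧸ Dm P (k + 1)) := by
      intro q hq
      obtain ⟨g, rfl⟩ := QuotientGroup.mk_surjective q
      rw [hker] at hq
      rw [Subgroup.mem_center_iff]
      intro q'
      obtain ⟨h, rfl⟩ := QuotientGroup.mk_surjective q'
      rw [← QuotientGroup.mk_mul, ← QuotientGroup.mk_mul, e5_eq_iff]
      have h1 : MonoidAlgebra.of ℤ P (h * g) - MonoidAlgebra.of ℤ P (g * h) =
          (MonoidAlgebra.of ℤ P h - 1) * (MonoidAlgebra.of ℤ P g - 1) -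
            (MonoidAlgebra.of ℤ P g - 1) * (MonoidAlgebra.of ℤ P h - 1) := by
        rw [map_mul, map_mul]
        exact e5_ring1 _ _
      rw [h1]
      refine Submodule.sub_mem _ ?_ ?_
      · exact e5_anti (by omega) (e5_mul (e5_gen0 h) hq)
      · exact e5_anti (by omega) (e5_mul hq (e5_gen0 h))
    have := e5_finite hP (k + 1)
    have := e5_torsion (P := P) (k + 1)
    let Q := MonoidAlgebra ℤ P ⧸ E5I P (k + 1)
    let b : Module.Basis (Module.Free.ChooseBasisIndex ℤ Q) ℤ Q := Module.Free.chooseBasis ℤ Q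
    let c : P → Q := fun g => (E5I P (k + 1)).mkQ (MonoidAlgebra.of ℤ P g - 1)
    have hcc : ∀ g h : P, (QuotientGroup.mk g : P ⧸ Dm P (k + 1)) = QuotientGroup.mk h →
        c g = c h := by
      intro g h hgh
      rw [e5_eq_iff] at hgh
      show (E5I P (k + 1)).mkQ _ = (E5I P (k + 1)).mkQ _
      rw [← sub_eq_zero, ← map_sub, sub_sub_sub_cancel_right, Submodule.mkQ_apply,
        Submodule.Quotient.mk_eq_zero]
      exact hgh
    have hout : ∀ q : P ⧸ Dm P (k + 1), (QuotientGroup.mk q.out : P ⧸ Dm P (k + 1)) = q :=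
      fun q => QuotientGroup.out_eq' q
    have hmul : ∀ g h : P, MonoidAlgebra.of ℤ P g - 1 ∈ E5I P k →
        MonoidAlgebra.of ℤ P h - 1 ∈ E5I P k → c (g * h) = c g + c h := by
      intro g h hg hh
      show (E5I P (k + 1)).mkQ _ = (E5I P (k + 1)).mkQ _ + (E5I P (k + 1)).mkQ _
      rw [← map_add, ← sub_eq_zero, ← map_sub, Submodule.mkQ_apply,
        Submodule.Quotient.mk_eq_zero]
      have h1 : MonoidAlgebra.of ℤ P (g * h) - 1 -
          (MonoidAlgebra.of ℤ P g - 1 + (MonoidAlgebra.of ℤ P h - 1)) =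
          (MonoidAlgebra.of ℤ P g - 1) * (MonoidAlgebra.of ℤ P h - 1) := by
        rw [map_mul]
        exact e5_ring2 _ _
      rw [h1]
      exact e5_anti (by omega) (e5_mul hg hh)
    have hkout : ∀ q : f.ker, MonoidAlgebra.of ℤ P (q : P ⧸ Dm P (k + 1)).out - 1 ∈ E5I P k := by
      intro q
      rw [← hker, hout]
      exact q.2
    let j : f.ker →* Multiplicative (Module.Free.ChooseBasisIndex ℤ Q → ℤ) :=
      MonoidHom.mk' (fun q => Multiplicative.ofAdd (b.equivFun (c (q : P ⧸ Dm P (k + 1)).out))) (by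
        intro q q'
        have h1 : c ((q * q' : f.ker) : P ⧸ Dm P (k + 1)).out =
            c (q : P ⧸ Dm P (k + 1)).out + c (q' : P ⧸ Dm P (k + 1)).out := by
          rw [← hmul _ _ (hkout q) (hkout q')]
          apply hcc
          rw [QuotientGroup.mk_mul, hout, hout, hout]
          rfl
        show Multiplicative.ofAdd (b.equivFun (c ((q * q' : f.ker) : P ⧸ Dm P (k + 1)).out)) = _
        rw [h1, map_add, ofAdd_add])
    have hj : Function.Injective j := by
      rw [injective_iff_map_eq_one]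
      intro q hq
      have h1 : b.equivFun (c (q : P ⧸ Dm P (k + 1)).out) = 0 := hq
      rw [LinearEquiv.map_eq_zero_iff] at h1
      have h2 : (E5I P (k + 1)).mkQ (MonoidAlgebra.of ℤ P (q : P ⧸ Dm P (k + 1)).out - 1) = 0 := h1
      rw [Submodule.mkQ_apply, Submodule.Quotient.mk_eq_zero] at h2
      apply Subtype.ext
      rw [← hout (q : P ⧸ Dm P (k + 1))]
      show (QuotientGroup.mk _ : P ⧸ Dm P (k + 1)) = QuotientGroup.mk 1
      rw [e5_eq_iff, map_one]
      exact h2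
    exact SPH.CPZ.central_ext f hfs hc j hj ih

end Pool.Agent.Lib.MP_7b9603_alCF
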