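import Pool.Agent.Lib.MP_7b9603_alCF.E4
import Pool.Agent.Lib.MP_7b9603_al.Assembly

/-!
# E6: dimension subgroups and rings with an h-adic structure
-/

set_option autoImplicit false

namespace Pool.Agent.Lib.MP_7b9603_alCF

universe u v

private theorem e6_comm_pow {𝓜 : Type v} [Ring 𝓜] (H : SPH.HRing 𝓜) (j : ℕ) (x : 𝓜) :
    x * H.h ^ j = H.h ^ j * x := by
  have h1 : Commute H.h x := H.comm x
  exact (h1.pow_left j).symm.eq

private theorem e6_reg_pow {𝓜 : Type v} [Ring 𝓜] (H : SPH.HRing 𝓜) (j : ℕ) (x : 𝓜)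
    (hx : H.h ^ j * x = 0) : x = 0 := by
  induction j generalizing x with
  | zero => simpa using hx
  | succ j ih =>
    rw [pow_succ', mul_assoc] at hx
    exact ih x (H.reg _ hx)

private theorem e6_torsion {𝓜 : Type v} [Ring 𝓜] (H : SPH.HRing 𝓜) (n : ℤ) (hn : n ≠ 0)
    (k : ℕ) (m y : 𝓜) (h : n • m = H.h ^ k * y) : ∃ z, m = H.h ^ k * z := by
  have key : ∀ j ≤ k, ∃ z, m = H.h ^ j * z := by
    intro j
    induction j with
    | zero => intro _; exact ⟨m, by simp⟩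
    | succ j ih =>
      intro hj
      obtain ⟨z, hz⟩ := ih (by omega)
      have h1 : n • z = H.h ^ (k - j) * y := by
        have h2 : H.h ^ j * (n • z - H.h ^ (k - j) * y) = 0 := by
          rw [mul_sub, ← mul_assoc, ← pow_add, Nat.add_sub_cancel' (by omega : j ≤ k), ← h, hz,
            mul_smul_comm, sub_self]
        exact sub_eq_zero.1 (e6_reg_pow H j _ h2)
      have h3 : H.c (n • z) = 0 := by
        refine (H.ker _).2 ⟨H.h ^ (k - j - 1) * y, ?_⟩
        rw [h1, ← mul_assoc, ← pow_succ']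
        congr 2
        omega
      have h4 : H.c z = 0 := by
        rw [map_zsmul] at h3
        exact (smul_eq_zero.1 h3).resolve_left hn
      obtain ⟨w, hw⟩ := (H.ker _).1 h4
      exact ⟨w, by rw [hz, hw, pow_succ, mul_assoc]⟩
  exact key k le_rfl

/-- The dimension subgroups lie in the `h`-adic filtration. -/
theorem Dm_le_hadic {𝓜 : Type v} [Ring 𝓜] (H : SPH.HRing 𝓜) {P : Type u} [Group P] (ρ : P →* 𝓜ˣ)
    (hP : ∀ g, ∃ y, ((ρ g : 𝓜ˣ) : 𝓜) = 1 + H.h * y) (k : ℕ) (g : P) (hg : g ∈ Dm P k) :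
    ∃ y, ((ρ g : 𝓜ˣ) : 𝓜) = 1 + H.h ^ (k + 1) * y := by
  obtain ⟨n, hn, hg⟩ := hg
  let r : MonoidAlgebra ℤ P →ₐ[ℤ] 𝓜 := MonoidAlgebra.lift ℤ _ _ ((Units.coeHom 𝓜).comp ρ)
  have hr : ∀ g : P, r (MonoidAlgebra.of ℤ P g - 1) = ((ρ g : 𝓜ˣ) : 𝓜) - 1 := by
    intro g
    rw [map_sub, map_one]
    congr 1
    simp [r]
  have h1 : ∀ y ∈ Aug P, ∃ z, r y = H.h * z := by
    intro y hy
    unfold Aug at hy
    induction hy using Submodule.span_induction with
    | mem y hy =>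
      obtain ⟨g, rfl⟩ := hy
      obtain ⟨z, hz⟩ := hP g
      exact ⟨z, by
        show r (MonoidAlgebra.of ℤ P g - 1) = _
        rw [hr, hz, add_sub_cancel_left]⟩
    | zero => exact ⟨0, by rw [map_zero, mul_zero]⟩
    | add a b _ _ ha hb =>
      obtain ⟨z, hz⟩ := ha
      obtain ⟨w, hw⟩ := hb
      exact ⟨z + w, by rw [map_add, hz, hw, mul_add]⟩
    | smul c a _ ha =>
      obtain ⟨z, hz⟩ := ha
      exact ⟨c • z, by rw [map_zsmul, hz, mul_smul_comm]⟩
  have h2 : ∀ (j : ℕ), ∀ y ∈ Aug P ^ j, ∃ z, r y = H.h ^ j * z := by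
    intro j
    induction j with
    | zero => intro y _; exact ⟨r y, by simp⟩
    | succ j ih =>
      intro y hy
      rw [pow_succ] at hy
      induction hy using Submodule.mul_induction_on' with
      | mem_mul_mem a ha b hb =>
        obtain ⟨z, hz⟩ := ih a ha
        obtain ⟨w, hw⟩ := h1 b hb
        refine ⟨z * w, ?_⟩
        have h3 : z * H.h = H.h * z := (H.comm z).symm
        rw [map_mul, hz, hw, pow_succ, mul_assoc, ← mul_assoc z, h3]
        simp only [mul_assoc]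
      | add a _ b _ ha hb =>
        obtain ⟨z, hz⟩ := ha
        obtain ⟨w, hw⟩ := hb
        exact ⟨z + w, by rw [map_add, hz, hw, mul_add]⟩
  obtain ⟨z, hz⟩ := h2 (k + 1) _ hg
  rw [map_zsmul, hr] at hz
  obtain ⟨w, hw⟩ := e6_torsion H n hn (k + 1) _ z hz
  exact ⟨w, by rw [← hw]; abel⟩

end Pool.Agent.Lib.MP_7b9603_alCF
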