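import Pool.Agent.Lib.MP_7b9603_alCF.A6
import Pool.Agent.Lib.MP_7b9603_alCF.E3
import Pool.Agent.Lib.MP_7b9603_alCF.E5
import Pool.Agent.Lib.MP_7b9603_alCF.E6

/-!
# A8: the filtration of a spherical Artin group
-/

set_option autoImplicit false

namespace Pool.Agent.Lib.MP_7b9603_alCF

open SPH

universe u

/-- `F` is the filtration by the dimension subgroups of the pure Artin group, starting at `k1`. -/
def IsDmFlt {K : Type u} [Field K] {S : Type u} {M : CoxeterMatrix S} (F : Flt K (ArtinGroup M))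
    (k1 : ℕ) : Prop :=
  ∀ k g, F.q k g = 1 ↔ ∃ hg : g ∈ PA M, (⟨g, hg⟩ : PA M) ∈ Dm (PA M) (k + k1)

/-- The dimension subgroups of the pure Artin group as subgroups of the Artin group. -/
private def a8D {S : Type u} (M : CoxeterMatrix S) (k1 k : ℕ) : Subgroup (ArtinGroup M) :=
  (Dm (PA M) (k + k1)).map (PA M).subtype

private instance a8D_normal {S : Type u} (M : CoxeterMatrix S) (k1 k : ℕ) :
    (a8D M k1 k).Normal := Dm_map_normal (PA M) (k + k1)

/-- The dimension subgroups of the pure Artin group of a spherical Artin group intersect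
trivially. -/
theorem Dm_sep {S : Type u} [Fintype S] (M : CoxeterMatrix S) (h : Finite M.Group) (g : PA M)
    (hg : ∀ k, g ∈ Dm (PA M) k) : g = 1 := by
  obtain ⟨𝓜, _, H, ρ, k0, hk0, hinj, hP, hdet, htf⟩ := exists_hdata M h
  have h1 : ∀ k, ∃ y, ((ρ (g : ArtinGroup M) : 𝓜ˣ) : 𝓜) = 1 + H.h ^ (k + 1) * y := fun k =>
    Dm_le_hadic H (ρ.comp (PA M).subtype) (fun g => hP g g.2) k g (hg k)
  have h2 : ((ρ (g : ArtinGroup M) : 𝓜ˣ) : 𝓜) - 1 = 0 := H.sep _ fun k => by
    obtain ⟨y, hy⟩ := h1 k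
    refine ⟨H.h * y, ?_⟩
    rw [hy, ← mul_assoc, ← pow_succ, add_sub_cancel_left]
  apply Subtype.ext
  apply hinj
  rw [Subgroup.coe_one, map_one]
  exact Units.ext (sub_eq_zero.mp h2)

/-- The quotients of a spherical Artin group by the dimension subgroups of the pure group. -/
theorem exists_flt {S : Type u} [Fintype S] (M : CoxeterMatrix S) (h : Finite M.Group)
    (K : Type u) [Field K] :
    ∃ k0 : ℕ, ∀ k1, k0 ≤ k1 → ∃ F : Flt K (ArtinGroup M), IsDmFlt F k1 := by
  obtain ⟨𝓜, _, H, ρ, k0, hk0, hinj, hP, hdet, htf⟩ := exists_hdata M h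
  refine ⟨k0, fun k1 hk1 => ?_⟩
  have hfgA : Group.FG (ArtinGroup M) :=
    Group.fg_of_surjective (f := PresentedGroup.mk (artinRelM M))
      (PresentedGroup.mk_surjective _)
  have hfi : (PA M).FiniteIndex := Subgroup.finiteIndex_ker (coxA M)
  have hfgP : Group.FG (PA M) := Subgroup.fg_of_index_ne_zero (PA M)
  have hmem : ∀ k (g : ArtinGroup M), g ∈ a8D M k1 k ↔
      ∃ hg : g ∈ PA M, (⟨g, hg⟩ : PA M) ∈ Dm (PA M) (k + k1) := by
    intro k g
    unfold a8D
    rw [Subgroup.mem_map]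
    constructor
    · rintro ⟨x, hx, rfl⟩
      exact ⟨x.2, hx⟩
    · rintro ⟨hg, hx⟩
      exact ⟨⟨g, hg⟩, hx, rfl⟩
  have htor : ∀ k (g : ArtinGroup M ⧸ a8D M k1 k) (n : ℕ), n ≠ 0 → g ^ n = 1 → g = 1 := by
    intro k g n hn hgn
    obtain ⟨g0, rfl⟩ := QuotientGroup.mk'_surjective (a8D M k1 k) g
    rw [← map_pow] at hgn
    have h1 : g0 ^ n ∈ a8D M k1 k := (QuotientGroup.eq_one_iff _).1 hgn
    obtain ⟨hg1, hg2⟩ := (hmem k _).1 h1
    have h2 : ∃ y, ((ρ (g0 ^ n) : 𝓜ˣ) : 𝓜) = 1 + H.h ^ (k + k1 + 1) * y :=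
      Dm_le_hadic H (ρ.comp (PA M).subtype) (fun g => hP g g.2) (k + k1) ⟨g0 ^ n, hg1⟩ hg2
    obtain ⟨y, hy⟩ := H.torsion (PA M) ρ hP hdet k0 hk0 htf (k + k1 + 1) (by omega) g0 n hn h2
    have h3 : g0 ∈ PA M := hdet g0 ⟨H.h ^ (k + k1) * y, by rw [hy, ← mul_assoc, ← pow_succ']⟩
    have h4 : (⟨g0, h3⟩ : PA M) ∈ Dm (PA M) (k + k1) := by
      refine mem_Dm_of_pow _ _ n hn ?_
      have e : (⟨g0, h3⟩ : PA M) ^ n = ⟨g0 ^ n, hg1⟩ := rfl
      rw [e]
      exact hg2
    exact (QuotientGroup.eq_one_iff _).2 ((hmem k _).2 ⟨h3, h4⟩)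
  have hcpz : ∀ k, CPZ ((PA M).map (QuotientGroup.mk' (a8D M k1 k))) := by
    intro k
    set q := QuotientGroup.mk' (a8D M k1 k) with hq
    have hker : (q.subgroupMap (PA M)).ker = Dm (PA M) (k + k1) := by
      ext x
      rw [MonoidHom.mem_ker]
      have h1 : q.subgroupMap (PA M) x = 1 ↔ q (x : ArtinGroup M) = 1 := by
        rw [← Subtype.coe_inj]
        rfl
      have h2 : q (x : ArtinGroup M) = 1 ↔ (x : ArtinGroup M) ∈ a8D M k1 k :=
        QuotientGroup.eq_one_iff _
      rw [h1, h2, hmem]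
      constructor
      · rintro ⟨_, hx⟩
        exact hx
      · intro hx
        exact ⟨x.2, hx⟩
    have e1 : (PA M ⧸ Dm (PA M) (k + k1)) ≃* (PA M ⧸ (q.subgroupMap (PA M)).ker) :=
      QuotientGroup.quotientMulEquivOfEq hker.symm
    have e2 : (PA M ⧸ (q.subgroupMap (PA M)).ker) ≃* (PA M).map q :=
      QuotientGroup.quotientKerEquivOfSurjective _ (q.subgroupMap_surjective (PA M))
    exact (cpz_quot hfgP (k + k1)).of_equiv (e1.trans e2)
  have hnor : ∀ k, ((PA M).map (QuotientGroup.mk' (a8D M k1 k))).Normal := fun k =>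
    Subgroup.Normal.map inferInstance _ (QuotientGroup.mk'_surjective _)
  have hfin : ∀ k, ((PA M).map (QuotientGroup.mk' (a8D M k1 k))).FiniteIndex := by
    intro k
    refine ⟨fun h0 => ?_⟩
    have h1 := Subgroup.index_map_dvd (PA M) (QuotientGroup.mk'_surjective (a8D M k1 k))
    rw [h0] at h1
    exact Subgroup.FiniteIndex.index_ne_zero (H := PA M) (Nat.eq_zero_of_zero_dvd h1)
  let F : Flt K (ArtinGroup M) :=
    { Q := fun k => ArtinGroup M ⧸ a8D M k1 k
      grp := fun k => inferInstance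
      q := fun k => QuotientGroup.mk' (a8D M k1 k)
      surj := fun k => QuotientGroup.mk'_surjective _
      anti := by
        intro k l hkl g hg
        have h1 : g ∈ a8D M k1 l := (QuotientGroup.eq_one_iff _).1 hg
        obtain ⟨hg1, hg2⟩ := (hmem l g).1 h1
        exact (QuotientGroup.eq_one_iff _).2
          ((hmem k g).2 ⟨hg1, Dm_anti (k + k1) (l + k1) (by omega) hg2⟩)
      dom := by
        intro k
        have i1 := hnor k
        have i2 := hfin k
        exact farkas_snider_all ((PA M).map (QuotientGroup.mk' (a8D M k1 k))) (hcpz k) (htor k)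
      noeth := by
        intro k
        have i2 := hfin k
        have i3 : IsNoetherianRing
            (MonoidAlgebra K ((PA M).map (QuotientGroup.mk' (a8D M k1 k)))) :=
          (hcpz k).polyZ.isNoetherianRing K
        have i4 : Module.Finite (MonoidAlgebra K ((PA M).map (QuotientGroup.mk' (a8D M k1 k))))
            (MonoidAlgebra K (ArtinGroup M ⧸ a8D M k1 k)) := finite_sub _
        have i5 : IsNoetherian (MonoidAlgebra K ((PA M).map (QuotientGroup.mk' (a8D M k1 k))))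
            (MonoidAlgebra K (ArtinGroup M ⧸ a8D M k1 k)) := inferInstance
        exact isNoetherian_of_tower
          (MonoidAlgebra K ((PA M).map (QuotientGroup.mk' (a8D M k1 k)))) i5 }
  refine ⟨F, fun k g => ?_⟩
  rw [← hmem k g]
  exact QuotientGroup.eq_one_iff g

end Pool.Agent.Lib.MP_7b9603_alCF
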