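import Pool.Agent.Lib.MP_7b9603_alCF.A8
import Pool.Agent.Lib.MP_7b9603_alCF.A5

/-!
# A9: compatibility of the filtrations with standard parabolic subgroups
-/

set_option autoImplicit false

namespace Pool.Agent.Lib.MP_7b9603_alCF

open SPH

universe u

variable {K : Type u} [Field K] {S' S : Type u} (M' : CoxeterMatrix S') (M : CoxeterMatrix S)
  (j : S' → S) (hj : Function.Injective j) (hM : ∀ a b, M (j a) (j b) = M' a b)

include hj in
/-- The inclusion of the pure Artin groups. -/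
private theorem A9_exists_inc : ∃ φ : PA M' →* PA M, ∀ g : PA M',
    ((φ g : PA M) : ArtinGroup M) = incA M' M j hM g := by
  refine ⟨((incA M' M j hM).comp (PA M').subtype).codRestrict (PA M) fun g => ?_, fun g => rfl⟩
  exact (incA_mem_PA_iff M' M j hj hM g).2 g.2

include hj in
theorem flt_compat (F' : Flt K (ArtinGroup M')) (F : Flt K (ArtinGroup M)) (k1 : ℕ)
    (hF' : IsDmFlt F' k1) (hF : IsDmFlt F k1) (k : ℕ) (g : ArtinGroup M') :
    F.q k (incA M' M j hM g) = 1 ↔ F'.q k g = 1 := by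
  rw [hF, hF']
  constructor
  · rintro ⟨hg, hd⟩
    have hg' : g ∈ PA M' := (incA_mem_PA_iff M' M j hj hM g).1 hg
    obtain ⟨r, hr⟩ := exists_retract M' M j hj hM
    refine ⟨hg', ?_⟩
    have h := Dm_map r (k + k1) _ hd
    rwa [hr g hg' hg] at h
  · rintro ⟨hg, hd⟩
    obtain ⟨φ, hφ⟩ := A9_exists_inc M' M j hj hM
    have hg' : incA M' M j hM g ∈ PA M := (incA_mem_PA_iff M' M j hj hM g).2 hg
    refine ⟨hg', ?_⟩
    have h := Dm_map φ (k + k1) _ hd
    have e : φ ⟨g, hg⟩ = ⟨incA M' M j hM g, hg'⟩ := Subtype.ext (hφ ⟨g, hg⟩)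
    rwa [e] at h

include hj in
theorem flt_sep [Fintype S] (h : Finite M.Group) (F : Flt K (ArtinGroup M)) (k1 : ℕ)
    (hF : IsDmFlt F k1) (g : ArtinGroup M)
    (hg : ∀ k, ∃ c, F.q k g = F.q k (incA M' M j hM c)) : g ∈ (incA M' M j hM).range := by
  obtain ⟨r, hr⟩ := exists_retract M' M j hj hM
  obtain ⟨φ, hφ⟩ := A9_exists_inc M' M j hj hM
  have hrφ : ∀ x : PA M', r (φ x) = x := by
    intro x
    have hx : incA M' M j hM x ∈ PA M := (incA_mem_PA_iff M' M j hj hM x).2 x.2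
    have e : φ x = ⟨incA M' M j hM x, hx⟩ := Subtype.ext (hφ x)
    rw [e, hr x x.2 hx]
  have h1 : ∀ k, ∃ c, ∃ hc : (incA M' M j hM c)⁻¹ * g ∈ PA M,
      (⟨(incA M' M j hM c)⁻¹ * g, hc⟩ : PA M) ∈ Dm (PA M) (k + k1) := by
    intro k
    obtain ⟨c, hc⟩ := hg k
    refine ⟨c, (hF k _).1 ?_⟩
    rw [map_mul, map_inv, hc, inv_mul_cancel]
  obtain ⟨c0, hc0, -⟩ := h1 0
  set D : PA M := ⟨(incA M' M j hM c0)⁻¹ * g, hc0⟩ with hD
  have h2 : ∀ k, (φ (r D))⁻¹ * D ∈ Dm (PA M) k := by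
    intro k
    obtain ⟨c, hc, hd⟩ := h1 k
    set e : PA M := ⟨(incA M' M j hM c)⁻¹ * g, hc⟩ with he
    -- the element of the parabolic subgroup
    have hb : incA M' M j hM (c0⁻¹ * c) ∈ PA M := by
      have h3 : incA M' M j hM (c0⁻¹ * c) = (D : ArtinGroup M) * (e : ArtinGroup M)⁻¹ := by
        rw [hD, he]
        simp only [map_mul, map_inv]
        group
      rw [h3]
      exact (PA M).mul_mem D.2 ((PA M).inv_mem e.2)
    have hb' : c0⁻¹ * c ∈ PA M' := (incA_mem_PA_iff M' M j hj hM _).1 hb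
    have hDe : D = φ ⟨c0⁻¹ * c, hb'⟩ * e := by
      apply Subtype.ext
      rw [Subgroup.coe_mul, hφ, hD, he]
      simp only [map_mul, map_inv]
      group
    have h4 : (φ (r D))⁻¹ * D = (φ (r e))⁻¹ * e := by
      have h5 : r D = ⟨c0⁻¹ * c, hb'⟩ * r e := by rw [hDe, map_mul, hrφ]
      rw [h5, map_mul]
      conv_lhs => rw [hDe]
      group
    rw [h4]
    have h6 : φ (r e) ∈ Dm (PA M) (k + k1) := Dm_map φ _ _ (Dm_map r _ _ hd)
    exact Dm_anti k (k + k1) (Nat.le_add_right _ _) ((Dm (PA M) (k + k1)).mul_mem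
      ((Dm (PA M) (k + k1)).inv_mem h6) hd)
  have h3 := Dm_sep M h _ h2
  have h4 : D = φ (r D) := by
    have := inv_mul_eq_one.1 h3
    exact this.symm
  have h5 : g = incA M' M j hM (c0 * (r D : ArtinGroup M')) := by
    rw [map_mul, ← hφ (r D), ← h4, hD]
    group
  exact ⟨_, h5.symm⟩

end Pool.Agent.Lib.MP_7b9603_alCF
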