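import Pool.Agent.Lib.MP_7b9603_alCF.C1

/-!
# B2: normal forms in amalgams of groups
-/

set_option autoImplicit false

namespace Pool.Agent.Lib.MP_7b9603_alCF

universe u

open AW

/-- The product of a word. -/
def wprod {ι : Type} {γ : ι → Type u} {A : Type*} [Monoid A] (x : ∀ i, γ i → A) (w : AW γ) : A :=
  (w.1.map fun l => x l.1 l.2).prod

theorem wprod_nil {ι : Type} {γ : ι → Type u} {A : Type*} [Monoid A] (x : ∀ i, γ i → A) :
    wprod x (nil : AW γ) = 1 := rfl

theorem wprod_cons {ι : Type} {γ : ι → Type u} {A : Type*} [Monoid A] (x : ∀ i, γ i → A)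
    (i : ι) (b : γ i) (w : AW γ) (h : w.hd ≠ some i) :
    wprod x (AW.cons i b w h) = x i b * wprod x w := by
  simp [wprod, AW.cons]

/-- Existence of normal forms: every element is `f_i a` times an alternating word in the coset
representatives not starting with type `i`. -/
theorem exists_nf {ι : Type} {G N : Type u} [Group G] [Group N] {H : ι → Type u}
    [∀ i, Group (H i)] (n : ∀ i, N →* H i) (f : ∀ i, H i →* G)
    (hf : ∀ i i' c, f i (n i c) = f i' (n i' c))
    (hgen : ∀ P : G → Prop, P 1 → (∀ i a g, P g → P (f i a * g)) → ∀ g, P g)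
    {γ : ι → Type u} (r : ∀ i, γ i → H i)
    (hr : ∀ i a, ∃ (c : N) (o : Option (γ i)), a = n i c * o.elim 1 (r i)) (i : ι) (g : G) :
    ∃ (a : H i) (w : AW γ), w.hd ≠ some i ∧ g = f i a * wprod (fun k x => f k (r k x)) w := by
  have key : ∀ (j k : ι) (g : G),
      (∃ (a : H j) (w : AW γ), w.hd ≠ some j ∧ g = f j a * wprod (fun k x => f k (r k x)) w) →
      ∃ (a : H k) (w : AW γ), w.hd ≠ some k ∧ g = f k a * wprod (fun k x => f k (r k x)) w := by
    rintro j k g ⟨a, w, hw, rfl⟩
    by_cases hjk : j = k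
    · subst hjk
      exact ⟨a, w, hw, rfl⟩
    obtain ⟨c, o, rfl⟩ := hr j a
    rcases o with _ | x
    · simp only [Option.elim_none, mul_one]
      rw [hf j k c]
      rcases AW.eq_nil_or_cons w with rfl | ⟨m, x, w', hw', rfl⟩
      · exact ⟨n k c, AW.nil, by simp, rfl⟩
      · by_cases hm : m = k
        · subst hm
          exact ⟨n m c * r m x, w', hw', by rw [wprod_cons, map_mul, mul_assoc]⟩
        · exact ⟨n k c, _, by simp only [AW.hd_cons, ne_eq, Option.some.injEq]; exact hm, rfl⟩
    · refine ⟨n k c, AW.cons j x w hw, ?_, ?_⟩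
      · simp only [AW.hd_cons, ne_eq, Option.some.injEq]
        exact hjk
      · rw [wprod_cons, ← hf j k c]
        simp only [Option.elim_some, map_mul, mul_assoc]
  refine hgen (fun g => ∃ (a : H i) (w : AW γ), w.hd ≠ some i ∧
    g = f i a * wprod (fun k x => f k (r k x)) w) ⟨1, AW.nil, by simp, ?_⟩ ?_ g
  · rw [wprod_nil, map_one, mul_one]
  · intro k a g hg
    obtain ⟨b, w, hw, hb⟩ := key i k g hg
    exact key k i _ ⟨a * b, w, hw, by rw [hb, map_mul, mul_assoc]⟩

end Pool.Agent.Lib.MP_7b9603_alCF
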