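import Pool.Agent.Lib.MP_7b9603_alCF.C5

/-!
# B3: amalgams of groups and coproducts of rings
-/

set_option autoImplicit false

namespace Pool.Agent.Lib.MP_7b9603_alCF

universe u

open AW

/-- Right cosets of the image of `c` are left independent over `EC`. -/
def Ind {K : Type u} [Field K] {C G : Type u} [Group C] [Group G] {EC R : Type u} [Ring EC]
    [Ring R] (c : C →* G) (ι : EC →+* R) (φ : MonoidAlgebra K G →+* R) : Prop :=
  ∀ (s : Finset G) (e : G → EC), (∀ g ∈ s, ∀ g' ∈ s, g ≠ g' → g * g'⁻¹ ∉ c.range) →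
    ∑ g ∈ s, ι (e g) * φ (MonoidAlgebra.single g 1) = 0 → ∀ g ∈ s, e g = 0

private theorem B3_family {K : Type u} [Field K] {C G : Type u} [Group C] [Group G]
    {EC R : Type u} [Ring EC] [Ring R] {c : C →* G} {ι : EC →+* R}
    {φ : MonoidAlgebra K G →+* R} (h : Ind c ι φ) {α : Type*} (s : Finset α) (g : α → G)
    (e : α → EC) (hs : ∀ x ∈ s, ∀ y ∈ s, x ≠ y → g x * (g y)⁻¹ ∉ c.range)
    (h0 : ∑ x ∈ s, ι (e x) * φ (MonoidAlgebra.single (g x) 1) = 0) : ∀ x ∈ s, e x = 0 := by
  classical
  have hinj : ∀ x ∈ s, ∀ y ∈ s, g x = g y → x = y := by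
    intro x hx y hy hxy
    by_contra hne
    apply hs x hx y hy hne
    rw [hxy, mul_inv_cancel]
    exact one_mem _
  let e' : G → EC := fun a => if ha : ∃ x ∈ s, g x = a then e ha.choose else 0
  have he' : ∀ x ∈ s, e' (g x) = e x := by
    intro x hx
    have ha : ∃ y ∈ s, g y = g x := ⟨x, hx, rfl⟩
    have h1 : e' (g x) = e ha.choose := dif_pos ha
    rw [h1, hinj _ ha.choose_spec.1 _ hx ha.choose_spec.2]
  have h1 := h (s.image g) e' (by
    intro a ha b hb hab
    rw [Finset.mem_image] at ha hb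
    obtain ⟨x, hx, rfl⟩ := ha
    obtain ⟨y, hy, rfl⟩ := hb
    exact hs x hx y hy (fun hxy => hab (by rw [hxy]))) (by
    rw [Finset.sum_image (fun x hx y hy hxy => hinj x hx y hy hxy), ← h0]
    exact Finset.sum_congr rfl fun x hx => by rw [he' x hx])
  intro x hx
  rw [← he' x hx]
  exact h1 _ (Finset.mem_image_of_mem g hx)

private theorem B3_map_wprod {ι : Type} {γ : ι → Type u} {A B : Type*} [Monoid A] [Monoid B]
    (ψ : A →* B) (x : ∀ i, γ i → A) (w : AW γ) :
    ψ (wprod x w) = wprod (fun i y => ψ (x i y)) w := by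
  unfold wprod
  rw [map_list_prod, List.map_map]
  rfl

/-- The amalgam step. -/
theorem amalgam_step {I : Type} [Nonempty I] {K : Type u} [Field K] {G N : Type u} [Group G]
    [Group N] {H : I → Type u} [∀ i, Group (H i)] (n : ∀ i, N →* H i) (f : ∀ i, H i →* G)
    (hf : ∀ i i' c, f i (n i c) = f i' (n i' c))
    (hgen : ∀ P : G → Prop, P 1 → (∀ i a g, P g → P (f i a * g)) → ∀ g, P g)
    (hlift : ∀ (T : Type u) [Group T] (h : ∀ i, H i →* T),
      (∀ i i' c, h i (n i c) = h i' (n i' c)) → ∃ φ : G →* T, ∀ i a, φ (f i a) = h i a)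
    {E : Type u} [DivisionRing E] {R : I → Type u} [∀ i, Ring (R i)]
    [∀ i, NoZeroDivisors (R i)] [∀ i, Nontrivial (R i)] (j : ∀ i, E →+* R i)
    (oN : MonoidAlgebra K N →+* E) (φ : ∀ i, MonoidAlgebra K (H i) →+* R i)
    (hφ : ∀ i x, φ i (MonoidAlgebra.mapDomainRingHom K (n i) x) = j i (oN x))
    (hind : ∀ i, Ind (n i) (j i) (φ i)) :
    ∃ (T : Type u) (_ : Ring T) (κ : ∀ i, R i →+* T) (Φ : MonoidAlgebra K G →+* T),
      NoZeroDivisors T ∧ Nontrivial T ∧ (∀ i i' e, κ i (j i e) = κ i' (j i' e)) ∧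
      (∀ i x, Φ (MonoidAlgebra.mapDomainRingHom K (f i) x) = κ i (φ i x)) ∧
      ∀ (i : I) (C : Type u) [Group C] (c : C →* H i) (EC : Type u) [Ring EC]
        (ι : EC →+* R i), Ind c ι (φ i) → Ind ((f i).comp c) ((κ i).comp ι) Φ := by
  classical
  -- coset representatives
  let γ : I → Type u := fun i =>
    {q : Quotient (QuotientGroup.rightRel (n i).range) // q ≠ Quotient.mk _ 1}
  let r : ∀ i, γ i → H i := fun i q => q.1.out
  have hrel : ∀ i (a b : H i), (Quotient.mk (QuotientGroup.rightRel (n i).range) a =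
      Quotient.mk (QuotientGroup.rightRel (n i).range) b) ↔ b * a⁻¹ ∈ (n i).range := by
    intro i a b
    rw [Quotient.eq]
    exact QuotientGroup.rightRel_apply
  have hr : ∀ i a, ∃ (c : N) (o : Option (γ i)), a = n i c * o.elim 1 (r i) := by
    intro i a
    by_cases ha : a ∈ (n i).range
    · obtain ⟨c, hc⟩ := ha
      exact ⟨c, none, by simp [hc]⟩
    · have hq : Quotient.mk (QuotientGroup.rightRel (n i).range) a ≠ Quotient.mk _ 1 := by
        intro h
        rw [hrel i a 1, one_mul] at h
        exact ha (by simpa using (n i).range.inv_mem h)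
      have h1 : a * (r i ⟨_, hq⟩)⁻¹ ∈ (n i).range := by
        rw [← hrel i]
        exact Quotient.out_eq _
      obtain ⟨c, hc⟩ := h1
      exact ⟨c, some ⟨_, hq⟩, by rw [Option.elim_some, hc, inv_mul_cancel_right]⟩
  have hdist : ∀ i (o o' : Option (γ i)), o ≠ o' →
      (o.elim 1 (r i)) * (o'.elim 1 (r i))⁻¹ ∉ (n i).range := by
    intro i o o' hne hm
    rw [← hrel i] at hm
    rcases o with _ | o <;> rcases o' with _ | o'
    · exact hne rfl
    · simp only [Option.elim_none, Option.elim_some] at hm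
      exact o'.2 ((Quotient.out_eq _).symm.trans hm)
    · simp only [Option.elim_none, Option.elim_some] at hm
      exact o.2 ((Quotient.out_eq _).symm.trans hm.symm)
    · simp only [Option.elim_some] at hm
      apply hne
      have h1 : (o'.1 : Quotient (QuotientGroup.rightRel (n i).range)) = o.1 :=
        (Quotient.out_eq _).symm.trans (hm.trans (Quotient.out_eq _))
      rw [Subtype.ext h1]
  let x : ∀ i, γ i → R i := fun i y => φ i (MonoidAlgebra.single (r i y) 1)
  have hxo : ∀ i (o : Option (γ i)), (o.elim 1 (x i) : R i) =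
      φ i (MonoidAlgebra.single (o.elim 1 (r i)) 1) := by
    intro i o
    rcases o with _ | o
    · simp only [Option.elim_none]
      rw [← MonoidAlgebra.one_def, map_one]
    · rfl
  obtain ⟨T, hT, κ, hT1, hT2, hκ, hnf⟩ := exists_coprod j x (fun i s e h0 =>
    B3_family (hind i) s (fun o => o.elim 1 (r i)) e
      (fun o _ o' _ hne => hdist i o o' hne) (by
        rw [← h0]
        exact Finset.sum_congr rfl fun o _ => by rw [hxo]))
  obtain ⟨i0⟩ : Nonempty I := inferInstance
  -- the group homomorphism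
  obtain ⟨ψ, hψ⟩ := hlift Tˣ
    (fun i => ((((κ i).comp (φ i)) : MonoidAlgebra K (H i) →* T).comp
      (MonoidAlgebra.of K (H i))).toHomUnits) (by
    intro i i' c
    apply Units.ext
    have h1 : ∀ i, κ i (φ i (MonoidAlgebra.single (n i c) 1)) =
        κ i (j i (oN (MonoidAlgebra.single c 1))) := by
      intro i
      rw [← hφ]
      congr 2
      simp
    change κ i (φ i (MonoidAlgebra.single (n i c) 1)) =
      κ i' (φ i' (MonoidAlgebra.single (n i' c) 1))
    rw [h1 i, h1 i', hκ i i'])
  have hψ' : ∀ i a, ((ψ (f i a) : Tˣ) : T) = κ i (φ i (MonoidAlgebra.single a 1)) := by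
    intro i a
    rw [hψ i a]
    rfl
  let σ : K →+* T := (κ i0).comp ((φ i0).comp MonoidAlgebra.singleOneRingHom)
  have hσ : ∀ i k, κ i (φ i (MonoidAlgebra.single 1 k)) = σ k := by
    have h1 : ∀ i k, κ i (φ i (MonoidAlgebra.single 1 k)) =
        κ i (j i (oN (MonoidAlgebra.single 1 k))) := by
      intro i k
      rw [← hφ]
      congr 2
      simp
    intro i k
    rw [h1 i, hκ i i0, ← h1 i0]
    rfl
  have hcomm : ∀ k g, Commute (σ k) (((Units.coeHom T).comp ψ) g) := by
    intro k
    refine hgen (fun g => Commute (σ k) (((Units.coeHom T).comp ψ) g)) ?_ ?_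
    · rw [map_one]
      exact Commute.one_right _
    · intro i a g hg
      rw [map_mul]
      refine Commute.mul_right ?_ hg
      change Commute (σ k) ((ψ (f i a) : Tˣ) : T)
      rw [hψ' i a, ← hσ i k]
      change _ * _ = _ * _
      rw [← map_mul, ← map_mul, ← map_mul, ← map_mul]
      congr 2
      simp [MonoidAlgebra.single_mul_single]
  let Φ : MonoidAlgebra K G →+* T := MonoidAlgebra.liftNCRingHom σ ((Units.coeHom T).comp ψ) hcomm
  have hΦ : ∀ g k, Φ (MonoidAlgebra.single g k) = σ k * ((ψ g : Tˣ) : T) := by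
    intro g k
    exact MonoidAlgebra.liftNC_single _ _ _ _
  refine ⟨T, hT, κ, Φ, hT1, hT2, hκ, ?_, ?_⟩
  · intro i y
    have h1 : Φ.comp (MonoidAlgebra.mapDomainRingHom K (f i)) = (κ i).comp (φ i) := by
      apply MonoidAlgebra.ringHom_ext
      · intro k
        simp only [RingHom.comp_apply]
        rw [hσ i k, MonoidAlgebra.mapDomainRingHom_apply, MonoidAlgebra.mapDomain_single, map_one,
          hΦ, map_one, Units.val_one, mul_one]
      · intro a
        simp only [RingHom.comp_apply]
        rw [MonoidAlgebra.mapDomainRingHom_apply, MonoidAlgebra.mapDomain_single, hΦ, map_one,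
          one_mul, hψ']
    exact RingHom.congr_fun h1 y
  · intro i C _ c EC _ ι hI s e hs h0 g0 hg0
    choose a w hw hg using fun g => exists_nf n f hf hgen r hr i g
    have hΦ1 : ∀ g, Φ (MonoidAlgebra.single g 1) = κ i (φ i (MonoidAlgebra.single (a g) 1)) *
        wprod (fun k y => κ k (x k y)) (w g) := by
      intro g
      rw [hΦ, map_one, one_mul]
      conv_lhs => rw [hg g]
      rw [map_mul, Units.val_mul, hψ']
      congr 1
      change (Units.coeHom T) (ψ _) = _
      rw [B3_map_wprod, B3_map_wprod]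
      congr 1
      funext k y
      exact hψ' k _
    let F : AW γ → R i := fun v =>
      ∑ g ∈ s.filter (fun g => w g = v), ι (e g) * φ i (MonoidAlgebra.single (a g) 1)
    have hF := hnf i (s.image w) F (by
      intro v hv
      rw [Finset.mem_image] at hv
      obtain ⟨g, _, rfl⟩ := hv
      exact hw g) (by
      rw [← h0]
      rw [← Finset.sum_fiberwise_of_maps_to (s := s) (t := s.image w) (g := w)
        (fun g hg => Finset.mem_image_of_mem w hg)]
      refine Finset.sum_congr rfl fun v _ => ?_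
      rw [map_sum, Finset.sum_mul]
      refine Finset.sum_congr rfl fun g hg => ?_
      rw [Finset.mem_filter] at hg
      rw [hΦ1 g, hg.2, map_mul, mul_assoc, RingHom.comp_apply])
    refine B3_family hI (s.filter (fun g => w g = w g0)) a e ?_
      (hF (w g0) (Finset.mem_image_of_mem w hg0)) g0 (Finset.mem_filter.2 ⟨hg0, rfl⟩)
    rintro g hg1 g' hg1' hne ⟨d, hd⟩
    rw [Finset.mem_filter] at hg1 hg1'
    apply hs g hg1.1 g' hg1'.1 hne
    refine ⟨d, ?_⟩
    rw [MonoidHom.comp_apply, hd]
    conv_rhs => rw [hg g, hg g', hg1.2, hg1'.2]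
    rw [map_mul, map_inv, mul_inv_rev]
    group

end Pool.Agent.Lib.MP_7b9603_alCF
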