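import Mathlib

/-!
# C1: alternating words and the block decomposition
-/

set_option autoImplicit false

namespace Pool.Agent.Lib.MP_7b9603_alCF

universe u v w

variable {ι : Type v} (β : ι → Type u)

/-- Alternating words: two adjacent letters have different types. -/
def AW := {l : List (Σ i, β i) // l.IsChain (fun x y => x.1 ≠ y.1)}

variable {β}

namespace AW

/-- The type of the first letter. -/
def hd (w : AW β) : Option ι := w.1.head?.map Sigma.fst

def len (w : AW β) : ℕ := w.1.length

def nil : AW β := ⟨[], List.isChain_nil⟩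

/-- The tail. -/
def tl (w : AW β) : AW β := ⟨w.1.tail, w.2.tail⟩

theorem ext' {w w' : AW β} (h : w.1 = w'.1) : w = w' := Subtype.ext h

def cons (i : ι) (b : β i) (w : AW β) (h : w.hd ≠ some i) : AW β :=
  ⟨⟨i, b⟩ :: w.1, by
    obtain ⟨l, hl⟩ := w
    cases l with
    | nil => exact List.isChain_singleton _
    | cons y l =>
      rw [List.isChain_cons_cons]
      refine ⟨fun h' => h ?_, hl⟩
      simp only [hd, List.head?_cons, Option.map_some]
      exact congrArg some h'.symm⟩

@[simp] theorem hd_nil : (nil : AW β).hd = none := rfl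
@[simp] theorem len_nil : (nil : AW β).len = 0 := rfl
@[simp] theorem hd_cons (i : ι) (b : β i) (w : AW β) (h : w.hd ≠ some i) :
    (cons i b w h).hd = some i := rfl
@[simp] theorem len_cons (i : ι) (b : β i) (w : AW β) (h : w.hd ≠ some i) :
    (cons i b w h).len = w.len + 1 := rfl
@[simp] theorem tl_cons (i : ι) (b : β i) (w : AW β) (h : w.hd ≠ some i) :
    (cons i b w h).tl = w := rfl

/-- Put a letter of type `i` or nothing in front of a word not starting with type `i`. -/
def ins (i : ι) (x : {w : AW β // w.hd ≠ some i} × Option (β i)) : AW β :=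
  match x.2 with
  | none => x.1.1
  | some b => cons i b x.1.1 x.1.2

@[simp] theorem ins_none (i : ι) (w : {w : AW β // w.hd ≠ some i}) :
    ins i (w, none) = w.1 := rfl
@[simp] theorem ins_some (i : ι) (w : {w : AW β // w.hd ≠ some i}) (b : β i) :
    ins i (w, some b) = cons i b w.1 w.2 := rfl

theorem eq_nil_or_cons (w : AW β) : w = nil ∨ ∃ i b w' h, w = cons i b w' h := by
  obtain ⟨l, hl⟩ := w
  cases l with
  | nil => exact Or.inl rfl
  | cons x l =>
    refine Or.inr ⟨x.1, x.2, ⟨l, hl.tail⟩, ?_, rfl⟩
    cases l with
    | nil => simp [hd]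
    | cons y l =>
      rw [List.isChain_cons_cons] at hl
      simp only [hd, List.head?_cons, Option.map_some]
      intro h
      exact hl.1 (Option.some.inj h).symm

theorem ins_bijective (i : ι) : Function.Bijective (ins (β := β) i) := by
  constructor
  · rintro ⟨w, o⟩ ⟨w', o'⟩ h
    rcases o with _ | b <;> rcases o' with _ | b'
    · simp only [ins_none] at h
      rw [Subtype.ext h]
    · simp only [ins_none, ins_some] at h
      exact absurd (by rw [h]; rfl) w.2
    · simp only [ins_none, ins_some] at h
      exact absurd (by rw [← h]; rfl) w'.2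
    · simp only [ins_some] at h
      have h1 := congrArg Subtype.val h
      simp only [cons, List.cons.injEq, Sigma.mk.injEq, heq_eq_eq, true_and] at h1
      obtain ⟨rfl, h2⟩ := h1
      have : w = w' := Subtype.ext (Subtype.ext h2)
      rw [this]
  · intro w
    by_cases h : w.hd = some i
    · rcases eq_nil_or_cons w with rfl | ⟨j, b, w', hw', rfl⟩
      · simp at h
      · simp only [hd_cons, Option.some.injEq] at h
        subst h
        exact ⟨(⟨w', hw'⟩, some b), rfl⟩
    · exact ⟨(⟨w, h⟩, none), rfl⟩

noncomputable def split (i : ι) : {w : AW β // w.hd ≠ some i} × Option (β i) ≃ AW β :=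
  Equiv.ofBijective (ins i) (ins_bijective i)

@[simp] theorem split_apply (i : ι) (x : {w : AW β // w.hd ≠ some i} × Option (β i)) :
    split i x = ins i x := rfl

end AW

open AW

section block

variable {F : Type w} [Ring F] {M : ι → Type u} [∀ i, AddCommGroup (M i)] [∀ i, Module F (M i)]
  (b : ∀ i, Module.Basis (Option (β i)) F (M i))

/-- The block decomposition of the free module on the alternating words. -/
noncomputable def blk (i : ι) : (AW β →₀ F) ≃ₗ[F] ({w : AW β // w.hd ≠ some i} →₀ M i) :=
  (Finsupp.domLCongr (split i).symm).trans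
    ((Finsupp.curryLinearEquiv F).trans (Finsupp.mapRange.linearEquiv (b i).repr.symm))

theorem repr_blk (i : ι) (v : AW β →₀ F) (w : {w : AW β // w.hd ≠ some i}) (o : Option (β i)) :
    (b i).repr (blk b i v w) o = v (ins i (w, o)) := by
  simp only [blk, LinearEquiv.trans_apply, Finsupp.mapRange.linearEquiv_apply,
    Finsupp.mapRange_apply, LinearEquiv.apply_symm_apply]
  rfl

theorem blk_symm_apply (i : ι) (f : {w : AW β // w.hd ≠ some i} →₀ M i)
    (w : {w : AW β // w.hd ≠ some i}) (o : Option (β i)) :
    (blk b i).symm f (ins i (w, o)) = (b i).repr (f w) o := by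
  rw [← repr_blk b i, LinearEquiv.apply_symm_apply]

end block

end Pool.Agent.Lib.MP_7b9603_alCF
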