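import Pool.Agent.Lib.MP_7b9603_alCF.C1

/-!
# C2: the actions of the factors on the module of alternating words, heights
-/

set_option autoImplicit false
set_option linter.unusedSectionVars false

namespace Pool.Agent.Lib.MP_7b9603_alCF

universe u v w

open AW MulOpposite

variable {ι : Type v} {β : ι → Type u} {γ : ι → Type u}
variable {E : Type u} [DivisionRing E] {R : ι → Type u} [∀ i, Ring (R i)]
  [∀ i, Module E (R i)] [∀ i, IsScalarTower E (R i) (R i)]
  (b : ∀ i, Module.Basis (Option (β i)) E (R i))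

/-- The action of the factor `R i` on the module of alternating words. -/
noncomputable def act (i : ι) : R i →+* AddMonoid.End (AW β →₀ E) where
  toFun r := ((blk b i).symm.toAddEquiv.toAddMonoidHom).comp
    ((Module.toAddMonoidEnd (R i) ({w : AW β // w.hd ≠ some i} →₀ R i) r).comp
      (blk b i).toAddEquiv.toAddMonoidHom)
  map_one' := by
    apply AddMonoidHom.ext
    intro v
    change (blk b i).symm ((1 : R i) • blk b i v) = v
    rw [one_smul, LinearEquiv.symm_apply_apply]
  map_zero' := by
    apply AddMonoidHom.ext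
    intro v
    change (blk b i).symm ((0 : R i) • blk b i v) = 0
    rw [zero_smul, map_zero]
  map_mul' r s := by
    apply AddMonoidHom.ext
    intro v
    change (blk b i).symm ((r * s) • blk b i v) =
      (blk b i).symm (r • blk b i ((blk b i).symm (s • blk b i v)))
    rw [LinearEquiv.apply_symm_apply, mul_smul]
  map_add' r s := by
    apply AddMonoidHom.ext
    intro v
    change (blk b i).symm ((r + s) • blk b i v) =
      (blk b i).symm (r • blk b i v) + (blk b i).symm (s • blk b i v)
    rw [add_smul, map_add]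

theorem act_apply (i : ι) (r : R i) (v : AW β →₀ E) :
    act b i r v = (blk b i).symm (r • blk b i v) := rfl

theorem act_ins (i : ι) (r : R i) (v : AW β →₀ E) (w : {w : AW β // w.hd ≠ some i})
    (o : Option (β i)) : (act b i r v) (ins i (w, o)) = (b i).repr (r * blk b i v w) o := by
  rw [act_apply, blk_symm_apply]
  rfl

theorem act_smul (i : ι) (e : E) (v : AW β →₀ E) : act b i (e • (1 : R i)) v = e • v := by
  rw [act_apply]
  have h : (e • (1 : R i)) • blk b i v = e • blk b i v := by
    ext1 w
    change (e • (1 : R i)) * (blk b i v w) = e • (blk b i v w)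
    rw [smul_mul_assoc, one_mul]
  rw [h, map_smul, LinearEquiv.symm_apply_apply]

/-- All words of length at least `n` have coefficient zero. -/
def Lt (n : ℕ) (v : AW β →₀ E) : Prop := ∀ w, n ≤ w.len → v w = 0

theorem Lt.mono {n m : ℕ} {v : AW β →₀ E} (h : Lt n v) (hnm : n ≤ m) : Lt m v :=
  fun w hw => h w (hnm.trans hw)

theorem Lt.zero (n : ℕ) : Lt n (0 : AW β →₀ E) := fun _ _ => rfl

theorem Lt.add {n : ℕ} {v v' : AW β →₀ E} (h : Lt n v) (h' : Lt n v') : Lt n (v + v') := by
  intro w hw
  rw [Finsupp.add_apply, h w hw, h' w hw, add_zero]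

theorem Lt.neg {n : ℕ} {v : AW β →₀ E} (h : Lt n v) : Lt n (-v) := by
  intro w hw
  rw [Finsupp.neg_apply, h w hw, neg_zero]

theorem Lt.smul {n : ℕ} {v : AW β →₀ E} (h : Lt n v) (e : E) : Lt n (e • v) := by
  intro w hw
  rw [Finsupp.smul_apply, h w hw, smul_zero]

theorem Lt.sum {n : ℕ} {κ : Type*} (s : Finset κ) {y : κ → (AW β →₀ E)}
    (h : ∀ k ∈ s, Lt n (y k)) : Lt n (∑ k ∈ s, y k) := by
  intro w hw
  rw [Finsupp.finsetSum_apply]
  exact Finset.sum_eq_zero fun k hk => h k hk w hw

theorem Lt.eq_zero {v : AW β →₀ E} (h : Lt 0 v) : v = 0 := by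
  ext1 w
  exact h w (Nat.zero_le _)

theorem len_ins_le (i : ι) (x : {w : AW β // w.hd ≠ some i} × Option (β i)) :
    x.1.1.len ≤ (ins i x).len := by
  obtain ⟨w, _ | b'⟩ := x
  · exact le_rfl
  · exact Nat.le_succ _

theorem ins_len_le (i : ι) (x : {w : AW β // w.hd ≠ some i} × Option (β i)) :
    (ins i x).len ≤ x.1.1.len + 1 := by
  obtain ⟨w, _ | b'⟩ := x
  · exact Nat.le_succ _
  · exact le_rfl

theorem blk_eq_zero (i : ι) {n : ℕ} {v : AW β →₀ E} (h : Lt n v)
    (w : {w : AW β // w.hd ≠ some i}) (hw : n ≤ w.1.len) : blk b i v w = 0 := by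
  apply (b i).repr.injective
  ext1 o
  rw [repr_blk, map_zero, Finsupp.zero_apply]
  exact h _ (hw.trans (len_ins_le i (w, o)))

theorem lt_act {n : ℕ} {v : AW β →₀ E} (h : Lt n v) (i : ι) (r : R i) :
    Lt (n + 1) (act b i r v) := by
  intro z hz
  obtain ⟨⟨w, o⟩, rfl⟩ := (AW.ins_bijective i).2 z
  rw [act_ins, blk_eq_zero b i h w, mul_zero, map_zero, Finsupp.zero_apply]
  have := ins_len_le i (w, o)
  simp only at this
  omega

/-- top level, same type or not: words not starting with type `i` of maximal length. -/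
theorem act_top_other {n : ℕ} {v : AW β →₀ E} (h : Lt n v) (i : ι) (r : R i)
    (z : AW β) (hz : z.hd ≠ some i) (hn : n ≤ z.len) : act b i r v z = 0 := by
  have h1 := act_ins b i r v ⟨z, hz⟩ none
  rw [ins_none] at h1
  rw [h1, blk_eq_zero b i h ⟨z, hz⟩ hn, mul_zero, map_zero, Finsupp.zero_apply]

theorem blk_top (hb : ∀ i, b i none = 1) (i : ι) {n : ℕ} {v : AW β →₀ E} (h : Lt (n + 1) v)
    (w : {w : AW β // w.hd ≠ some i}) (hw : n ≤ w.1.len) : blk b i v w = v w.1 • (1 : R i) := by
  apply (b i).repr.injective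
  ext1 o
  rw [repr_blk, ← hb i, map_smul, Module.Basis.repr_self, Finsupp.smul_apply]
  rcases o with _ | b'
  · simp
  · rw [Finsupp.single_apply, if_neg (by simp), smul_zero]
    apply h
    change n + 1 ≤ w.1.len + 1
    omega

section right

variable [∀ i, Module Eᵐᵒᵖ (R i)] (c : ∀ i, Module.Basis (Option (γ i)) Eᵐᵒᵖ (R i))

/-- A letter of a right word acting. -/
noncomputable def rho (x : Σ i, γ i) : AddMonoid.End (AW β →₀ E) :=
  act b x.1 (c x.1 (some x.2))

/-- A right word (last letter at the head of the list) acting. -/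
noncomputable def UL : List (Σ i, γ i) → AddMonoid.End (AW β →₀ E)
  | [] => 1
  | x :: l => UL l * rho b c x

theorem lt_UL {n : ℕ} {v : AW β →₀ E} (h : Lt n v) (l : List (Σ i, γ i)) :
    Lt (n + l.length) (UL b c l v) := by
  induction l generalizing n v with
  | nil => exact h
  | cons x l ih =>
    have h1 : Lt (n + 1) (rho b c x v) := lt_act b h x.1 _
    have h2 := ih h1
    rw [List.length_cons]
    have h3 : (UL b c (x :: l)) v = (UL b c l) (rho b c x v) := rfl
    rw [h3]
    exact h2.mono (by omega)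

open Classical in
/-- The value in `R i` of a letter. -/
noncomputable def val (i : ι) (x : Σ i, γ i) : R i :=
  if h : x.1 = i then h ▸ c x.1 (some x.2) else 0

theorem val_self (i : ι) (g : γ i) : val c i ⟨i, g⟩ = c i (some g) := by
  simp [val]

theorem val_ne {i : ι} {x : Σ i, γ i} (h : x.1 ≠ i) : val c i x = 0 := by
  simp [val, h]

theorem rho_top (hb : ∀ i, b i none = 1) (x : Σ i, γ i) {n : ℕ} {v : AW β →₀ E}
    (h : Lt (n + 1) v) (i : ι) (w : {w : AW β // w.hd ≠ some i}) (hw : n ≤ w.1.len) (b' : β i) :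
    rho b c x v (ins i (w, some b')) =
      (b i).repr (val c i x * (v w.1 • (1 : R i))) (some b') := by
  obtain ⟨k, g⟩ := x
  by_cases hk : k = i
  · subst hk
    rw [val_self, ← blk_top b hb k h w hw]
    exact act_ins b k _ v w (some b')
  · rw [val_ne c (by exact hk), zero_mul, map_zero, Finsupp.zero_apply]
    refine act_top_other b h k _ _ ?_ ?_
    · rw [ins_some, hd_cons]
      intro h'
      exact hk (Option.some.inj h').symm
    · rw [ins_some, len_cons]
      omega

open Classical in
theorem repr_val (hop : ∀ i (e : E) (x : R i), (op e) • x = x * (e • (1 : R i))) (i : ι)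
    (x : Σ i, γ i) (e : E) (g : γ i) :
    (c i).repr (val c i x * (e • (1 : R i))) (some g) = if x = ⟨i, g⟩ then op e else 0 := by
  classical
  obtain ⟨k, g'⟩ := x
  by_cases hk : k = i
  · subst hk
    rw [val_self, ← hop, map_smul, Module.Basis.repr_self, Finsupp.smul_apply,
      Finsupp.single_apply]
    by_cases hg : g' = g
    · subst hg; simp
    · have h1 : ¬ (some g' = some g) := fun h => hg (Option.some.inj h)
      have h2 : ¬ ((⟨k, g'⟩ : Σ i, γ i) = ⟨k, g⟩) := by
        intro h
        simp only [Sigma.mk.injEq, heq_eq_eq, true_and] at h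
        exact hg h
      rw [if_neg h1, if_neg h2, smul_zero]
  · rw [val_ne c (by exact hk), zero_mul, map_zero, Finsupp.zero_apply, if_neg]
    intro h
    exact hk (congrArg Sigma.fst h)

/-- Top independence for one letter. -/
theorem top_one (hb : ∀ i, b i none = 1) (hc : ∀ i, c i none = 1)
    (hop : ∀ i (e : E) (x : R i), (op e) • x = x * (e • (1 : R i)))
    {κ : Type*} (s : Finset κ) (L : κ → Σ i, γ i) (hL : Set.InjOn L s) (y : κ → (AW β →₀ E))
    (q : ℕ) (h1 : ∀ k ∈ s, Lt (q + 1) (y k))
    (h2 : ∀ k ∈ s, ∀ w : AW β, w.len = q → w.hd = some (L k).1 → y k w = 0)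
    (h3 : Lt (q + 1) (∑ k ∈ s, rho b c (L k) (y k))) : ∀ k ∈ s, Lt q (y k) := by
  classical
  intro k0 hk0 w hw
  rcases Nat.lt_or_ge q w.len with hw' | hw'
  · exact h1 k0 hk0 w hw'
  have hwq : w.len = q := le_antisymm hw' hw
  by_cases hhd : w.hd = some (L k0).1
  · exact h2 k0 hk0 w hwq hhd
  obtain ⟨i, g0, hx0⟩ : ∃ i g0, L k0 = ⟨i, g0⟩ := ⟨(L k0).1, (L k0).2, rfl⟩
  rw [hx0] at hhd
  let W : {w : AW β // w.hd ≠ some i} := ⟨w, hhd⟩
  let r : R i := ∑ k ∈ s, val c i (L k) * (y k w • (1 : R i))
  have hr : ∀ b' : β i, (b i).repr r (some b') = 0 := by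
    intro b'
    have e1 := h3 (ins i (W, some b')) (by
      rw [ins_some, len_cons]
      change q + 1 ≤ w.len + 1
      omega)
    rw [Finsupp.finsetSum_apply] at e1
    rw [← e1]
    simp only [r, map_sum, Finsupp.finsetSum_apply]
    refine Finset.sum_congr rfl fun k hk => ?_
    exact (rho_top b c hb (L k) (h1 k hk) i W (le_of_eq hwq.symm) b').symm
  have hr2 : r = (b i).repr r none • (1 : R i) := by
    apply (b i).repr.injective
    ext1 o
    rw [← hb i, map_smul, Module.Basis.repr_self, Finsupp.smul_apply]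
    rcases o with _ | b'
    · simp
    · rw [hr, Finsupp.single_apply, if_neg (by simp), smul_zero]
  have hr3 : (c i).repr r (some g0) = 0 := by
    rw [hr2]
    have e2 : (b i).repr r none • (1 : R i) = (op ((b i).repr r none)) • (1 : R i) := by
      rw [hop, one_mul]
    rw [e2, ← hc i, map_smul, Module.Basis.repr_self, Finsupp.smul_apply, Finsupp.single_apply,
      if_neg (by simp), smul_zero]
  have hr4 : (c i).repr r (some g0) = op (y k0 w) := by
    simp only [r, map_sum, Finsupp.finsetSum_apply]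
    rw [Finset.sum_eq_single_of_mem k0 hk0]
    · rw [repr_val c hop, if_pos hx0]
    · intro k hk hne
      rw [repr_val c hop, if_neg]
      intro h
      exact hne (hL hk hk0 (h.trans hx0.symm))
  rw [hr3] at hr4
  exact (op_eq_zero_iff _).1 hr4.symm

end right

end Pool.Agent.Lib.MP_7b9603_alCF
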