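import Pool.Agent.Lib.MP_7b9603_alCF.C2

/-!
# C3: top independence for right words
-/

set_option autoImplicit false
set_option linter.unusedSectionVars false

namespace Pool.Agent.Lib.MP_7b9603_alCF

universe u v w

open AW MulOpposite

variable {ι : Type v} {β : ι → Type u} {γ : ι → Type u}
variable {E : Type u} [DivisionRing E] {R : ι → Type u} [∀ i, Ring (R i)]
  [∀ i, Module E (R i)] [∀ i, IsScalarTower E (R i) (R i)]
  (b : ∀ i, Module.Basis (Option (β i)) E (R i))
variable [∀ i, Module Eᵐᵒᵖ (R i)] (c : ∀ i, Module.Basis (Option (γ i)) Eᵐᵒᵖ (R i))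

/-- The first letter of a nonempty word acting. -/
noncomputable def opw (u : AW γ) : AddMonoid.End (AW β →₀ E) :=
  match u.1 with
  | [] => 0
  | x :: _ => rho b c x

theorem UL_eq (u : AW γ) (hu : u.1 ≠ []) (v : AW β →₀ E) :
    UL b c u.1 v = UL b c u.tl.1 (opw b c u v) := by
  obtain ⟨l, hl⟩ := u
  cases l with
  | nil => exact absurd rfl hu
  | cons x l => rfl

open Classical in
theorem top_all (hb : ∀ i, b i none = 1) (hc : ∀ i, c i none = 1)
    (hop : ∀ i (e : E) (x : R i), (op e) • x = x * (e • (1 : R i))) (p : ℕ) :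
    ∀ (q : ℕ) (s : Finset (AW γ)) (Y : AW γ → (AW β →₀ E)), (∀ u ∈ s, u.len = p) →
      (∀ u ∈ s, Lt (q + 1) (Y u)) →
      (∀ u ∈ s, ∀ w : AW β, w.len = q → ∀ i, w.hd = some i → u.hd = some i → Y u w = 0) →
      Lt (p + q) (∑ u ∈ s, UL b c u.1 (Y u)) → ∀ u ∈ s, Lt q (Y u) := by
  induction p with
  | zero =>
    intro q s Y hs _ _ hsum u hu
    have hnil : ∀ u ∈ s, u = nil := by
      intro u hu
      apply AW.ext'
      exact List.eq_nil_of_length_eq_zero (hs u hu)
    have hs1 : s = {nil} := by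
      apply Finset.eq_singleton_iff_unique_mem.2
      exact ⟨hnil u hu ▸ hu, hnil⟩
    rw [hs1, Finset.sum_singleton, zero_add] at hsum
    rw [hnil u hu]
    exact hsum
  | succ p ih =>
    intro q s Y hs hY hY2 hsum u0 hu0
    have hne : ∀ u ∈ s, u.1 ≠ [] := by
      intro u hu h
      have := hs u hu
      rw [AW.len, h] at this
      simp at this
    let Y' : AW γ → (AW β →₀ E) := fun u' => ∑ u ∈ s with u.tl = u', opw b c u (Y u)
    have hop' : ∀ u ∈ s, ∃ k g u' h, u = AW.cons k g u' h := by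
      intro u hu
      rcases AW.eq_nil_or_cons u with rfl | h
      · exact absurd rfl (hne _ hu)
      · exact h
    have e1 : ∑ u ∈ s, UL b c u.1 (Y u) = ∑ u' ∈ s.image AW.tl, UL b c u'.1 (Y' u') := by
      rw [← Finset.sum_fiberwise_of_maps_to (t := s.image AW.tl) (g := AW.tl)
        (fun u hu => Finset.mem_image_of_mem AW.tl hu)]
      refine Finset.sum_congr rfl fun u' _ => ?_
      simp only [Y', map_sum]
      refine Finset.sum_congr rfl fun u hu => ?_
      rw [Finset.mem_filter] at hu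
      rw [UL_eq b c u (hne u hu.1), hu.2]
    have h1 := ih (q + 1) (s.image AW.tl) Y' (by
        intro u' hu'
        obtain ⟨u, hu, rfl⟩ := Finset.mem_image.1 hu'
        obtain ⟨k, g, u', h, rfl⟩ := hop' u hu
        have := hs _ hu
        rw [len_cons] at this
        rw [tl_cons]
        omega)
      (by
        intro u' _
        refine Lt.sum _ fun u hu => ?_
        rw [Finset.mem_filter] at hu
        obtain ⟨k, g, u'', h, rfl⟩ := hop' u hu.1
        exact lt_act b (hY _ hu.1) k _)
      (by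
        intro u' _ w hw i hwi hui
        simp only [Y']
        rw [Finsupp.finsetSum_apply]
        refine Finset.sum_eq_zero fun u hu => ?_
        rw [Finset.mem_filter] at hu
        obtain ⟨k, g, u'', h, rfl⟩ := hop' u hu.1
        rw [tl_cons] at hu
        obtain ⟨hu1, rfl⟩ := hu
        refine act_top_other b (hY _ hu1) k _ w ?_ (le_of_eq hw.symm)
        rw [hwi, ← hui]
        exact h)
      (by
        rw [← e1]
        exact hsum.mono (by omega))
    obtain ⟨k0, g0, u0', h0, hu00⟩ := hop' u0 hu0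
    have h2 := h1 u0' (by
      rw [Finset.mem_image]
      exact ⟨u0, hu0, by rw [hu00, tl_cons]⟩)
    let L : AW γ → Σ i, γ i := fun u => match u.1 with
      | [] => ⟨k0, g0⟩
      | x :: _ => x
    refine top_one b c hb hc hop (s.filter fun u => u.tl = u0') L ?_ Y q ?_ ?_ ?_ u0 ?_
    · intro u hu u' hu' huu
      simp only [Finset.coe_filter, Set.mem_ofPred_eq] at hu hu'
      obtain ⟨k, g, v, h, rfl⟩ := hop' u hu.1
      obtain ⟨k', g', v', h', rfl⟩ := hop' u' hu'.1
      rw [tl_cons] at hu hu'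
      obtain ⟨_, rfl⟩ := hu
      obtain ⟨_, rfl⟩ := hu'
      have huu2 : (⟨k, g⟩ : Σ i, γ i) = ⟨k', g'⟩ := huu
      apply AW.ext'
      change (⟨k, g⟩ : Σ i, γ i) :: _ = (⟨k', g'⟩ : Σ i, γ i) :: _
      rw [huu2]
    · intro u hu
      exact hY u (Finset.mem_filter.1 hu).1
    · intro u hu w hw hwi
      have hu1 := (Finset.mem_filter.1 hu).1
      refine hY2 u hu1 w hw _ hwi ?_
      obtain ⟨k, g, v, h, rfl⟩ := hop' u hu1
      rfl
    · have e2 : ∑ u ∈ s with u.tl = u0', rho b c (L u) (Y u) = Y' u0' := by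
        refine Finset.sum_congr rfl fun u hu => ?_
        obtain ⟨k, g, v, h, rfl⟩ := hop' u (Finset.mem_filter.1 hu).1
        rfl
      rw [e2]
      exact h2
    · rw [Finset.mem_filter]
      exact ⟨hu0, by rw [hu00, tl_cons]⟩

end Pool.Agent.Lib.MP_7b9603_alCF
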