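import Pool.Agent.Lib.MP_7b9603_alCF.C3

/-!
# C4: the module of alternating words is torsion free
-/

set_option autoImplicit false
set_option linter.unusedSectionVars false

namespace Pool.Agent.Lib.MP_7b9603_alCF

universe u v w

open AW MulOpposite

variable {ι : Type v} {β : ι → Type u} {γ : ι → Type u}
variable {E : Type u} [DivisionRing E] {R : ι → Type u} [∀ i, Ring (R i)]
  [∀ i, Module E (R i)] [∀ i, IsScalarTower E (R i) (R i)]
  (b : ∀ i, Module.Basis (Option (β i)) E (R i))
variable [∀ i, Module Eᵐᵒᵖ (R i)] (c : ∀ i, Module.Basis (Option (γ i)) Eᵐᵒᵖ (R i))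

theorem end_sum_apply {A κ : Type*} [AddCommMonoid A] (s : Finset κ) (F : κ → AddMonoid.End A)
    (v : A) : (∑ k ∈ s, F k) v = ∑ k ∈ s, F k v := by
  classical
  induction s using Finset.induction_on with
  | empty => simp
  | insert k s hk ih =>
    rw [Finset.sum_insert hk, Finset.sum_insert hk, ← ih]
    rfl

/-- Scalar multiplication as an endomorphism. -/
noncomputable def sme : E →+* AddMonoid.End (AW β →₀ E) := Module.toAddMonoidEnd E (AW β →₀ E)

theorem sme_apply (e : E) (v : AW β →₀ E) : sme e v = e • v := rfl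

theorem act_smul' (i : ι) (e : E) : act b i (e • (1 : R i)) = sme e := by
  apply AddMonoidHom.ext
  intro v
  exact act_smul b i e v

/-- The action of a combination of right words. -/
noncomputable def ev : (AW γ →₀ Eᵐᵒᵖ) →+ AddMonoid.End (AW β →₀ E) :=
  Finsupp.liftAddHom fun u =>
    { toFun := fun e => UL b c u.1 * sme (unop e)
      map_zero' := by rw [unop_zero, map_zero, mul_zero]
      map_add' := fun e e' => by rw [unop_add, map_add, mul_add] }

theorem ev_single (u : AW γ) (e : Eᵐᵒᵖ) : ev b c (Finsupp.single u e) = UL b c u.1 * sme (unop e) := by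
  rw [ev, Finsupp.liftAddHom_apply_single]
  rfl

theorem ev_apply (a : AW γ →₀ Eᵐᵒᵖ) (v : AW β →₀ E) :
    ev b c a v = ∑ u ∈ a.support, UL b c u.1 (unop (a u) • v) := by
  rw [ev, Finsupp.liftAddHom_apply, Finsupp.sum]
  exact end_sum_apply _ _ _

/-- The action in terms of blocks. -/
noncomputable def evb (i : ι) : ({u : AW γ // u.hd ≠ some i} →₀ R i) →+ AddMonoid.End (AW β →₀ E) :=
  Finsupp.liftAddHom fun u =>
    { toFun := fun r => UL b c u.1.1 * act b i r
      map_zero' := by rw [map_zero, mul_zero]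
      map_add' := fun r r' => by rw [map_add, mul_add] }

theorem evb_single (i : ι) (u : {u : AW γ // u.hd ≠ some i}) (r : R i) :
    evb b c i (Finsupp.single u r) = UL b c u.1.1 * act b i r := by
  rw [evb, Finsupp.liftAddHom_apply_single]
  rfl

theorem evb_apply (i : ι) (f : {u : AW γ // u.hd ≠ some i} →₀ R i) (v : AW β →₀ E) :
    evb b c i f v = ∑ u ∈ f.support, UL b c u.1.1 (act b i (f u) v) := by
  rw [evb, Finsupp.liftAddHom_apply, Finsupp.sum]
  exact end_sum_apply _ _ _

theorem blk_single (i : ι) (u : {u : AW γ // u.hd ≠ some i}) (o : Option (γ i)) (e : Eᵐᵒᵖ) :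
    blk c i (Finsupp.single (ins i (u, o)) e) = Finsupp.single u (e • c i o) := by
  apply (blk c i).symm.injective
  rw [LinearEquiv.symm_apply_apply]
  classical
  ext1 z
  obtain ⟨⟨u', o'⟩, rfl⟩ := (AW.ins_bijective i).2 z
  rw [blk_symm_apply]
  by_cases h : u' = u
  · subst h
    rw [Finsupp.single_eq_same, map_smul, Module.Basis.repr_self, Finsupp.smul_apply,
      Finsupp.single_apply, Finsupp.single_apply]
    by_cases h2 : o = o'
    · subst h2; simp
    · rw [if_neg h2, if_neg, smul_zero]
      intro h3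
      exact h2 (Prod.ext_iff.1 ((AW.ins_bijective i).1 h3)).2
  · rw [Finsupp.single_eq_of_ne h, map_zero, Finsupp.zero_apply, Finsupp.single_apply, if_neg]
    intro h3
    exact h (Prod.ext_iff.1 ((AW.ins_bijective i).1 h3)).1.symm

theorem ev_eq_evb (hc : ∀ i, c i none = 1)
    (hop : ∀ i (e : E) (x : R i), (op e) • x = x * (e • (1 : R i))) (i : ι) (a : AW γ →₀ Eᵐᵒᵖ) :
    ev b c a = evb b c i (blk c i a) := by
  induction a using Finsupp.induction_linear with
  | zero => simp
  | add a a' h h' => rw [map_add, h, h', map_add, map_add]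
  | single z e =>
    obtain ⟨⟨u, o⟩, rfl⟩ := (AW.ins_bijective i).2 z
    rw [ev_single, blk_single, evb_single]
    have h1 : e • c i o = c i o * (unop e • (1 : R i)) := hop i (unop e) (c i o)
    rw [h1, map_mul, act_smul', ← mul_assoc]
    congr 1
    rcases o with _ | g
    · rw [hc, map_one, mul_one, ins_none]
    · rfl

theorem act_top_same (hb : ∀ i, b i none = 1) {q : ℕ} {v : AW β →₀ E} (h : Lt (q + 1) v) (i : ι)
    (h2 : ∀ w : AW β, w.len = q → w.hd ≠ some i → v w = 0) (r : R i) :
    Lt (q + 1) (act b i r v) := by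
  intro z hz
  obtain ⟨⟨w, o⟩, rfl⟩ := (AW.ins_bijective i).2 z
  rw [act_ins]
  have h3 : blk b i v w = 0 := by
    have h4 : q ≤ w.1.len := by
      have := ins_len_le i (w, o)
      simp only at this
      omega
    rw [blk_top b hb i h w h4]
    rcases Nat.lt_or_ge q w.1.len with h5 | h5
    · rw [h w.1 h5, zero_smul]
    · rw [h2 w.1 (le_antisymm h5 h4) w.2, zero_smul]
  rw [h3, mul_zero, map_zero, Finsupp.zero_apply]

/-- The top words of `a` and `y` have the same type if `ev a y` has no term of maximal length. -/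
theorem heads (hb : ∀ i, b i none = 1) (hc : ∀ i, c i none = 1)
    (hop : ∀ i (e : E) (x : R i), (op e) • x = x * (e • (1 : R i))) (p q : ℕ)
    (a : AW γ →₀ Eᵐᵒᵖ) (y : AW β →₀ E) (ha : Lt (p + 1) a) (hy : Lt (q + 1) y)
    (hz : Lt (p + q) (ev b c a y)) (u : AW γ) (hu : u.len = p) (hau : a u ≠ 0) (w : AW β)
    (hw : w.len = q) (hyw : y w ≠ 0) : ∃ i, u.hd = some i ∧ w.hd = some i := by
  classical
  by_contra hcon
  let Y : AW γ → (AW β →₀ E) := fun u => unop (a u) •
    y.filter (fun w => w.len = q ∧ ¬ ∃ i, u.hd = some i ∧ w.hd = some i)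
  let s : Finset (AW γ) := a.support.filter (fun u => u.len = p)
  let D : AW γ → (AW β →₀ E) := fun u => UL b c u.1 (unop (a u) • y) -
    (if u.len = p then UL b c u.1 (Y u) else 0)
  have hsub : ∀ u ∈ a.support, u.len ≤ p := by
    intro u hu
    by_contra h
    exact (Finsupp.mem_support_iff.1 hu) (ha u (by omega))
  have hD : ∀ u ∈ a.support, Lt (p + q) (D u) := by
    intro u hu
    by_cases hp : u.len = p
    · simp only [D, if_pos hp]
      let v : AW β →₀ E := unop (a u) • y - Y u
      have hv : UL b c u.1 (unop (a u) • y) - UL b c u.1 (Y u) = UL b c u.1 v := by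
        rw [← map_sub]
      rw [hv]
      have hv1 : Lt (q + 1) v := by
        intro w hw
        simp only [v, Y, Finsupp.sub_apply, Finsupp.smul_apply, Finsupp.filter_apply]
        rw [hy w hw]
        simp
      have hv2 : ∀ w : AW β, w.len = q → (¬ ∃ i, u.hd = some i ∧ w.hd = some i) → v w = 0 := by
        intro w hw h
        simp only [v, Y, Finsupp.sub_apply, Finsupp.smul_apply, Finsupp.filter_apply]
        rw [if_pos ⟨hw, h⟩, sub_self]
      rcases AW.eq_nil_or_cons u with rfl | ⟨i, g, u', h', rfl⟩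
      · rw [len_nil] at hp
        subst hp
        rw [zero_add]
        intro w hw
        change v w = 0
        rcases Nat.lt_or_ge q w.len with h5 | h5
        · exact hv1 w h5
        · refine hv2 w (le_antisymm h5 hw) ?_
          rintro ⟨i, hi, _⟩
          simp at hi
      · have h1 : Lt (q + 1) (act b i (c i (some g)) v) := by
          refine act_top_same b hb hv1 i ?_ _
          intro w hw hwi
          refine hv2 w hw ?_
          rintro ⟨k, hk, hk'⟩
          rw [hd_cons] at hk
          rw [← hk] at hk'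
          exact hwi hk'
        have h2 := lt_UL b c h1 u'.1
        have h3 : (UL b c (AW.cons i g u' h').1) v = (UL b c u'.1) (act b i (c i (some g)) v) := rfl
        rw [h3]
        refine h2.mono ?_
        have h4 : u'.1.length + 1 = p := hp
        omega
    · simp only [D, if_neg hp, sub_zero]
      have h1 := lt_UL b c (hy.smul (unop (a u))) u.1
      refine h1.mono ?_
      have h4 : u.1.length ≤ p := hsub u hu
      have h5 : u.1.length ≠ p := hp
      omega
  have hsum : ∑ u ∈ s, UL b c u.1 (Y u) = ev b c a y + -(∑ u ∈ a.support, D u) := by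
    rw [ev_apply]
    simp only [D, Finset.sum_sub_distrib, s]
    rw [Finset.sum_filter]
    abel
  have htop : Lt (p + q) (∑ u ∈ s, UL b c u.1 (Y u)) := by
    rw [hsum]
    exact hz.add (Lt.sum _ hD).neg
  have h1 := top_all b c hb hc hop p q s Y
    (fun u hu => (Finset.mem_filter.1 hu).2)
    (by
      intro u _ w hw
      simp only [Y, Finsupp.smul_apply, Finsupp.filter_apply]
      rw [hy w hw]
      simp)
    (by
      intro u _ w hw i hwi hui
      simp only [Y, Finsupp.smul_apply, Finsupp.filter_apply]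
      rw [if_neg, smul_zero]
      rintro ⟨_, h⟩
      exact h ⟨i, hui, hwi⟩)
    htop u (Finset.mem_filter.2 ⟨Finsupp.mem_support_iff.2 hau, hu⟩)
  have h2 := h1 w (le_of_eq hw.symm)
  simp only [Y, Finsupp.smul_apply, Finsupp.filter_apply] at h2
  rw [if_pos ⟨hw, hcon⟩, smul_eq_mul] at h2
  rcases mul_eq_zero.1 h2 with h3 | h3
  · exact hau ((unop_eq_zero_iff _).1 h3)
  · exact hyw h3

theorem evb_mul (i : ι) (f : {u : AW γ // u.hd ≠ some i} →₀ R i) (s : R i) :
    evb b c i (f.mapRange (· * s) (zero_mul s)) = evb b c i f * act b i s := by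
  induction f using Finsupp.induction_linear with
  | zero => rw [Finsupp.mapRange_zero, map_zero, zero_mul]
  | add f g hf hg =>
    rw [Finsupp.mapRange_add (fun x y => add_mul x y s), map_add, hf, hg, map_add, add_mul]
  | single u r =>
    rw [Finsupp.mapRange_single, evb_single, evb_single, map_mul, mul_assoc]

theorem blk_hi {F : Type w} [Ring F] {δ : ι → Type u} {M : ι → Type u} [∀ i, AddCommGroup (M i)]
    [∀ i, Module F (M i)] (d : ∀ i, Module.Basis (Option (δ i)) F (M i)) (i : ι) (p : ℕ)
    (a : AW δ →₀ F) (ha : ∀ u : AW δ, p + 1 < u.len → a u = 0)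
    (ha2 : ∀ u : AW δ, u.len = p + 1 → u.hd ≠ some i → a u = 0)
    (u : {u : AW δ // u.hd ≠ some i}) (hu : p + 1 ≤ u.1.len) : blk d i a u = 0 := by
  apply (d i).repr.injective
  ext1 o
  rw [repr_blk, map_zero, Finsupp.zero_apply]
  rcases o with _ | g
  · rw [ins_none]
    rcases Nat.lt_or_ge (p + 1) u.1.len with h | h
    · exact ha _ h
    · exact ha2 _ (le_antisymm h hu) u.2
  · apply ha
    rw [ins_some, len_cons]
    omega

/-- The module of alternating words is torsion free. -/
theorem torsion_free (hb : ∀ i, b i none = 1) (hc : ∀ i, c i none = 1)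
    (hop : ∀ i (e : E) (x : R i), (op e) • x = x * (e • (1 : R i)))
    [∀ i, NoZeroDivisors (R i)] [∀ i, Nontrivial (R i)] (n : ℕ) :
    ∀ (p q : ℕ) (a : AW γ →₀ Eᵐᵒᵖ) (y : AW β →₀ E), p + q = n → Lt (p + 1) a → Lt (q + 1) y →
      ev b c a y = 0 → a = 0 ∨ y = 0 := by
  classical
  induction n using Nat.strong_induction_on with
  | _ n ih =>
  intro p q a y hn ha hy h0
  by_cases hpa : Lt p a
  · rcases p with _ | p
    · exact Or.inl hpa.eq_zero
    · exact ih (p + q) (by omega) p q a y rfl hpa hy h0
  by_cases hqy : Lt q y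
  · rcases q with _ | q
    · exact Or.inr hqy.eq_zero
    · exact ih (p + q) (by omega) p q a y rfl ha hqy h0
  exfalso
  unfold Lt at hpa hqy
  push Not at hpa hqy
  obtain ⟨u0, hu0, hau0⟩ := hpa
  obtain ⟨w0, hw0, hyw0⟩ := hqy
  have hu0' : u0.len = p := by
    by_contra h
    exact hau0 (ha u0 (by omega))
  have hw0' : w0.len = q := by
    by_contra h
    exact hyw0 (hy w0 (by omega))
  have hz : Lt (p + q) (ev b c a y) := by rw [h0]; exact Lt.zero _
  have hheads := heads b c hb hc hop p q a y ha hy hz
  obtain ⟨i, hui, hwi⟩ := hheads u0 hu0' hau0 w0 hw0' hyw0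
  have hutop : ∀ u : AW γ, u.len = p → u.hd ≠ some i → a u = 0 := by
    intro u hu hne
    by_contra h
    obtain ⟨k, hk, hk'⟩ := hheads u hu h w0 hw0' hyw0
    rw [hwi] at hk'
    exact hne (hk.trans hk'.symm)
  have hwtop : ∀ w : AW β, w.len = q → w.hd ≠ some i → y w = 0 := by
    intro w hw hne
    by_contra h
    obtain ⟨k, hk, hk'⟩ := hheads u0 hu0' hau0 w hw h
    rw [hui] at hk
    exact hne (hk'.trans hk.symm)
  rcases AW.eq_nil_or_cons u0 with rfl | ⟨i', g0, u0', hu0h, rfl⟩
  · simp at hui
  obtain rfl : i = i' := by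
    rw [hd_cons] at hui
    exact (Option.some.inj hui).symm
  rcases AW.eq_nil_or_cons w0 with rfl | ⟨k', b0, w0', hw0h, rfl⟩
  · simp at hwi
  obtain rfl : i = k' := by
    rw [hd_cons] at hwi
    exact (Option.some.inj hwi).symm
  obtain ⟨p', rfl⟩ : ∃ p', p = p' + 1 := ⟨u0'.len, by rw [← hu0', len_cons]⟩
  obtain ⟨q', rfl⟩ : ∃ q', q = q' + 1 := ⟨w0'.len, by rw [← hw0', len_cons]⟩
  rw [len_cons] at hu0' hw0'
  have hu0l : u0'.len = p' := by omega
  have hw0l : w0'.len = q' := by omega
  let f := blk c i a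
  let φ := blk b i y
  have hf0 : ∀ u, p' + 1 ≤ u.1.len → f u = 0 := blk_hi c i p' a
    (fun u hu => ha u (by omega)) hutop
  have hφ0 : ∀ w, q' + 1 ≤ w.1.len → φ w = 0 := blk_hi b i q' y
    (fun w hw => hy w (by omega)) hwtop
  have hYlt : ∀ r : R i, Lt (q' + 1 + 1) (act b i r y) := by
    intro r z hz
    obtain ⟨⟨w, o⟩, rfl⟩ := (AW.ins_bijective i).2 z
    rw [act_ins]
    have h3 : φ w = 0 := hφ0 w (by
      have := ins_len_le i (w, o)
      simp only at this
      omega)
    change (b i).repr (r * φ w) o = 0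
    rw [h3, mul_zero, map_zero, Finsupp.zero_apply]
  have key : ∀ (u : {u : AW γ // u.hd ≠ some i}) (w : {w : AW β // w.hd ≠ some i}),
      u.1.len = p' → w.1.len = q' → ∃ e : E, f u * φ w = e • (1 : R i) := by
    intro u w hu hw
    by_cases hfu : f u = 0
    · exact ⟨0, by rw [hfu, zero_mul, zero_smul]⟩
    let F : AW γ → R i := fun u => if h : u.hd ≠ some i then f ⟨u, h⟩ else 0
    have hF : ∀ u : {u : AW γ // u.hd ≠ some i}, F u.1 = f u := fun u => dif_pos u.2
    let s1 : Finset {u : AW γ // u.hd ≠ some i} := f.support.filter (fun u => u.1.len = p')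
    let s : Finset (AW γ) := s1.map (Function.Embedding.subtype _)
    let Y : AW γ → (AW β →₀ E) := fun u => act b i (F u) y
    have hmem : ∀ v ∈ s, v.len = p' ∧ v.hd ≠ some i := by
      intro v hv
      obtain ⟨v', hv', rfl⟩ := Finset.mem_map.1 hv
      exact ⟨(Finset.mem_filter.1 hv').2, v'.2⟩
    have hsum : Lt (p' + (q' + 1)) (∑ v ∈ s, UL b c v.1 (Y v)) := by
      have e1 : ∑ v ∈ s, UL b c v.1 (Y v) = ∑ v ∈ s1, UL b c v.1.1 (act b i (f v) y) := by
        simp only [s, Finset.sum_map, Y]
        refine Finset.sum_congr rfl fun v _ => ?_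
        change (UL b c v.1.1) ((act b i (F v.1)) y) = _
        rw [hF]
      have e2 : ev b c a y = ∑ v ∈ f.support, UL b c v.1.1 (act b i (f v) y) := by
        rw [ev_eq_evb b c hc hop i a, evb_apply]
      have e3 : ∑ v ∈ s1, UL b c v.1.1 (act b i (f v) y) =
          ev b c a y + -(∑ v ∈ f.support with ¬ v.1.len = p', UL b c v.1.1 (act b i (f v) y)) := by
        rw [e2, ← Finset.sum_filter_add_sum_filter_not f.support (fun v => v.1.len = p')]
        simp only [s1]
        abel
      rw [e1, e3, h0, zero_add]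
      refine (Lt.sum _ fun v hv => ?_).neg
      obtain ⟨hv1, hv2⟩ := Finset.mem_filter.1 hv
      refine (lt_UL b c (hYlt (f v)) v.1.1).mono ?_
      have h5 : v.1.1.length ≠ p' := hv2
      have h6 : ¬ (p' + 1 ≤ v.1.1.length) := fun h => (Finsupp.mem_support_iff.1 hv1) (hf0 v h)
      omega
    have h1 := top_all b c hb hc hop p' (q' + 1) s Y (fun v hv => (hmem v hv).1)
      (fun v _ => hYlt _)
      (by
        intro v hv z hz k hzk hvk
        have hne : z.hd ≠ some i := by
          rw [hzk, ← hvk]
          exact (hmem v hv).2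
        have h2 := act_ins b i (F v) y ⟨z, hne⟩ none
        rw [ins_none] at h2
        change (act b i (F v) y) z = 0
        rw [h2]
        have h3 : φ ⟨z, hne⟩ = 0 := hφ0 ⟨z, hne⟩ (le_of_eq hz.symm)
        change (b i).repr (F v * φ ⟨z, hne⟩) none = 0
        rw [h3, mul_zero, map_zero, Finsupp.zero_apply])
      hsum u.1 (Finset.mem_map.2 ⟨u, Finset.mem_filter.2
        ⟨Finsupp.mem_support_iff.2 hfu, hu⟩, rfl⟩)
    refine ⟨(b i).repr (f u * φ w) none, ?_⟩
    apply (b i).repr.injective
    ext1 o
    rw [← hb i, map_smul, Module.Basis.repr_self, Finsupp.smul_apply]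
    rcases o with _ | b'
    · simp
    · rw [Finsupp.single_apply, if_neg (by simp), smul_zero]
      have h2 := h1 (ins i (w, some b')) (by
        rw [ins_some, len_cons]
        omega)
      change (act b i (F u.1) y) (ins i (w, some b')) = 0 at h2
      rw [act_ins, hF] at h2
      exact h2
  let U0 : {u : AW γ // u.hd ≠ some i} := ⟨u0', hu0h⟩
  let W0 : {w : AW β // w.hd ≠ some i} := ⟨w0', hw0h⟩
  have hr0 : f U0 ≠ 0 := by
    intro h
    apply hau0
    have h1 := repr_blk c i a U0 (some g0)
    change (c i).repr (f U0) (some g0) = a (AW.cons i g0 u0' hu0h) at h1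
    rw [← h1, h, map_zero, Finsupp.zero_apply]
  have ht0 : φ W0 ≠ 0 := by
    intro h
    apply hyw0
    have h1 := repr_blk b i y W0 (some b0)
    change (b i).repr (φ W0) (some b0) = y (AW.cons i b0 w0' hw0h) at h1
    rw [← h1, h, map_zero, Finsupp.zero_apply]
  obtain ⟨e, he⟩ := key U0 W0 hu0l hw0l
  have he0 : e ≠ 0 := by
    rintro rfl
    rw [zero_smul] at he
    exact (mul_ne_zero hr0 ht0) he
  set r := f U0 with hr
  set t := φ W0 with ht
  let s : R i := t * (e⁻¹ • (1 : R i))
  have hee : ∀ e1 e2 : E, (e1 • (1 : R i)) * (e2 • (1 : R i)) = (e1 * e2) • (1 : R i) := by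
    intro e1 e2
    rw [smul_mul_assoc, one_mul, smul_smul]
  have hrs : r * s = 1 := by
    simp only [s]
    rw [← mul_assoc, he, hee, mul_inv_cancel₀ he0, one_smul]
  have hsr : s * r = 1 := by
    have h1 : r * (s * r - 1) = 0 := by
      rw [mul_sub, ← mul_assoc, hrs, one_mul, mul_one, sub_self]
    rcases mul_eq_zero.1 h1 with h2 | h2
    · exact absurd h2 hr0
    · exact sub_eq_zero.1 h2
  let a' := (blk c i).symm (f.mapRange (· * s) (zero_mul s))
  let y' := act b i r y
  have hev : ev b c a' y' = 0 := by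
    have h1 : ev b c a' = ev b c a * act b i s := by
      rw [ev_eq_evb b c hc hop i a', ev_eq_evb b c hc hop i a]
      simp only [a', LinearEquiv.apply_symm_apply]
      exact evb_mul b c i f s
    rw [h1]
    have h2 : (ev b c a * act b i s) y' = (ev b c a * (act b i s * act b i r)) y := by
      rw [← mul_assoc]
      rfl
    rw [h2, ← map_mul, hsr, map_one, mul_one]
    exact h0
  have ha' : Lt (p' + 1) a' := by
    intro z hz
    obtain ⟨⟨u, o⟩, rfl⟩ := (AW.ins_bijective i).2 z
    simp only [a']
    rw [blk_symm_apply, Finsupp.mapRange_apply]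
    rcases Nat.lt_or_ge u.1.len (p' + 1) with h1 | h1
    · have h2 : u.1.len = p' := by
        have := ins_len_le i (u, o)
        simp only at this
        omega
      rcases o with _ | g
      · rw [ins_none] at hz
        omega
      · obtain ⟨e1, he1⟩ := key u W0 h2 hw0l
        have h3 : f u * s = (op (e1 * e⁻¹)) • (1 : R i) := by
          simp only [s]
          rw [← mul_assoc, ht, he1, hee, hop, one_mul]
        rw [h3, ← hc i, map_smul, Module.Basis.repr_self, Finsupp.smul_apply,
          Finsupp.single_apply, if_neg (by simp), smul_zero]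
    · rw [hf0 u h1, zero_mul, map_zero, Finsupp.zero_apply]
  have hy' : Lt (q' + 1) y' := by
    intro z hz
    obtain ⟨⟨w, o⟩, rfl⟩ := (AW.ins_bijective i).2 z
    simp only [y']
    rw [act_ins]
    change (b i).repr (r * φ w) o = 0
    rcases Nat.lt_or_ge w.1.len (q' + 1) with h1 | h1
    · have h2 : w.1.len = q' := by
        have := ins_len_le i (w, o)
        simp only at this
        omega
      rcases o with _ | b'
      · rw [ins_none] at hz
        omega
      · obtain ⟨e1, he1⟩ := key U0 w hu0l h2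
        rw [he1, ← hb i, map_smul, Module.Basis.repr_self, Finsupp.smul_apply,
          Finsupp.single_apply, if_neg (by simp), smul_zero]
    · rw [hφ0 w h1, mul_zero, map_zero, Finsupp.zero_apply]
  rcases ih (p' + q') (by omega) p' q' a' y' rfl ha' hy' hev with h1 | h1
  · apply hr0
    have h2 : f.mapRange (· * s) (zero_mul s) = 0 := by
      apply (blk c i).symm.injective
      rw [map_zero]
      exact h1
    have h3 := DFunLike.congr_fun h2 U0
    rw [Finsupp.mapRange_apply, Finsupp.zero_apply, hrs] at h3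
    exact absurd h3 one_ne_zero
  · have h2 : y = 0 := by
      have h3 : act b i s y' = y := by
        have h4 : act b i s y' = (act b i s * act b i r) y := rfl
        rw [h4, ← map_mul, hsr, map_one]
        rfl
      rw [← h3, h1, map_zero]
    apply hyw0
    rw [h2, Finsupp.zero_apply]

end Pool.Agent.Lib.MP_7b9603_alCF
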