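import Pool.Agent.Lib.MP_7b9603_alCF.C4
import Pool.Agent.Lib.MP_7b9603_alCF.B2

/-!
# C5: the coproduct of domains over a division ring
-/

set_option autoImplicit false
set_option linter.unusedSectionVars false

namespace Pool.Agent.Lib.MP_7b9603_alCF

universe u v w

open AW MulOpposite

theorem AW.ind {ι : Type v} {γ : ι → Type u} {P : AW γ → Prop} (h1 : P nil)
    (h2 : ∀ i g w h, P w → P (AW.cons i g w h)) (w : AW γ) : P w := by
  obtain ⟨n, hn⟩ : ∃ n, w.len = n := ⟨_, rfl⟩
  induction n generalizing w with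
  | zero =>
    rcases AW.eq_nil_or_cons w with rfl | ⟨i, g, w', h, rfl⟩
    · exact h1
    · rw [len_cons] at hn
      omega
  | succ n ih =>
    rcases AW.eq_nil_or_cons w with rfl | ⟨i, g, w', h, rfl⟩
    · exact h1
    · rw [len_cons] at hn
      exact h2 i g w' h (ih w' (by omega))

/-- Map the letters of a word. -/
def AW.map {ι : Type v} {γ β : ι → Type u} (e : ∀ i, γ i → β i) (w : AW γ) : AW β :=
  ⟨w.1.map (fun l => ⟨l.1, e l.1 l.2⟩), by
    rw [List.isChain_map]
    exact w.2⟩

theorem AW.hd_map {ι : Type v} {γ β : ι → Type u} (e : ∀ i, γ i → β i) (w : AW γ) :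
    (AW.map e w).hd = w.hd := by
  obtain ⟨l, hl⟩ := w
  cases l with
  | nil => rfl
  | cons x l => rfl

theorem AW.map_nil {ι : Type v} {γ β : ι → Type u} (e : ∀ i, γ i → β i) :
    AW.map e nil = nil := rfl

theorem AW.map_cons {ι : Type v} {γ β : ι → Type u} (e : ∀ i, γ i → β i) (i : ι) (g : γ i)
    (w : AW γ) (h : w.hd ≠ some i) :
    AW.map e (AW.cons i g w h) = AW.cons i (e i g) (AW.map e w) (by rw [AW.hd_map]; exact h) := rfl

theorem AW.map_injective {ι : Type v} {γ β : ι → Type u} (e : ∀ i, γ i → β i)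
    (he : ∀ i, Function.Injective (e i)) : Function.Injective (AW.map e) := by
  intro w w' h
  apply AW.ext'
  have h1 : w.1.map (fun l => (⟨l.1, e l.1 l.2⟩ : Σ i, β i)) =
      w'.1.map (fun l => (⟨l.1, e l.1 l.2⟩ : Σ i, β i)) := congrArg Subtype.val h
  refine List.map_injective_iff.2 ?_ h1
  rintro ⟨i, g⟩ ⟨i', g'⟩ h2
  simp only [Sigma.mk.injEq] at h2
  obtain ⟨rfl, h3⟩ := h2
  rw [heq_eq_eq] at h3
  rw [he i h3]

/-- Bases extending a linearly independent family. -/
theorem exists_basis_option {E V : Type u} [DivisionRing E] [AddCommGroup V] [Module E V]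
    {Γ : Type u} (v : Option Γ → V) (hv : LinearIndependent E v) :
    ∃ (B : Type u) (b : Module.Basis (Option B) E V) (e : Γ → B), Function.Injective e ∧
      b none = v none ∧ ∀ g, b (some (e g)) = v (some g) := by
  classical
  have hli : LinearIndepOn E id (Set.range v) := hv.linearIndepOn_id
  let b0 := Module.Basis.extend hli
  have hsub : Set.range v ⊆ hli.extend (Set.subset_univ _) := hli.subset_extend _
  let a : hli.extend (Set.subset_univ (Set.range v)) := ⟨v none, hsub ⟨none, rfl⟩⟩
  have hb0 : ∀ x, b0 x = x.1 := fun x => Module.Basis.extend_apply_self hli x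
  refine ⟨{x : hli.extend (Set.subset_univ (Set.range v)) // x ≠ a},
    b0.reindex (Equiv.optionSubtypeNe a).symm,
    fun g => ⟨⟨v (some g), hsub ⟨some g, rfl⟩⟩, ?_⟩, ?_, ?_, ?_⟩
  · intro h
    have h1 : v (some g) = v none := congrArg Subtype.val h
    have h2 := hv.injective h1
    simp at h2
  · intro g g' h
    have h1 : v (some g) = v (some g') := congrArg (fun z => z.1.1) h
    exact Option.some.inj (hv.injective h1)
  · rw [Module.Basis.reindex_apply, Equiv.symm_symm, hb0]
    simp [a]
  · intro g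
    rw [Module.Basis.reindex_apply, Equiv.symm_symm, hb0]
    simp

theorem blk_single' {ι : Type v} {F : Type w} [Ring F] {δ : ι → Type u} {M : ι → Type u}
    [∀ i, AddCommGroup (M i)] [∀ i, Module F (M i)] (d : ∀ i, Module.Basis (Option (δ i)) F (M i))
    (i : ι) (u : {u : AW δ // u.hd ≠ some i}) (o : Option (δ i)) (e : F) :
    (blk d i).symm (Finsupp.single u (e • d i o)) = Finsupp.single (ins i (u, o)) e := by
  classical
  ext1 z
  obtain ⟨⟨u', o'⟩, rfl⟩ := (AW.ins_bijective i).2 z
  rw [blk_symm_apply]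
  by_cases h : u' = u
  · subst h
    rw [Finsupp.single_eq_same, map_smul, Module.Basis.repr_self, Finsupp.smul_apply,
      Finsupp.single_apply, Finsupp.single_apply]
    by_cases h2 : o = o'
    · subst h2; simp
    · rw [if_neg h2, if_neg, smul_zero]
      intro h3
      exact h2 (Prod.ext_iff.1 ((AW.ins_bijective i).1 h3)).2
  · rw [Finsupp.single_eq_of_ne h, map_zero, Finsupp.zero_apply, Finsupp.single_apply, if_neg]
    intro h3
    exact h (Prod.ext_iff.1 ((AW.ins_bijective i).1 h3)).1.symm

section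

variable {ι : Type v} {β : ι → Type u} {γ : ι → Type u}
variable {E : Type u} [DivisionRing E] {R : ι → Type u} [∀ i, Ring (R i)]
  [∀ i, Module E (R i)] [∀ i, IsScalarTower E (R i) (R i)]
  (b : ∀ i, Module.Basis (Option (β i)) E (R i))
variable [∀ i, Module Eᵐᵒᵖ (R i)] (c : ∀ i, Module.Basis (Option (γ i)) Eᵐᵒᵖ (R i))

theorem act_single (i : ι) (r : R i) (w : {w : AW β // w.hd ≠ some i}) (hb : b i none = 1) :
    act b i r (Finsupp.single w.1 1) = (blk b i).symm (Finsupp.single w r) := by
  have h1 : blk b i (Finsupp.single w.1 1) = Finsupp.single w 1 := by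
    apply (blk b i).symm.injective
    have h2 := blk_single' b i w none 1
    rw [hb, one_smul, ins_none] at h2
    rw [h2, LinearEquiv.symm_apply_apply]
  rw [act_apply, h1, Finsupp.smul_single, smul_eq_mul, mul_one]

/-- The subring generated by the factors. -/
noncomputable def cop : Subring (AddMonoid.End (AW β →₀ E)) :=
  Subring.closure {z | ∃ i r, z = act b i r}

theorem ev_one : ev b c (Finsupp.single nil 1) = 1 := by
  rw [ev_single, unop_one, map_one, mul_one]
  rfl

theorem exists_ev (hc : ∀ i, c i none = 1)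
    (hop : ∀ i (e : E) (x : R i), (op e) • x = x * (e • (1 : R i)))
    (z : AddMonoid.End (AW β →₀ E)) (hz : z ∈ cop b) : ∃ a, z = ev b c a := by
  let S' : Subring (AddMonoid.End (AW β →₀ E)) :=
    { carrier := {z | ∀ a, ∃ a', ev b c a * z = ev b c a'}
      mul_mem' := by
        intro z z' hz hz' a
        obtain ⟨a', ha'⟩ := hz a
        obtain ⟨a'', ha''⟩ := hz' a'
        exact ⟨a'', by rw [← mul_assoc, ha', ha'']⟩
      one_mem' := fun a => ⟨a, mul_one _⟩
      add_mem' := by
        intro z z' hz hz' a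
        obtain ⟨a', ha'⟩ := hz a
        obtain ⟨a'', ha''⟩ := hz' a
        exact ⟨a' + a'', by rw [mul_add, ha', ha'', map_add]⟩
      zero_mem' := fun a => ⟨0, by rw [mul_zero, map_zero]⟩
      neg_mem' := by
        intro z hz a
        obtain ⟨a', ha'⟩ := hz a
        refine ⟨-a', ?_⟩
        rw [map_neg, ← ha']
        apply AddMonoidHom.ext
        intro v
        change (ev b c a) (-(z v)) = -((ev b c a) (z v))
        rw [map_neg] }
  have h1 : cop b ≤ S' := by
    refine Subring.closure_le.2 ?_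
    rintro _ ⟨i, r, rfl⟩ a
    refine ⟨(blk c i).symm ((blk c i a).mapRange (· * r) (zero_mul r)), ?_⟩
    rw [ev_eq_evb b c hc hop i a, ev_eq_evb b c hc hop i, LinearEquiv.apply_symm_apply, evb_mul]
  obtain ⟨a', ha'⟩ := h1 hz (Finsupp.single nil 1)
  rw [ev_one, one_mul] at ha'
  exact ⟨a', ha'⟩

theorem exists_lt (v : AW β →₀ E) : ∃ n, Lt (n + 1) v := by
  refine ⟨v.support.sup AW.len, ?_⟩
  intro w hw
  by_contra h
  have h1 : w.len ≤ v.support.sup AW.len := Finset.le_sup (Finsupp.mem_support_iff.2 h)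
  omega

theorem cop_noZeroDivisors (hb : ∀ i, b i none = 1) (hc : ∀ i, c i none = 1)
    (hop : ∀ i (e : E) (x : R i), (op e) • x = x * (e • (1 : R i)))
    [∀ i, NoZeroDivisors (R i)] [∀ i, Nontrivial (R i)] : NoZeroDivisors (cop b) := by
  refine ⟨?_⟩
  rintro ⟨x, hx⟩ ⟨y, hy⟩ hxy
  have hxy' : x * y = 0 := congrArg Subtype.val hxy
  by_cases hy0 : y = 0
  · exact Or.inr (Subtype.ext hy0)
  left
  apply Subtype.ext
  change x = 0
  obtain ⟨v, hv⟩ : ∃ v, y v ≠ 0 := by
    by_contra h
    push Not at h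
    exact hy0 (AddMonoidHom.ext h)
  obtain ⟨a, rfl⟩ := exists_ev b c hc hop x hx
  have h1 : ev b c a (y v) = 0 := by
    have h2 : (ev b c a * y) v = 0 := by rw [hxy']; rfl
    exact h2
  obtain ⟨p, hp⟩ := exists_lt a
  obtain ⟨q, hq⟩ := exists_lt (y v)
  rcases torsion_free b c hb hc hop (p + q) p q a (y v) rfl hp hq h1 with h | h
  · rw [h, map_zero]
  · exact absurd h hv

end

/-- The coproduct of domains over a common division ring is a domain, with left normal forms. -/
theorem exists_coprod {ι : Type} {E : Type u} [DivisionRing E] {R : ι → Type u} [∀ i, Ring (R i)]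
    [∀ i, NoZeroDivisors (R i)] [∀ i, Nontrivial (R i)] (j : ∀ i, E →+* R i)
    {γ : ι → Type u} (x : ∀ i, γ i → R i)
    (hx : ∀ i (s : Finset (Option (γ i))) (e : Option (γ i) → E),
      ∑ o ∈ s, j i (e o) * o.elim 1 (x i) = 0 → ∀ o ∈ s, e o = 0) :
    ∃ (T : Type u) (_ : Ring T) (κ : ∀ i, R i →+* T), NoZeroDivisors T ∧ Nontrivial T ∧
      (∀ i i' e, κ i (j i e) = κ i' (j i' e)) ∧
      ∀ (i : ι) (s : Finset (AW γ)) (f : AW γ → R i), (∀ w ∈ s, w.hd ≠ some i) →
        ∑ w ∈ s, κ i (f w) * wprod (fun k y => κ k (x k y)) w = 0 → ∀ w ∈ s, f w = 0 := by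
  classical
  let m1 : ∀ i, Module E (R i) := fun i => Module.compHom (R i) (j i)
  have hm1 : ∀ i (e : E) (r : R i), e • r = j i e * r := fun i e r => rfl
  have t1 : ∀ i, IsScalarTower E (R i) (R i) := fun i =>
    ⟨fun e r r' => by rw [hm1, smul_eq_mul, smul_eq_mul, hm1, mul_assoc]⟩
  let jop : ∀ i, Eᵐᵒᵖ →+* (R i)ᵐᵒᵖ := fun i => (j i).op
  let m2 : ∀ i, Module Eᵐᵒᵖ (R i) := fun i => Module.compHom (R i) (jop i)
  have hm2 : ∀ i (e : E) (r : R i), (op e) • r = r * j i e := fun i e r => rfl
  have hop : ∀ i (e : E) (r : R i), (op e) • r = r * (e • (1 : R i)) := fun i e r => by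
    rw [hm2, hm1, mul_one]
  have hli : ∀ i, LinearIndependent E (fun o : Option (γ i) => (o.elim 1 (x i) : R i)) := by
    intro i
    rw [linearIndependent_iff']
    intro s g hg
    exact hx i s g hg
  have hli2 : ∀ i, LinearIndependent Eᵐᵒᵖ (fun _ : Option PEmpty.{u + 1} => (1 : R i)) := by
    intro i
    have : Unique (Option PEmpty.{u + 1}) := ⟨⟨none⟩, fun o => by
      rcases o with _ | o
      · rfl
      · exact o.elim⟩
    exact LinearIndependent.of_subsingleton none one_ne_zero
  choose B b e he hb1 hb2 using fun i => exists_basis_option _ (hli i)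
  choose C c _ _ hc1 _ using fun i => exists_basis_option _ (hli2 i)
  have hb : ∀ i, b i none = 1 := hb1
  have hc : ∀ i, c i none = 1 := hc1
  have hTn : Nontrivial (cop b) := by
    refine ⟨⟨1, 0, ?_⟩⟩
    intro h
    have h1 : (1 : AddMonoid.End (AW B →₀ E)) = 0 := congrArg Subtype.val h
    have h2 := DFunLike.congr_fun (DFunLike.congr_fun h1 (Finsupp.single nil 1)) nil
    have h3 : (Finsupp.single (nil : AW B) (1 : E)) nil = 0 := h2
    rw [Finsupp.single_eq_same] at h3
    exact one_ne_zero h3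
  let κ : ∀ i, R i →+* cop b := fun i => (act b i).codRestrict (cop b)
    (fun r => Subring.subset_closure ⟨i, r, rfl⟩)
  have hκ : ∀ i r, ((κ i r : cop b) : AddMonoid.End (AW B →₀ E)) = act b i r := fun i r => rfl
  refine ⟨cop b, inferInstance, κ, cop_noZeroDivisors b c hb hc hop, hTn, ?_, ?_⟩
  · intro i i' a
    apply Subtype.ext
    rw [hκ, hκ]
    have h1 : ∀ i, j i a = a • (1 : R i) := fun i => by rw [hm1, mul_one]
    rw [h1, h1, act_smul', act_smul']
  · intro i s f hs h0 w0 hw0
    have hprod : ∀ w : AW γ, ((wprod (fun k y => κ k (x k y)) w : cop b) :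
        AddMonoid.End (AW B →₀ E)) (Finsupp.single nil 1) = Finsupp.single (AW.map e w) 1 := by
      intro w
      induction w using AW.ind with
      | h1 => rfl
      | h2 i g w h ih =>
        rw [wprod_cons]
        have h1 : ((κ i (x i g) * wprod (fun k y => κ k (x k y)) w : cop b) :
            AddMonoid.End (AW B →₀ E)) (Finsupp.single nil 1) =
            act b i (x i g) (((wprod (fun k y => κ k (x k y)) w : cop b) :
              AddMonoid.End (AW B →₀ E)) (Finsupp.single nil 1)) := rfl
        rw [h1, ih]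
        have h2 : (AW.map e w).hd ≠ some i := by rw [AW.hd_map]; exact h
        rw [act_single b i (x i g) ⟨AW.map e w, h2⟩ (hb i)]
        have h3 : x i g = (1 : E) • b i (some (e i g)) := by
          rw [one_smul, hb2]
          rfl
        rw [h3, blk_single', ins_some]
        rfl
    have h1 : ∀ w ∈ s, (((κ i (f w) * wprod (fun k y => κ k (x k y)) w : cop b) :
        AddMonoid.End (AW B →₀ E)) (Finsupp.single nil 1)) =
        (blk b i).symm (if h : (AW.map e w).hd ≠ some i then
          Finsupp.single ⟨AW.map e w, h⟩ (f w) else 0) := by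
      intro w hw
      have h2 : (AW.map e w).hd ≠ some i := by rw [AW.hd_map]; exact hs w hw
      rw [dif_pos h2]
      have h3 : ((κ i (f w) * wprod (fun k y => κ k (x k y)) w : cop b) :
            AddMonoid.End (AW B →₀ E)) (Finsupp.single nil 1) =
            act b i (f w) (((wprod (fun k y => κ k (x k y)) w : cop b) :
              AddMonoid.End (AW B →₀ E)) (Finsupp.single nil 1)) := rfl
      rw [h3, hprod, act_single b i (f w) ⟨AW.map e w, h2⟩ (hb i)]
    have h2 : ((∑ w ∈ s, κ i (f w) * wprod (fun k y => κ k (x k y)) w : cop b) :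
        AddMonoid.End (AW B →₀ E)) (Finsupp.single nil 1) = 0 := by
      rw [h0]
      rfl
    have h3 : ((∑ w ∈ s, κ i (f w) * wprod (fun k y => κ k (x k y)) w : cop b) :
        AddMonoid.End (AW B →₀ E)) =
        ∑ w ∈ s, ((κ i (f w) * wprod (fun k y => κ k (x k y)) w : cop b) :
          AddMonoid.End (AW B →₀ E)) := by
      exact map_sum (cop b).subtype _ _
    rw [h3, end_sum_apply, Finset.sum_congr rfl h1, ← map_sum] at h2
    have h4 := (blk b i).symm.injective (h2.trans (map_zero _).symm)
    have h5 : (AW.map e w0).hd ≠ some i := by rw [AW.hd_map]; exact hs w0 hw0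
    have h6 := DFunLike.congr_fun h4 ⟨AW.map e w0, h5⟩
    rw [Finsupp.finsetSum_apply, Finset.sum_eq_single_of_mem w0 hw0] at h6
    · rw [dif_pos h5, Finsupp.single_eq_same] at h6
      exact h6
    · intro w hw hne
      have h7 : (AW.map e w).hd ≠ some i := by rw [AW.hd_map]; exact hs w hw
      rw [dif_pos h7, Finsupp.single_apply, if_neg]
      intro h8
      exact hne (AW.map_injective e he (congrArg Subtype.val h8))

end Pool.Agent.Lib.MP_7b9603_alCF
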