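import Mathlib

/-!
# E1: the division ring of fractions of a noetherian domain, as a functor
-/

set_option autoImplicit false

namespace Pool.Agent.Lib.MP_7b9603_alCF

universe u

open nonZeroDivisors

section

variable (R : Type u) [Ring R] [Nontrivial R] [NoZeroDivisors R] [IsNoetherianRing R]

theorem nonempty_oreSet : Nonempty (OreLocalization.OreSet (R⁰)) :=
  have : IsDomain R := NoZeroDivisors.to_isDomain R
  nonempty_oreSet_of_strongRankCondition

/-- The Ore set structure. -/
@[instance_reducible] noncomputable def oreI : OreLocalization.OreSet (R⁰) := (nonempty_oreSet R).some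

/-- The division ring of left fractions of a left noetherian domain. -/
def Fr : Type u := @OreLocalization R _ (R⁰) (oreI R) R _

noncomputable instance : DivisionRing (Fr R) :=
  letI := oreI R
  inferInstanceAs (DivisionRing (OreLocalization (R⁰) R))

/-- The embedding. -/
noncomputable def Fr.of : R →+* Fr R :=
  letI := oreI R
  OreLocalization.numeratorRingHom

theorem Fr.of_injective : Function.Injective (Fr.of R) := by
  let _ := oreI R
  exact OreLocalization.numeratorHom_inj (R := R) (S := R⁰) (fun _ hx => hx.1)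

variable {R} in
theorem Fr.of_ne_zero {d : R} (hd : d ≠ 0) : Fr.of R d ≠ 0 := fun h =>
  hd (Fr.of_injective R (by rw [h, map_zero]))

variable {R} in
/-- Every element is a left fraction. -/
theorem Fr.exists_rep (x : Fr R) : ∃ d r : R, d ≠ 0 ∧ Fr.of R d * x = Fr.of R r := by
  let _ := oreI R
  have key : ∀ y : OreLocalization (R⁰) R, ∃ d r : R, d ≠ 0 ∧
      OreLocalization.numeratorHom (S := R⁰) d * y = OreLocalization.numeratorHom (S := R⁰) r := by
    intro y
    induction y with
    | _ r s =>
      exact ⟨s, r, nonZeroDivisors.coe_ne_zero s, OreLocalization.mul_cancel⟩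
  exact key x

variable {R} in
/-- Two nonzero elements have a nonzero common left multiple. -/
theorem Fr.exists_common {d e : R} (hd : d ≠ 0) (he : e ≠ 0) :
    ∃ a b : R, a * d = b * e ∧ a * d ≠ 0 := by
  let _ := oreI R
  obtain ⟨b, a, h⟩ := OreLocalization.oreCondition (S := R⁰) d
    ⟨e, mem_nonZeroDivisors_of_ne_zero he⟩
  exact ⟨a, b, h, mul_ne_zero (nonZeroDivisors.coe_ne_zero a) hd⟩

end

section

variable {R : Type u} [Ring R] [Nontrivial R] [NoZeroDivisors R] [IsNoetherianRing R]
  {R' : Type u} [Ring R'] [Nontrivial R'] [NoZeroDivisors R'] [IsNoetherianRing R']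
  {R'' : Type u} [Ring R''] [Nontrivial R''] [NoZeroDivisors R''] [IsNoetherianRing R'']

/-- Finitely many left fractions have a common denominator. -/
theorem Fr.exists_denom {κ : Type*} (s : Finset κ) (x : κ → Fr R) :
    ∃ (d : R) (r : κ → R), d ≠ 0 ∧ ∀ k ∈ s, Fr.of R d * x k = Fr.of R (r k) := by
  classical
  induction s using Finset.induction_on with
  | empty => exact ⟨1, 0, one_ne_zero, by simp⟩
  | insert k s hk ih =>
    obtain ⟨d, r, hd, hr⟩ := ih
    obtain ⟨e, q, he, hq⟩ := Fr.exists_rep (x k)
    obtain ⟨a, b, hab, hne⟩ := Fr.exists_common hd he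
    refine ⟨a * d, fun l => if l = k then b * q else a * r l, hne, fun l hl => ?_⟩
    dsimp only
    split_ifs with hlk
    · rw [hlk, hab, map_mul, mul_assoc, hq, map_mul]
    · rw [Finset.mem_insert] at hl
      rw [map_mul, mul_assoc, hr l (hl.resolve_left hlk), map_mul]

/-- Two homomorphisms to a ring agreeing on `R` are equal. -/
theorem Fr.hom_ext {T : Type*} [Ring T] {f g : Fr R →+* T}
    (h : ∀ r, f (Fr.of R r) = g (Fr.of R r)) : f = g := by
  ext x
  obtain ⟨d, r, hd, hr⟩ := Fr.exists_rep x
  have hu : IsUnit (f (Fr.of R d)) := (isUnit_iff_ne_zero.mpr (Fr.of_ne_zero hd)).map f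
  apply hu.mul_left_cancel
  rw [← map_mul, hr, h, ← hr, map_mul, h]

/-- Functoriality for injective homomorphisms. -/
theorem Fr.exists_map (f : R →+* R') (hf : Function.Injective f) :
    ∃ g : Fr R →+* Fr R', ∀ r, g (Fr.of R r) = Fr.of R' (f r) := by
  let _ := oreI R
  have hne : ∀ s : R⁰, Fr.of R' (f s) ≠ 0 := fun s => Fr.of_ne_zero fun h0 =>
    nonZeroDivisors.coe_ne_zero s (hf (by rw [h0, map_zero]))
  let F : R →+* Fr R' := (Fr.of R').comp f
  let fS : R⁰ →* (Fr R')ˣ := Units.liftRight (F.toMonoidHom.comp (Submonoid.subtype (R⁰)))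
    (fun s => Units.mk0 (Fr.of R' (f s)) (hne s)) (fun _ => rfl)
  have hfS : ∀ s : R⁰, F s = fS s := fun s => rfl
  let g : OreLocalization (R⁰) R →+* Fr R' := OreLocalization.universalHom F fS hfS
  have hg : ∀ r, g (OreLocalization.numeratorHom r) = F r := fun r =>
    OreLocalization.universalHom_commutes F fS hfS
  exact ⟨g, hg⟩

noncomputable def Fr.map (f : R →+* R') (hf : Function.Injective f) : Fr R →+* Fr R' :=
  Classical.choose (Fr.exists_map f hf)

theorem Fr.map_of (f : R →+* R') (hf : Function.Injective f) (r : R) :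
    Fr.map f hf (Fr.of R r) = Fr.of R' (f r) :=
  Classical.choose_spec (Fr.exists_map f hf) r

theorem Fr.map_map (f : R →+* R') (hf : Function.Injective f) (g : R' →+* R'')
    (hg : Function.Injective g) (x : Fr R) :
    Fr.map g hg (Fr.map f hf x) = Fr.map (g.comp f) (hg.comp hf) x := by
  have h1 : (Fr.map g hg).comp (Fr.map f hf) = Fr.map (g.comp f) (hg.comp hf) :=
    Fr.hom_ext fun r => by
      rw [RingHom.comp_apply, Fr.map_of, Fr.map_of, Fr.map_of, RingHom.comp_apply]
  rw [← h1, RingHom.comp_apply]

theorem Fr.map_id (f : R →+* R) (hf : Function.Injective f) (hid : ∀ r, f r = r) (x : Fr R) :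
    Fr.map f hf x = x := by
  have h1 : Fr.map f hf = RingHom.id (Fr R) :=
    Fr.hom_ext fun r => by
      rw [Fr.map_of, hid, RingHom.id_apply]
  rw [h1, RingHom.id_apply]

end

end Pool.Agent.Lib.MP_7b9603_alCF
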