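import Mathlib

/-!
# E4: rational dimension subgroups
-/

set_option autoImplicit false

namespace Pool.Agent.Lib.MP_7b9603_alCF

universe u

variable {P : Type u} [Group P] {P' : Type u} [Group P']

/-- The augmentation ideal of `ℤ[P]` (as an additive group: spanned by the `g - 1`). -/
noncomputable def Aug (P : Type u) [Group P] : Submodule ℤ (MonoidAlgebra ℤ P) :=
  Submodule.span ℤ (Set.range fun g : P => MonoidAlgebra.of ℤ P g - 1)

private theorem e4_gen (g : P) : MonoidAlgebra.of ℤ P g - 1 ∈ Aug P :=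
  Submodule.subset_span ⟨g, rfl⟩

private theorem e4_left0 (x y : MonoidAlgebra ℤ P) (hy : y ∈ Aug P) : x * y ∈ Aug P := by
  unfold Aug at hy
  induction hy using Submodule.span_induction with
  | mem y hy =>
    obtain ⟨g, rfl⟩ := hy
    induction x using MonoidAlgebra.induction_on with
    | of h =>
      have h1 : MonoidAlgebra.of ℤ P h * (MonoidAlgebra.of ℤ P g - 1) =
          (MonoidAlgebra.of ℤ P (h * g) - 1) - (MonoidAlgebra.of ℤ P h - 1) := by
        rw [map_mul, mul_sub, mul_one]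
        abel
      show MonoidAlgebra.of ℤ P h * (MonoidAlgebra.of ℤ P g - 1) ∈ Aug P
      rw [h1]
      exact Submodule.sub_mem _ (e4_gen _) (e4_gen _)
    | add a b ha hb =>
      rw [add_mul]
      exact Submodule.add_mem _ ha hb
    | smul r a ha =>
      rw [smul_mul_assoc]
      exact Submodule.smul_mem _ r ha
  | zero => rw [mul_zero]; exact Submodule.zero_mem _
  | add a b _ _ ha hb => rw [mul_add]; exact Submodule.add_mem _ ha hb
  | smul r a _ ha => rw [mul_smul_comm]; exact Submodule.smul_mem _ r ha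

private theorem e4_right0 (x y : MonoidAlgebra ℤ P) (hy : y ∈ Aug P) : y * x ∈ Aug P := by
  unfold Aug at hy
  induction hy using Submodule.span_induction with
  | mem y hy =>
    obtain ⟨g, rfl⟩ := hy
    induction x using MonoidAlgebra.induction_on with
    | of h =>
      have h1 : (MonoidAlgebra.of ℤ P g - 1) * MonoidAlgebra.of ℤ P h =
          (MonoidAlgebra.of ℤ P (g * h) - 1) - (MonoidAlgebra.of ℤ P h - 1) := by
        rw [map_mul, sub_mul, one_mul]
        abel
      show (MonoidAlgebra.of ℤ P g - 1) * MonoidAlgebra.of ℤ P h ∈ Aug P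
      rw [h1]
      exact Submodule.sub_mem _ (e4_gen _) (e4_gen _)
    | add a b ha hb =>
      rw [mul_add]
      exact Submodule.add_mem _ ha hb
    | smul r a ha =>
      rw [mul_smul_comm]
      exact Submodule.smul_mem _ r ha
  | zero => rw [zero_mul]; exact Submodule.zero_mem _
  | add a b _ _ ha hb => rw [add_mul]; exact Submodule.add_mem _ ha hb
  | smul r a _ ha => rw [smul_mul_assoc]; exact Submodule.smul_mem _ r ha

theorem mul_mem_aug_left (k : ℕ) (x y : MonoidAlgebra ℤ P) (hy : y ∈ Aug P ^ (k + 1)) :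
    x * y ∈ Aug P ^ (k + 1) := by
  rw [pow_succ'] at hy ⊢
  induction hy using Submodule.mul_induction_on' with
  | mem_mul_mem m hm n hn =>
    rw [← mul_assoc]
    exact Submodule.mul_mem_mul (e4_left0 x m hm) hn
  | add a _ b _ ha hb => rw [mul_add]; exact Submodule.add_mem _ ha hb

theorem mul_mem_aug_right (k : ℕ) (x y : MonoidAlgebra ℤ P) (hy : y ∈ Aug P ^ (k + 1)) :
    y * x ∈ Aug P ^ (k + 1) := by
  rw [pow_succ] at hy ⊢
  induction hy using Submodule.mul_induction_on' with
  | mem_mul_mem m hm n hn =>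
    rw [mul_assoc]
    exact Submodule.mul_mem_mul hm (e4_right0 x n hn)
  | add a _ b _ ha hb => rw [add_mul]; exact Submodule.add_mem _ ha hb

theorem aug_anti (k l : ℕ) (h : k ≤ l) : Aug P ^ (l + 1) ≤ Aug P ^ (k + 1) := by
  induction l, h using Nat.le_induction with
  | base => exact le_rfl
  | succ l _ ih =>
    refine le_trans ?_ ih
    rw [pow_succ _ (l + 1), Submodule.mul_le]
    intro m hm n _
    exact mul_mem_aug_right l n m hm

/-- The `k`-th rational dimension subgroup: `g` with `n (g - 1) ∈ Δ ^ (k + 1)` for some `n ≠ 0`. -/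
def Dm (P : Type u) [Group P] (k : ℕ) : Subgroup P where
  carrier := {g | ∃ n : ℤ, n ≠ 0 ∧ n • (MonoidAlgebra.of ℤ P g - 1) ∈ Aug P ^ (k + 1)}
  one_mem' := by
    refine ⟨1, one_ne_zero, ?_⟩
    rw [map_one, sub_self, smul_zero]
    exact Submodule.zero_mem _
  mul_mem' := by
    rintro a b ⟨n, hn, ha⟩ ⟨m, hm, hb⟩
    refine ⟨n * m, mul_ne_zero hn hm, ?_⟩
    have h1 : (n * m) • (MonoidAlgebra.of ℤ P (a * b) - 1) =
        m • (n • (MonoidAlgebra.of ℤ P a - 1)) + n • (m • (MonoidAlgebra.of ℤ P b - 1)) +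
          (n • (MonoidAlgebra.of ℤ P a - 1)) * (m • (MonoidAlgebra.of ℤ P b - 1)) := by
      rw [map_mul, smul_mul_smul_comm, smul_smul, smul_smul, mul_comm m n, ← smul_add, ← smul_add]
      congr 1
      noncomm_ring
    rw [h1]
    exact Submodule.add_mem _ (Submodule.add_mem _ (Submodule.smul_mem _ m ha)
      (Submodule.smul_mem _ n hb)) (mul_mem_aug_left k _ _ hb)
  inv_mem' := by
    rintro a ⟨n, hn, ha⟩
    refine ⟨n, hn, ?_⟩
    have h1 : n • (MonoidAlgebra.of ℤ P a⁻¹ - 1) =
        (-MonoidAlgebra.of ℤ P a⁻¹) * (n • (MonoidAlgebra.of ℤ P a - 1)) := by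
      rw [mul_smul_comm]
      congr 1
      have h2 : MonoidAlgebra.of ℤ P a⁻¹ * MonoidAlgebra.of ℤ P a = 1 := by
        rw [← map_mul, inv_mul_cancel, map_one]
      rw [mul_sub, neg_mul, h2, mul_one]
      abel
    rw [h1]
    exact mul_mem_aug_left k _ _ ha

theorem mem_Dm (k : ℕ) (g : P) :
    g ∈ Dm P k ↔ ∃ n : ℤ, n ≠ 0 ∧ n • (MonoidAlgebra.of ℤ P g - 1) ∈ Aug P ^ (k + 1) := Iff.rfl

theorem Dm_zero : Dm P 0 = ⊤ := by
  rw [eq_top_iff]
  intro g _
  refine ⟨1, one_ne_zero, ?_⟩
  rw [one_smul, zero_add, pow_one]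
  exact e4_gen g

theorem Dm_anti (k l : ℕ) (h : k ≤ l) : Dm P l ≤ Dm P k := by
  rintro g ⟨n, hn, hg⟩
  exact ⟨n, hn, aug_anti k l h hg⟩

private theorem e4_map (f : P →* P') (k : ℕ) (y : MonoidAlgebra ℤ P) (hy : y ∈ Aug P ^ k) :
    MonoidAlgebra.mapDomainRingHom ℤ f y ∈ Aug P' ^ k := by
  induction k generalizing y with
  | zero =>
    rw [pow_zero] at hy ⊢
    obtain ⟨n, rfl⟩ := Submodule.mem_one.1 hy
    rw [eq_intCast, map_intCast, ← eq_intCast (algebraMap ℤ (MonoidAlgebra ℤ P'))]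
    exact Submodule.mem_one.2 ⟨n, rfl⟩
  | succ k ih =>
    rw [pow_succ] at hy ⊢
    induction hy using Submodule.mul_induction_on' with
    | mem_mul_mem m hm n hn =>
      rw [map_mul]
      refine Submodule.mul_mem_mul (ih m hm) ?_
      unfold Aug at hn
      induction hn using Submodule.span_induction with
      | mem y hy =>
        obtain ⟨g, rfl⟩ := hy
        have h1 : MonoidAlgebra.mapDomainRingHom ℤ f (MonoidAlgebra.of ℤ P g - 1) =
            MonoidAlgebra.of ℤ P' (f g) - 1 := by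
          rw [map_sub, map_one]
          congr 1
          simp [MonoidAlgebra.of_apply]
        show MonoidAlgebra.mapDomainRingHom ℤ f (MonoidAlgebra.of ℤ P g - 1) ∈ Aug P'
        rw [h1]
        exact e4_gen _
      | zero => rw [map_zero]; exact Submodule.zero_mem _
      | add a b _ _ ha hb => rw [map_add]; exact Submodule.add_mem _ ha hb
      | smul r a _ ha => rw [map_zsmul]; exact Submodule.smul_mem _ r ha
    | add a _ b _ ha hb => rw [map_add]; exact Submodule.add_mem _ ha hb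

/-- Functoriality. -/
theorem Dm_map (f : P →* P') (k : ℕ) (g : P) (hg : g ∈ Dm P k) : f g ∈ Dm P' k := by
  obtain ⟨n, hn, h⟩ := hg
  refine ⟨n, hn, ?_⟩
  have h1 := e4_map f (k + 1) _ h
  have h2 : MonoidAlgebra.mapDomainRingHom ℤ f (n • (MonoidAlgebra.of ℤ P g - 1)) =
      n • (MonoidAlgebra.of ℤ P' (f g) - 1) := by
    rw [map_zsmul, map_sub, map_one]
    congr 2
    simp [MonoidAlgebra.of_apply]
  rwa [h2] at h1

instance Dm_normal (k : ℕ) : (Dm P k).Normal := by
  refine ⟨fun n hn g => ?_⟩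
  exact Dm_map (MulAut.conj g).toMonoidHom k n hn

/-- The dimension subgroups of a normal subgroup are normal. -/
theorem Dm_map_normal {A : Type u} [Group A] (N : Subgroup A) [N.Normal] (k : ℕ) :
    ((Dm N k).map N.subtype).Normal := by
  refine ⟨fun x hx g => ?_⟩
  obtain ⟨y, hy, rfl⟩ := Subgroup.mem_map.1 hx
  refine Subgroup.mem_map.2 ⟨(MulAut.conjNormal g : MulAut N) y,
    Dm_map (MulAut.conjNormal g : MulAut N).toMonoidHom k y hy, ?_⟩
  simp [MulAut.conjNormal_apply]

/-- `y` is in the `k`-th power of the augmentation ideal up to an integer factor. -/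
private def E4I (k : ℕ) (y : MonoidAlgebra ℤ P) : Prop :=
  ∃ n : ℤ, n ≠ 0 ∧ n • y ∈ Aug P ^ (k + 1)

private theorem E4I.mono {k l : ℕ} {y : MonoidAlgebra ℤ P} (h : E4I l y) (hkl : k ≤ l) :
    E4I k y := by
  obtain ⟨n, hn, h1⟩ := h
  exact ⟨n, hn, aug_anti k l hkl h1⟩

private theorem E4I.sub {k : ℕ} {x y : MonoidAlgebra ℤ P} (hx : E4I k x) (hy : E4I k y) :
    E4I k (x - y) := by
  obtain ⟨n, hn, h1⟩ := hx
  obtain ⟨m, hm, h2⟩ := hy
  refine ⟨n * m, mul_ne_zero hn hm, ?_⟩
  have h3 : (n * m) • (x - y) = m • (n • x) - n • (m • y) := by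
    rw [smul_smul, smul_smul, mul_comm m n, smul_sub]
  rw [h3]
  exact Submodule.sub_mem _ (Submodule.smul_mem _ m h1) (Submodule.smul_mem _ n h2)

private theorem E4I.mul {k l : ℕ} {x y : MonoidAlgebra ℤ P} (hx : E4I k x) (hy : E4I l y) :
    E4I (k + l + 1) (x * y) := by
  obtain ⟨n, hn, h1⟩ := hx
  obtain ⟨m, hm, h2⟩ := hy
  refine ⟨n * m, mul_ne_zero hn hm, ?_⟩
  rw [← smul_mul_smul_comm, show k + l + 1 + 1 = (k + 1) + (l + 1) by ring, pow_add]
  exact Submodule.mul_mem_mul h1 h2

private theorem E4I.mul_right {k : ℕ} {x : MonoidAlgebra ℤ P} (hx : E4I k x)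
    (z : MonoidAlgebra ℤ P) : E4I k (x * z) := by
  obtain ⟨n, hn, h1⟩ := hx
  refine ⟨n, hn, ?_⟩
  rw [← smul_mul_assoc]
  exact mul_mem_aug_right k z _ h1

private theorem e4_binom {R : Type*} [Ring R] (x : R) (n : ℕ) :
    ∃ z : R, (1 + x) ^ n - 1 = n • x + x * x * z := by
  induction n with
  | zero => exact ⟨0, by simp⟩
  | succ n ih =>
    obtain ⟨z, hz⟩ := ih
    have hz' : (1 + x) ^ n = 1 + (n • x + x * x * z) := by
      rw [← hz]
      abel
    refine ⟨n • 1 + z * (1 + x), ?_⟩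
    rw [pow_succ, hz', add_smul, one_smul]
    simp only [nsmul_eq_mul]
    have hc : (n : R) * x * x = x * x * (n : R) := by
      rw [Nat.cast_comm, mul_assoc, Nat.cast_comm, ← mul_assoc]
    have hc2 : x * x * ((n : R) * 1 + z * (1 + x)) =
        (n : R) * x * x + x * x * z + x * x * z * x := by
      rw [hc]
      noncomm_ring
    rw [hc2]
    noncomm_ring

/-- The quotients are torsion free. -/
theorem mem_Dm_of_pow (k : ℕ) (g : P) (n : ℕ) (hn : n ≠ 0) (h : g ^ n ∈ Dm P k) : g ∈ Dm P k := by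
  set x : MonoidAlgebra ℤ P := MonoidAlgebra.of ℤ P g - 1 with hx
  have hk : E4I k (MonoidAlgebra.of ℤ P (g ^ n) - 1) := h
  obtain ⟨z, hz⟩ := e4_binom x n
  have h1 : MonoidAlgebra.of ℤ P (g ^ n) - 1 = n • x + x * x * z := by
    rw [← hz, map_pow, hx]
    congr 2
    abel
  have key : ∀ i ≤ k, E4I i x := by
    intro i
    induction i with
    | zero =>
      intro _
      refine ⟨1, one_ne_zero, ?_⟩
      rw [one_smul, zero_add, pow_one]
      exact e4_gen g
    | succ i ih =>
      intro hi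
      have h2 : E4I i x := ih (by omega)
      have h3 : E4I (i + 1) (x * x * z) :=
        ((h2.mul h2).mono (by omega)).mul_right z
      have h4 := (hk.mono hi).sub h3
      rw [h1, add_sub_cancel_right] at h4
      obtain ⟨m, hm, h5⟩ := h4
      refine ⟨m * n, mul_ne_zero hm (by exact_mod_cast hn), ?_⟩
      rw [mul_smul, natCast_zsmul]
      exact h5
  exact key k le_rfl

end Pool.Agent.Lib.MP_7b9603_alCF
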