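import Pool.Agent.Lib.MP_7b9603_alCF.A9
import Pool.Agent.Lib.MP_7b9603_alCF.A10
import Pool.Agent.Lib.MP_7b9603_alCF.B3

/-!
# F1: the induction along a perfect elimination ordering
-/

set_option autoImplicit false

namespace Pool.Agent.Lib.MP_7b9603_alCF

open SPH

universe u

variable {S : Type u}

/-- Subsets on which all labels are finite. -/
def Clq (M : CoxeterMatrix S) (C : Set S) : Prop := ∀ s ∈ C, ∀ t ∈ C, M s t ≠ 0

theorem Clq.mono {M : CoxeterMatrix S} {C C' : Set S} (h : Clq M C) (h' : C' ⊆ C) : Clq M C' :=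
  fun s hs t ht => h s (h' hs) t (h' ht)

variable {K : Type u} [Field K] (M : CoxeterMatrix S)

/-- A compatible family of filtrations for the finite-label subsets. -/
structure Fam (K : Type u) [Field K] (M : CoxeterMatrix S) where
  F : ∀ C : Set S, Clq M C → Flt K (AX M C)
  compat : ∀ (C' C : Set S) (hC' : Clq M C') (hC : Clq M C) (h : C' ⊆ C) (k : ℕ) (g : AX M C'),
    (F C hC).q k (incX M h g) = 1 ↔ (F C' hC').q k g = 1
  sep : ∀ (C' C : Set S) (hC : Clq M C) (h : C' ⊆ C) (g : AX M C),
    (∀ k, ∃ c, (F C hC).q k g = (F C hC).q k (incX M h c)) → g ∈ (incX M h).range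

theorem exists_fam [Finite S] (hM : ∀ C : Set S, Clq M C → Finite (sm M C).Group) :
    Nonempty (Fam K M) := by
  classical
  have key : ∀ C : Set S, ∃ k0 : ℕ, ∀ _ : Clq M C, ∀ k1, k0 ≤ k1 →
      ∃ F : Flt K (AX M C), IsDmFlt F k1 := by
    intro C
    by_cases hC : Clq M C
    · have : Fintype C := Fintype.ofFinite C
      obtain ⟨k0, h0⟩ := exists_flt (sm M C) (hM C hC) K
      exact ⟨k0, fun _ => h0⟩
    · exact ⟨0, fun h => absurd h hC⟩
  choose k0 h0 using key
  obtain ⟨k1, hk1⟩ : ∃ k1, ∀ C, k0 C ≤ k1 := by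
    have := Fintype.ofFinite (Set S)
    exact ⟨Finset.univ.sup k0, fun C => Finset.le_sup (Finset.mem_univ C)⟩
  have h2 : ∀ C (_ : Clq M C), ∃ F : Flt K (AX M C), IsDmFlt F k1 :=
    fun C hC => h0 C hC k1 (hk1 C)
  choose F hF using h2
  refine ⟨⟨F, ?_, ?_⟩⟩
  · intro C' C hC' hC h k g
    exact flt_compat (sm M C') (sm M C) (Set.inclusion h) (Set.inclusion_injective h)
      (fun _ _ => rfl) (F C' hC') (F C hC) k1 (hF C' hC') (hF C hC) k g
  · intro C' C hC h g hg
    have : Fintype C := Fintype.ofFinite C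
    exact flt_sep (sm M C') (sm M C) (Set.inclusion h) (Set.inclusion_injective h)
      (fun _ _ => rfl) (hM C hC) (F C hC) k1 (hF C hC) g hg

variable {M} (A : Fam K M)

/-- The division rings of the finite-label subsets. -/
abbrev Fam.E {C : Set S} (hC : Clq M C) : Type u := (A.F C hC).E

/-- The transition homomorphisms. -/
noncomputable def Fam.tr {C' C : Set S} (hC' : Clq M C') (hC : Clq M C) (h : C' ⊆ C) :
    A.E hC' →+* A.E hC :=
  Flt.map (A.F C' hC') (A.F C hC) (incX M h) (A.compat C' C hC' hC h)

theorem Fam.tr_of {C' C : Set S} (hC' : Clq M C') (hC : Clq M C) (h : C' ⊆ C)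
    (x : MonoidAlgebra K (AX M C')) :
    A.tr hC' hC h ((A.F C' hC').of x) =
      (A.F C hC).of (MonoidAlgebra.mapDomainRingHom K (incX M h) x) :=
  Flt.map_of _ _ _ _ _

private theorem map_congr' {G G' : Type u} [Group G] [Group G'] (F : Flt K G) (F' : Flt K G')
    {f f' : G →* G'} (e : f = f') (hf : ∀ k g, F'.q k (f g) = 1 ↔ F.q k g = 1)
    (hf' : ∀ k g, F'.q k (f' g) = 1 ↔ F.q k g = 1) (x : F.E) :
    Flt.map F F' f hf x = Flt.map F F' f' hf' x := by
  subst e
  rfl

theorem Fam.tr_tr {C'' C' C : Set S} (hC'' : Clq M C'') (hC' : Clq M C') (hC : Clq M C)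
    (h' : C'' ⊆ C') (h : C' ⊆ C) (y : A.E hC'') :
    A.tr hC' hC h (A.tr hC'' hC' h' y) = A.tr hC'' hC (h'.trans h) y := by
  have e : (incX M h).comp (incX M h') = incX M (h'.trans h) :=
    MonoidHom.ext fun g => incX_incX M h' h g
  have hf'' : ∀ k g, (A.F C hC).q k (((incX M h).comp (incX M h')) g) = 1 ↔
      (A.F C'' hC'').q k g = 1 := by
    rw [e]
    exact A.compat C'' C hC'' hC (h'.trans h)
  have h1 := Flt.map_map (A.F C'' hC'') (A.F C' hC') (A.F C hC) (incX M h')
    (A.compat C'' C' hC'' hC' h') (incX M h) (A.compat C' C hC' hC h) hf'' y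
  have h2 := map_congr' (A.F C'' hC'') (A.F C hC) e hf''
    (A.compat C'' C hC'' hC (h'.trans h)) y
  exact h1.trans h2

theorem Fam.ind_tr {C' C : Set S} (hC' : Clq M C') (hC : Clq M C) (h : C' ⊆ C) :
    Ind (incX M h) (A.tr hC' hC h) (A.F C hC).of :=
  fun s e hs h0 => Flt.ind (A.F C' hC') (A.F C hC) (incX M h) (A.compat C' C hC' hC h)
    (A.sep C' C hC h) s e hs h0

/-- The group algebra of the subset `X` embeds well in a domain. -/
def Good (X : Set S) : Prop :=
  ∃ (R : Type u) (_ : Ring R) (φ : MonoidAlgebra K (AX M X) →+* R)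
    (ι : ∀ (C : Set S) (hC : Clq M C), C ⊆ X → (A.E hC →+* R)),
    NoZeroDivisors R ∧ Nontrivial R ∧
    (∀ C hC h x, ι C hC h ((A.F C hC).of x) =
      φ (MonoidAlgebra.mapDomainRingHom K (incX M h) x)) ∧
    (∀ C' C hC' hC (h' : C' ⊆ C) h y, ι C hC h (A.tr hC' hC h' y) = ι C' hC' (h'.trans h) y) ∧
    (∀ C hC h, Ind (incX M h) (ι C hC h) φ)

theorem Good.of_clique (C : Set S) (hC : Clq M C) : Good A C := by
  refine ⟨A.E hC, inferInstance, (A.F C hC).of, fun C' hC' h => A.tr hC' hC h, inferInstance,
    inferInstance, ?_, ?_, ?_⟩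
  · intro C' hC' h x
    exact A.tr_of hC' hC h x
  · intro C'' C' hC'' hC' h' h y
    exact A.tr_tr hC'' hC' hC h' h y
  · intro C' hC' h
    exact A.ind_tr hC' hC h

private theorem mdr_comp {G G' G'' : Type u} [Group G] [Group G'] [Group G''] (f : G →* G')
    (f' : G' →* G'') (x : MonoidAlgebra K G) :
    MonoidAlgebra.mapDomainRingHom K f' (MonoidAlgebra.mapDomainRingHom K f x) =
      MonoidAlgebra.mapDomainRingHom K (f'.comp f) x := by
  induction x using MonoidAlgebra.induction_linear with
  | zero => simp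
  | add a b ha hb => simp only [map_add, ha, hb]
  | single g r => simp [MonoidAlgebra.mapDomainRingHom_apply, MonoidAlgebra.mapDomain_single]

theorem Good.insert (X : Set S) (s : S) (hs : s ∉ X) (hX : Good A X)
    (hN : Clq M (insert s (nb M X s))) : Good A (insert s X) := by
  classical
  -- the two factors
  let Y : Bool → Set S := fun b => cond b X (Insert.insert s (nb M X s))
  have hNc : Clq M (nb M X s) := hN.mono (Set.subset_insert _ _)
  have hNY : ∀ b, nb M X s ⊆ Y b := by
    intro b
    cases b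
    · exact Set.subset_insert _ _
    · exact nb_sub M X s
  have hYI : ∀ b, Y b ⊆ Insert.insert s X := by
    intro b
    cases b
    · exact Set.insert_subset_insert (nb_sub M X s)
    · exact Set.subset_insert s X
  have hG : ∀ b, Good A (Y b) := by
    intro b
    cases b
    · exact Good.of_clique A _ hN
    · exact hX
  choose R iR φ ι hnz hnt hι hιtr hind using hG
  -- every clique lies in one of the two factors
  have hcov : ∀ C : Set S, Clq M C → C ⊆ Insert.insert s X → ∃ b, C ⊆ Y b := by
    intro C hC h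
    by_cases hsC : s ∈ C
    · refine ⟨false, fun t ht => ?_⟩
      by_cases hts : t = s
      · exact Or.inl hts
      · refine Or.inr ⟨?_, hC t ht s hsC⟩
        rcases h ht with h' | h'
        · exact absurd h' hts
        · exact h'
    · refine ⟨true, fun t ht => ?_⟩
      rcases h ht with h' | h'
      · exact absurd (h' ▸ ht) hsC
      · exact h'
  have hboth : ∀ (C : Set S) (b b' : Bool), b ≠ b' → C ⊆ Y b → C ⊆ Y b' → C ⊆ nb M X s := by
    have key : ∀ C : Set S, C ⊆ X → C ⊆ Insert.insert s (nb M X s) → C ⊆ nb M X s := by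
      intro C h1 h2 t ht
      rcases h2 ht with h' | h'
      · exact absurd (h' ▸ h1 ht) hs
      · exact h'
    intro C b b' hbb h1 h2
    cases b <;> cases b'
    · exact absurd rfl hbb
    · exact key C h2 h1
    · exact key C h1 h2
    · exact absurd rfl hbb
  obtain ⟨T, iT, κ, Φ, hTz, hTn, hκj, hΦ, htr⟩ := amalgam_step (I := Bool) (K := K)
    (G := AX M (Insert.insert s X)) (N := AX M (nb M X s)) (H := fun b => AX M (Y b))
    (fun b => incX M (hNY b)) (fun b => incX M (hYI b))
    (by
      intro i i' c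
      rw [incX_incX, incX_incX])
    (by
      intro P h1 h2 g
      exact insert_gen M X s P h1 (fun a g hg => h2 true a g hg) (fun a g hg => h2 false a g hg) g)
    (by
      intro T' _ h hh
      obtain ⟨ψ, h1, h2⟩ := insert_lift M X s hs (h true) (h false) (fun a => hh true false a)
      refine ⟨ψ, fun i a => ?_⟩
      cases i
      · exact h2 a
      · exact h1 a)
    (E := A.E hNc) (R := R) (fun b => ι b (nb M X s) hNc (hNY b)) (A.F (nb M X s) hNc).of φ
    (fun b x => (hι b _ hNc (hNY b) x).symm) (fun b => hind b _ hNc (hNY b))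
  -- independence of the factor
  have hindep : ∀ (C : Set S) (hC : Clq M C) (b b' : Bool) (h : C ⊆ Y b) (h' : C ⊆ Y b')
      (y : A.E hC), κ b (ι b C hC h y) = κ b' (ι b' C hC h' y) := by
    intro C hC b b' h h' y
    by_cases hbb : b = b'
    · subst hbb
      rfl
    · have hCN := hboth C b b' hbb h h'
      rw [← hιtr b C (nb M X s) hC hNc hCN (hNY b) y, ← hιtr b' C (nb M X s) hC hNc hCN (hNY b') y]
      exact hκj b b' _
  choose bb hbb using hcov
  refine ⟨T, iT, Φ, fun C hC h => (κ (bb C hC h)).comp (ι (bb C hC h) C hC (hbb C hC h)), hTz,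
    hTn, ?_, ?_, ?_⟩
  · intro C hC h x
    have e : (incX M (hYI (bb C hC h))).comp (incX M (hbb C hC h)) = incX M h :=
      MonoidHom.ext fun g => incX_incX M _ _ g
    rw [RingHom.comp_apply, hι, ← hΦ, mdr_comp, e]
  · intro C' C hC' hC h' h y
    rw [RingHom.comp_apply, RingHom.comp_apply, hιtr]
    exact hindep C' hC' _ _ _ _ y
  · intro C hC h
    have e : (incX M (hYI (bb C hC h))).comp (incX M (hbb C hC h)) = incX M h :=
      MonoidHom.ext fun g => incX_incX M _ _ g
    rw [← e]
    exact htr (bb C hC h) (AX M C) (incX M (hbb C hC h)) (A.E hC)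
      (ι (bb C hC h) C hC (hbb C hC h)) (hind (bb C hC h) C hC (hbb C hC h))

private theorem AX_empty (g : AX M (∅ : Set S)) : g = 1 := by
  have h : MonoidHom.id (AX M (∅ : Set S)) = 1 := artin_hom_ext fun s => (s.2 : False).elim
  exact DFunLike.congr_fun h g

theorem Good.noZeroDivisors (X : Set S) (hX : Good A X) :
    NoZeroDivisors (MonoidAlgebra K (AX M X)) := by
  classical
  obtain ⟨R, iR, φ, ι, hnz, hnt, hι, -, hind⟩ := hX
  have h0 : Clq M (∅ : Set S) := fun s hs => (hs : False).elim
  have hIX : (∅ : Set S) ⊆ X := Set.empty_subset X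
  have hinj : Function.Injective φ := by
    rw [injective_iff_map_eq_zero]
    intro x hx
    have h1 := hind ∅ h0 hIX x.coeff.support
      (fun g => (A.F ∅ h0).of (MonoidAlgebra.single 1 (x.coeff g))) (by
        intro g _ g' _ hgg' hr
        obtain ⟨c, hc⟩ := hr
        rw [AX_empty c, map_one] at hc
        exact hgg' (mul_inv_eq_one.mp hc.symm)) (by
        rw [← hx]
        conv_rhs => rw [← MonoidAlgebra.sum_coeff_single x]
        rw [Finsupp.sum, map_sum]
        refine Finset.sum_congr rfl fun g _ => ?_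
        rw [hι, MonoidAlgebra.mapDomainRingHom_apply, MonoidAlgebra.mapDomain_single, map_one,
          ← map_mul, MonoidAlgebra.single_mul_single, one_mul, mul_one])
    have h2 : Function.Injective
        ((A.F ∅ h0).of.comp (MonoidAlgebra.singleOneRingHom (R := K) (M := AX M (∅ : Set S)))) :=
      RingHom.injective _
    ext g
    by_contra hg
    have h3 := h1 g (Finsupp.mem_support_iff.mpr hg)
    apply hg
    rw [MonoidAlgebra.coeff_zero, Finsupp.coe_zero, Pi.zero_apply]
    apply h2
    rw [map_zero]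
    exact h3
  exact Function.Injective.noZeroDivisors φ hinj (map_zero φ) (map_mul φ)

/-- The group algebras of the Artin groups of FC type with chordal finite-label graph. -/
theorem noZeroDivisors_chordal [Finite S] [LinearOrder S] (M : CoxeterMatrix S)
    (hord : ∀ s t t', t < s → t' < s → M t s ≠ 0 → M t' s ≠ 0 → M t t' ≠ 0)
    (hfc : ∀ C : Set S, (∀ s ∈ C, ∀ t ∈ C, M s t ≠ 0) → Finite (sm M C).Group)
    (K : Type u) [Field K] : NoZeroDivisors (MonoidAlgebra K (ArtinGroup M)) := by
  classical
  obtain ⟨A⟩ := exists_fam (K := K) M hfc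
  have hall : ∀ X : Finset S, Good A (X : Set S) := by
    intro X
    induction X using Finset.induction_on_max with
    | empty =>
      apply Good.of_clique
      intro s hs
      simp at hs
    | insert a s hlt ih =>
      rw [Finset.coe_insert]
      have has : a ∉ (s : Set S) := fun h => lt_irrefl _ (hlt a h)
      refine Good.insert A _ a has ih ?_
      rintro u hu v hv
      rcases hu with rfl | ⟨hu, hu'⟩
      · rcases hv with rfl | ⟨hv, hv'⟩
        · rw [M.diagonal]
          exact one_ne_zero
        · rw [M.symmetric]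
          exact hv'
      · rcases hv with rfl | ⟨hv, hv'⟩
        · exact hu'
        · exact hord a u v (hlt u hu) (hlt v hv) hu' hv'
  have huniv : Good A Set.univ := by
    have := Fintype.ofFinite S
    have := hall Finset.univ
    rwa [Finset.coe_univ] at this
  have := Good.noZeroDivisors A Set.univ huniv
  let g : ArtinGroup M →* AX M Set.univ :=
    incA M (sm M Set.univ) (fun s => ⟨s, Set.mem_univ s⟩) (fun _ _ => rfl)
  let g' : AX M Set.univ →* ArtinGroup M :=
    incA (sm M Set.univ) M Subtype.val (fun _ _ => rfl)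
  have hgg : ∀ x, g' (g x) = x := by
    have h : g'.comp g = MonoidHom.id _ := by
      apply artin_hom_ext
      intro s
      rw [MonoidHom.comp_apply, incA_agen, incA_agen]
      rfl
    exact fun x => DFunLike.congr_fun h x
  have hginj : Function.Injective g := Function.LeftInverse.injective hgg
  exact Function.Injective.noZeroDivisors (MonoidAlgebra.mapDomainRingHom K g)
    (Flt.mapDomain_injective g hginj) (map_zero _) (map_mul _)

end Pool.Agent.Lib.MP_7b9603_alCF
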