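import Pool.Agent.Lib.MP_7b9603_alCF.F1

/-!
# F2: the final statement, arbitrary universes
-/

set_option autoImplicit false

namespace Pool.Agent.Lib.MP_7b9603_alCF

open SPH

universe u v

/-- Restriction and reindexing. -/
theorem finite_sm_reindex {S : Type u} {S' : Type v} (M : CoxeterMatrix S) (e : S ≃ S')
    (C : Set S') (h : Finite (sm M (e ⁻¹' C)).Group) : Finite (sm (M.reindex e) C).Group := by
  let f : (e ⁻¹' C : Set S) ≃ C :=
    { toFun := fun s => ⟨e s.1, s.2⟩
      invFun := fun s => ⟨e.symm s.1, by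
        change e (e.symm s.1) ∈ C
        rw [e.apply_symm_apply]
        exact s.2⟩
      left_inv := fun s => Subtype.ext (e.symm_apply_apply s.1)
      right_inv := fun s => Subtype.ext (e.apply_symm_apply s.1) }
  have h1 : (sm M (e ⁻¹' C)).reindex f = sm (M.reindex e) C := by
    apply CoxeterMatrix.ext
    ext a b
    rfl
  rw [← h1]
  exact Finite.of_equiv _ ((sm M (e ⁻¹' C)).reindexGroupEquiv f).symm.toEquiv

/-- The group algebras of the Artin groups of FC type with chordal finite-label graph. -/
theorem noZeroDivisors_chordal_univ {S : Type u} [Finite S] [LinearOrder S] (M : CoxeterMatrix S)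
    (hord : ∀ s t t', t < s → t' < s → M t s ≠ 0 → M t' s ≠ 0 → M t t' ≠ 0)
    (hfc : ∀ C : Set S, (∀ s ∈ C, ∀ t ∈ C, M s t ≠ 0) → Finite (sm M C).Group)
    (K : Type v) [Field K] : NoZeroDivisors (MonoidAlgebra K (ArtinGroup M)) := by
  have := Fintype.ofFinite S
  let o : Fin (Fintype.card S) ≃o S := Fintype.orderIsoFinOfCardEq S rfl
  let e : S ≃ ULift.{v} (Fin (Fintype.card S)) := o.symm.toEquiv.trans Equiv.ulift.symm
  let o' : LinearOrder (ULift.{v} (Fin (Fintype.card S))) :=
    LinearOrder.lift' ULift.down ULift.down_injective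
  have hlt : ∀ a b : ULift.{v} (Fin (Fintype.card S)), a < b → e.symm a < e.symm b := by
    intro a b hab
    exact o.lt_iff_lt.2 hab
  have h1 : NoZeroDivisors (MonoidAlgebra K (ArtinGroup (M.reindex e))) := by
    refine noZeroDivisors_chordal (M.reindex e) ?_ ?_ K
    · intro s t t' h h' h1 h2
      exact hord _ _ _ (hlt _ _ h) (hlt _ _ h') h1 h2
    · intro C hC
      refine finite_sm_reindex M e C (hfc _ ?_)
      intro s hs t ht
      have h3 := hC _ hs _ ht
      rw [CoxeterMatrix.reindex_apply, e.symm_apply_apply, e.symm_apply_apply] at h3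
      exact h3
  exact (MonoidAlgebra.mapDomainRingEquiv K (su_equiv M e)).injective.noZeroDivisors _
    (map_zero _) (map_mul _)

end Pool.Agent.Lib.MP_7b9603_alCF
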